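import Pool.Agent.H55.LF.PNT
import Pool.Agent.H35.LF.DIV
import Pool.Agent.H59.LF.MU1

/-!
# Prime counts in intervals of logarithmic length: the mean (MP_76b9e7_nt)
-/

set_option autoImplicit false

open Finset Filter Topology

namespace Pool.Agent.H21.PI

/-- The number of primes in the interval from `k` to `k + 1 + floor (log k)`. -/
noncomputable def X (k : ℕ) : ℕ :=
  ((Icc k (k + 1 + ⌊Real.log (k : ℝ)⌋₊)).filter Nat.Prime).card

/-- The proportion of the `k` with `1 <= k <= n` for which the interval contains exactly `j`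
primes. -/
noncomputable def gam (j n : ℕ) : ℝ := ((((Icc 1 n).filter (fun k : ℕ => X k = j)).card : ℕ) : ℝ) / n

theorem theta_tendsto : Tendsto (fun x : ℝ => Chebyshev.theta x / x) atTop (𝓝 1) := by
  have hP : Pool.Agent.H25.LF.T_PNT :=
    Pool.Agent.H55.LF.pf_PNT Pool.Agent.H35.LF.pf_DIV Pool.Agent.H59.LF.pf_MU1
  obtain ⟨C, hC⟩ := Chebyshev.psi_sub_theta_le_mul_sqrt
  rw [Metric.tendsto_atTop]
  intro ε hε
  obtain ⟨x₀, hx₀⟩ := hP (ε / 4) (by positivity)
  have h2 : Tendsto (fun x : ℝ => C * (Real.sqrt x)⁻¹) atTop (𝓝 0) := by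
    have := (tendsto_inv_atTop_zero.comp Real.tendsto_sqrt_atTop).const_mul C
    simpa using this
  obtain ⟨x₁, hx₁⟩ := eventually_atTop.1 (h2.eventually (gt_mem_nhds (show (0:ℝ) < ε / 4 by positivity)))
  refine ⟨max (max x₀ x₁) 1, fun x hx => ?_⟩
  have ha : x₀ ≤ x := (le_max_left _ _).trans ((le_max_left _ _).trans hx)
  have hb : x₁ ≤ x := (le_max_right _ _).trans ((le_max_left _ _).trans hx)
  have hc : 1 ≤ x := (le_max_right _ _).trans hx
  have hx0 : 0 < x := by linarith
  have e1 := hx₀ x ha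
  have e2 := hx₁ x hb
  have e3 := hC x
  have e4 := Chebyshev.theta_le_psi x
  have hs : 0 < Real.sqrt x := Real.sqrt_pos.2 hx0
  have e5 : C * Real.sqrt x ≤ ε / 4 * x := by
    have : C * Real.sqrt x = C * (Real.sqrt x)⁻¹ * x := by
      have hss : Real.sqrt x * Real.sqrt x = x := Real.mul_self_sqrt hx0.le
      field_simp
      nlinarith
    rw [this]
    exact mul_le_mul_of_nonneg_right e2.le hx0.le
  rw [Real.dist_eq, show Chebyshev.theta x / x - 1 = (Chebyshev.theta x - x) / x by
    field_simp, abs_div, abs_of_pos hx0, div_lt_iff₀ hx0]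
  have e6 := abs_le.1 e1
  rw [abs_lt]
  constructor <;> nlinarith

theorem pi_tendsto :
    Tendsto (fun n : ℕ => (Nat.primeCounting n : ℝ) * Real.log n / n) atTop (𝓝 1) := by
  have h1 := theta_tendsto.comp (tendsto_natCast_atTop_atTop (R := ℝ))
  have h2 := Chebyshev.primeCounting_sub_theta_div_log_isBigO
  obtain ⟨C, hC⟩ := h2.bound
  have h3 : Tendsto (fun n : ℕ => (Nat.primeCounting n : ℝ) * Real.log n / n -
      Chebyshev.theta n / n) atTop (𝓝 0) := by
    have hl : Tendsto (fun n : ℕ => C * (Real.log n)⁻¹) atTop (𝓝 0) := by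
      have := (tendsto_inv_atTop_zero.comp
        (Real.tendsto_log_atTop.comp (tendsto_natCast_atTop_atTop (R := ℝ)))).const_mul C
      simpa using this
    apply squeeze_zero_norm' _ hl
    have hC' := (tendsto_natCast_atTop_atTop (R := ℝ)).eventually hC
    filter_upwards [hC', eventually_ge_atTop 3] with n hn hn3
    have hn0 : (0:ℝ) < n := by exact_mod_cast (by omega : 0 < n)
    have hlog : 0 < Real.log n := Real.log_pos (by exact_mod_cast (by omega : 1 < n))
    rw [Nat.floor_natCast, Real.norm_eq_abs, Real.norm_eq_abs] at hn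
    rw [Real.norm_eq_abs]
    have e1 : (Nat.primeCounting n : ℝ) * Real.log n / n - Chebyshev.theta n / n =
        ((Nat.primeCounting n : ℝ) - Chebyshev.theta n / Real.log n) * (Real.log n / n) := by
      field_simp
    rw [e1, abs_mul, abs_of_pos (show 0 < Real.log n / n by positivity)]
    have e2 : |(n:ℝ) / Real.log n ^ 2| = n / Real.log n ^ 2 := abs_of_pos (by positivity)
    rw [e2] at hn
    calc |(Nat.primeCounting n : ℝ) - Chebyshev.theta n / Real.log n| * (Real.log n / n)
        ≤ C * (n / Real.log n ^ 2) * (Real.log n / n) := by gcongr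
      _ = C * (Real.log n)⁻¹ := by field_simp
  have h4 := h3.add h1
  simp only [Function.comp_apply, zero_add] at h4
  refine h4.congr (fun n => ?_)
  ring

/-- at most this many primes in the window -/
theorem X_le {k n : ℕ} (hk : 1 ≤ k) (hkn : k ≤ n) :
    (X k : ℕ) ≤ ∑ i ∈ range (⌊Real.log n⌋₊ + 2), if (k + i).Prime then 1 else 0 := by
  unfold X
  have h1 : ⌊Real.log (k:ℝ)⌋₊ ≤ ⌊Real.log (n:ℝ)⌋₊ := by
    apply Nat.floor_mono
    apply Real.log_le_log (by exact_mod_cast (by omega : 0 < k)) (by exact_mod_cast hkn)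
  rw [← card_filter, ← card_map (addLeftEmbedding k)
    (s := (range (⌊Real.log n⌋₊ + 2)).filter (fun i => (k + i).Prime))]
  apply card_le_card
  intro p hp
  rw [mem_filter, mem_Icc] at hp
  rw [Finset.mem_map]
  refine ⟨p - k, mem_filter.2 ⟨mem_range.2 (by omega), ?_⟩, ?_⟩
  · rw [Nat.add_sub_cancel' hp.1.1]
    exact hp.2
  · simp only [addLeftEmbedding_apply]
    omega

theorem le_X {k : ℕ} (L : ℕ) (hL : L ≤ ⌊Real.log (k:ℝ)⌋₊ + 2) :
    ∑ i ∈ range L, (if (k + i).Prime then 1 else 0) ≤ X k := by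
  unfold X
  rw [← card_filter, ← card_map (addLeftEmbedding k) (s := filter _ (range L))]
  apply card_le_card
  intro p hp
  rw [Finset.mem_map] at hp
  obtain ⟨i, hi, rfl⟩ := hp
  rw [mem_filter, mem_range] at hi
  simp only [addLeftEmbedding_apply]
  rw [mem_filter, mem_Icc]
  exact ⟨by omega, hi.2⟩

/-- counting primes in a shifted interval -/
theorem count_shift (a b i : ℕ) (hab : a ≤ b) :
    (∑ k ∈ Ioc a b, if (k + i).Prime then 1 else 0) + Nat.primeCounting (a + i) =
      Nat.primeCounting (b + i) := by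
  induction b, hab using Nat.le_induction with
  | base => simp
  | succ b hb ih =>
    rw [← Finset.sum_Ioc_consecutive _ hb (Nat.le_succ b), Nat.Ioc_succ_singleton, sum_singleton]
    have h1 : Nat.primeCounting (b + 1 + i) = Nat.primeCounting (b + i) +
        if (b + 1 + i).Prime then 1 else 0 := by
      rw [Nat.primeCounting, Nat.primeCounting, Nat.primeCounting', Nat.count_succ]
      have : b + 1 + i = b + i + 1 := by omega
      rw [this]
    omega

/-- the sum of the counts -/
noncomputable def S (n : ℕ) : ℕ := ∑ k ∈ Icc 1 n, X k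

theorem S_le (n : ℕ) : S n ≤ (⌊Real.log n⌋₊ + 2) * Nat.primeCounting (n + (⌊Real.log n⌋₊ + 2)) := by
  unfold S
  calc ∑ k ∈ Icc 1 n, X k
      ≤ ∑ k ∈ Icc 1 n, ∑ i ∈ range (⌊Real.log n⌋₊ + 2), (if (k + i).Prime then 1 else 0) := by
        apply sum_le_sum
        intro k hk
        rw [mem_Icc] at hk
        exact X_le hk.1 hk.2
    _ = ∑ i ∈ range (⌊Real.log n⌋₊ + 2), ∑ k ∈ Icc 1 n, (if (k + i).Prime then 1 else 0) :=
        sum_comm
    _ ≤ ∑ i ∈ range (⌊Real.log n⌋₊ + 2), Nat.primeCounting (n + (⌊Real.log n⌋₊ + 2)) := by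
        apply sum_le_sum
        intro i hi
        rw [mem_range] at hi
        have h1 := count_shift 0 n i (Nat.zero_le n)
        have h2 : Icc 1 n = Ioc 0 n := rfl
        have h3 : Nat.primeCounting (n + i) ≤ Nat.primeCounting (n + (⌊Real.log n⌋₊ + 2)) :=
          Nat.monotone_primeCounting (by omega)
        rw [h2]
        omega
    _ = _ := by rw [sum_const, card_range, smul_eq_mul]

theorem le_S (n m : ℕ) (hmn : m ≤ n) (hm : 1 ≤ m) :
    (⌊Real.log m⌋₊ + 2) * Nat.primeCounting n ≤
      S n + (⌊Real.log m⌋₊ + 2) * Nat.primeCounting (m + (⌊Real.log m⌋₊ + 2)) := by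
  unfold S
  have h1 : ∑ i ∈ range (⌊Real.log m⌋₊ + 2), ∑ k ∈ Ioc m n, (if (k + i).Prime then 1 else 0) ≤
      ∑ k ∈ Icc 1 n, X k := by
    rw [sum_comm]
    calc ∑ k ∈ Ioc m n, ∑ i ∈ range (⌊Real.log m⌋₊ + 2), (if (k + i).Prime then 1 else 0)
        ≤ ∑ k ∈ Ioc m n, X k := by
          apply sum_le_sum
          intro k hk
          rw [mem_Ioc] at hk
          apply le_X
          have : ⌊Real.log (m:ℝ)⌋₊ ≤ ⌊Real.log (k:ℝ)⌋₊ := by
            apply Nat.floor_mono
            apply Real.log_le_log (by exact_mod_cast (by omega : 0 < m))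
              (by exact_mod_cast hk.1.le)
          omega
      _ ≤ _ := by
          apply sum_le_sum_of_subset
          intro k hk
          rw [mem_Ioc] at hk
          rw [mem_Icc]
          omega
  have h2 : (⌊Real.log m⌋₊ + 2) * Nat.primeCounting n ≤
      (∑ i ∈ range (⌊Real.log m⌋₊ + 2), ∑ k ∈ Ioc m n, (if (k + i).Prime then 1 else 0)) +
      (⌊Real.log m⌋₊ + 2) * Nat.primeCounting (m + (⌊Real.log m⌋₊ + 2)) := by
    have h3 : ∑ i ∈ range (⌊Real.log m⌋₊ + 2), Nat.primeCounting n ≤
        ∑ i ∈ range (⌊Real.log m⌋₊ + 2), ((∑ k ∈ Ioc m n, (if (k + i).Prime then 1 else 0)) +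
          Nat.primeCounting (m + (⌊Real.log m⌋₊ + 2))) := by
      apply sum_le_sum
      intro i hi
      rw [mem_range] at hi
      have h1 := count_shift m n i hmn
      have h4 : Nat.primeCounting n ≤ Nat.primeCounting (n + i) :=
        Nat.monotone_primeCounting (by omega)
      have h5 : Nat.primeCounting (m + i) ≤ Nat.primeCounting (m + (⌊Real.log m⌋₊ + 2)) :=
        Nat.monotone_primeCounting (by omega)
      omega
    rw [sum_const, card_range, smul_eq_mul, sum_add_distrib, sum_const, card_range,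
      smul_eq_mul] at h3
    exact h3
  omega

end Pool.Agent.H21.PI
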