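import Pool.Agent.H21.PI.Mean

/-!
# Prime counts in intervals of logarithmic length: the mean tends to one (MP_76b9e7_nt)
-/

set_option autoImplicit false

open Finset Filter Topology

namespace Pool.Agent.H21.PI

/-- an upper bound for the number of integers in the window -/
noncomputable def H (n : ℕ) : ℕ := ⌊Real.log n⌋₊ + 2

theorem log_tendsto : Tendsto (fun n : ℕ => Real.log n) atTop atTop :=
  Real.tendsto_log_atTop.comp (tendsto_natCast_atTop_atTop (R := ℝ))

theorem H_ge (n : ℕ) : Real.log n + 1 ≤ H n := by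
  unfold H
  have := Nat.lt_floor_add_one (Real.log n)
  push_cast
  linarith

theorem H_le (n : ℕ) (hn : 1 ≤ n) : (H n : ℝ) ≤ Real.log n + 2 := by
  unfold H
  have h0 : 0 ≤ Real.log n := Real.log_nonneg (by exact_mod_cast hn)
  have := Nat.floor_le h0
  push_cast
  linarith

theorem H_mono {m n : ℕ} (hm : 1 ≤ m) (h : m ≤ n) : H m ≤ H n := by
  unfold H
  have : ⌊Real.log (m:ℝ)⌋₊ ≤ ⌊Real.log (n:ℝ)⌋₊ := by
    apply Nat.floor_mono
    apply Real.log_le_log (by exact_mod_cast (by omega : 0 < m)) (by exact_mod_cast h)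
  omega

/-- `(log n + a)/log n` tends to one -/
theorem ratio_tendsto (a : ℝ) : Tendsto (fun n : ℕ => (Real.log n + a) / Real.log n) atTop (𝓝 1) := by
  have h1 : Tendsto (fun n : ℕ => 1 + a * (Real.log n)⁻¹) atTop (𝓝 (1 + a * 0)) :=
    ((tendsto_inv_atTop_zero.comp log_tendsto).const_mul a).const_add 1
  rw [mul_zero, add_zero] at h1
  refine h1.congr' ?_
  filter_upwards [log_tendsto.eventually_gt_atTop 0] with n hn
  field_simp

theorem add_mul_pi_tendsto (a : ℝ) :
    Tendsto (fun n : ℕ => (Real.log n + a) * Nat.primeCounting n / n) atTop (𝓝 1) := by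
  have h1 := (ratio_tendsto a).mul pi_tendsto
  rw [mul_one] at h1
  refine h1.congr' ?_
  filter_upwards [log_tendsto.eventually_gt_atTop 0] with n hn
  field_simp

theorem log_sq_div_tendsto (a : ℝ) :
    Tendsto (fun n : ℕ => (Real.log n + a) ^ 2 / n) atTop (𝓝 0) := by
  have h1 : Tendsto (fun x : ℝ => Real.log x ^ 2 / x) atTop (𝓝 0) := by
    have := (isLittleO_log_rpow_atTop (show (0:ℝ) < 1 / 2 by norm_num))
    have h2 := this.tendsto_div_nhds_zero
    have h3 := h2.pow 2
    rw [zero_pow two_ne_zero] at h3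
    refine h3.congr' ?_
    filter_upwards [eventually_gt_atTop 0] with x hx
    rw [div_pow, ← Real.rpow_natCast, ← Real.rpow_natCast, ← Real.rpow_mul hx.le]
    norm_num
  have h2 : Tendsto (fun n : ℕ => Real.log n ^ 2 / n) atTop (𝓝 0) :=
    h1.comp (tendsto_natCast_atTop_atTop (R := ℝ))
  have h3 := ((ratio_tendsto a).pow 2).mul h2
  rw [one_pow, one_mul] at h3
  refine h3.congr' ?_
  filter_upwards [log_tendsto.eventually_gt_atTop 0] with n hn
  field_simp

theorem pi_add_le (n h : ℕ) : Nat.primeCounting (n + h) ≤ Nat.primeCounting n + h := by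
  induction h with
  | zero => simp
  | succ h ih =>
    have h1 : Nat.primeCounting (n + (h + 1)) ≤ Nat.primeCounting (n + h) + 1 := by
      rw [← add_assoc, Nat.primeCounting, Nat.primeCounting, Nat.primeCounting',
        Nat.count_succ Nat.Prime (n + h + 1)]
      split_ifs <;> omega
    omega

theorem S_upper (n : ℕ) (hn : 1 ≤ n) :
    (S n : ℝ) / n ≤ (Real.log n + 2) * Nat.primeCounting n / n + (Real.log n + 2) ^ 2 / n := by
  have hn0 : (0:ℝ) < n := by exact_mod_cast (by omega : 0 < n)
  have h1 := S_le n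
  have h2 := pi_add_le n (⌊Real.log n⌋₊ + 2)
  have h3 : (S n : ℝ) ≤ (H n : ℝ) * (Nat.primeCounting n + H n) := by
    have := h1.trans (Nat.mul_le_mul_left _ h2)
    unfold H
    exact_mod_cast this
  have h4 := H_le n hn
  have h5 : (0:ℝ) ≤ H n := Nat.cast_nonneg _
  rw [← add_div, div_le_div_iff_of_pos_right hn0]
  have h6 : (0:ℝ) ≤ Nat.primeCounting n := Nat.cast_nonneg _
  nlinarith

theorem S_lower (n K : ℕ) (hK : 1 ≤ K) (hn : K ≤ n) :
    (Real.log n - Real.log (2 * K)) * Nat.primeCounting n / n -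
      ((Real.log n + 2) * Nat.primeCounting (n / K) / n + (Real.log n + 2) ^ 2 / n) ≤
      (S n : ℝ) / n := by
  have hn0 : (0:ℝ) < n := by exact_mod_cast (by omega : 0 < n)
  set m := n / K with hm
  have hm1 : 1 ≤ m := (Nat.one_le_div_iff (by omega)).2 hn
  have hmn : m ≤ n := Nat.div_le_self n K
  have h1 := le_S n m hmn hm1
  have h2 := pi_add_le m (⌊Real.log m⌋₊ + 2)
  have h3 : (H m : ℝ) * Nat.primeCounting n ≤ S n + H m * (Nat.primeCounting m + H m) := by
    have := h1.trans (Nat.add_le_add_left (Nat.mul_le_mul_left (⌊Real.log m⌋₊ + 2) h2) (S n))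
    unfold H
    exact_mod_cast this
  have h4 : (H m : ℝ) ≤ Real.log n + 2 := by
    have : (H m : ℝ) ≤ H n := by exact_mod_cast H_mono hm1 hmn
    exact this.trans (H_le n (by omega))
  have h5 : Real.log n - Real.log (2 * K) ≤ H m := by
    have e1 := H_ge m
    have hK0 : (0:ℝ) < K := by exact_mod_cast (by omega : 0 < K)
    have e2 : Real.log n ≤ Real.log (2 * K) + Real.log m := by
      have hm0 : (0:ℝ) < m := by exact_mod_cast (by omega : 0 < m)
      rw [← Real.log_mul (by positivity) (by positivity)]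
      apply Real.log_le_log hn0
      have : n ≤ 2 * K * m := by
        have e3 := Nat.div_add_mod n K
        have e4 := Nat.mod_lt n (show 0 < K by omega)
        rw [← hm] at e3
        nlinarith
      exact_mod_cast this
    linarith
  have h6 : (0:ℝ) ≤ Nat.primeCounting n := Nat.cast_nonneg _
  have h7 : (0:ℝ) ≤ Nat.primeCounting m := Nat.cast_nonneg _
  have h8 : (0:ℝ) ≤ H m := Nat.cast_nonneg _
  rw [← add_div, ← sub_div, div_le_div_iff_of_pos_right hn0]
  nlinarith [mul_le_mul_of_nonneg_right h5 h6, mul_le_mul_of_nonneg_right h4 h7,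
    mul_le_mul h4 h4 h8 (by linarith)]

theorem pi_div_tendsto (K : ℕ) (hK : 1 ≤ K) :
    Tendsto (fun n : ℕ => (Real.log n + 2) * Nat.primeCounting (n / K) / n) atTop
      (𝓝 (1 / K)) := by
  have hK0 : (0:ℝ) < K := by exact_mod_cast (by omega : 0 < K)
  have hdiv : Tendsto (fun n : ℕ => n / K) atTop atTop :=
    Nat.tendsto_div_const_atTop (by omega)
  have h1 := pi_tendsto.comp hdiv
  have h2 : Tendsto (fun n : ℕ => (((n / K : ℕ) : ℝ)) / n) atTop (𝓝 (1 / K)) := by
    have e1 : Tendsto (fun n : ℕ => 1 / (K:ℝ) - 1 / n) atTop (𝓝 (1 / K - 0)) :=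
      tendsto_one_div_atTop_nhds_zero_nat.const_sub _
    rw [sub_zero] at e1
    refine tendsto_of_tendsto_of_tendsto_of_le_of_le' e1 tendsto_const_nhds ?_ ?_
    · filter_upwards [eventually_ge_atTop 1] with n hn
      have hn0 : (0:ℝ) < n := by exact_mod_cast (by omega : 0 < n)
      rw [le_div_iff₀ hn0, sub_mul, one_div_mul_cancel hn0.ne']
      have : (n:ℝ) / K < ((n / K : ℕ) : ℝ) + 1 := by
        rw [div_lt_iff₀ hK0]
        have e3 := Nat.lt_mul_div_succ n (show 0 < K by omega)
        have : (n:ℝ) < K * ((n / K : ℕ) + 1) := by exact_mod_cast e3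
        linarith
      have e4 : 1 / (K:ℝ) * n = n / K := by ring
      rw [e4]
      linarith
    · filter_upwards [eventually_ge_atTop 1] with n hn
      have hn0 : (0:ℝ) < n := by exact_mod_cast (by omega : 0 < n)
      rw [div_le_iff₀ hn0]
      have : ((n / K : ℕ) : ℝ) ≤ n / K := Nat.cast_div_le
      have e4 : 1 / (K:ℝ) * n = n / K := by ring
      rw [e4]
      exact this
  have h3 : Tendsto (fun n : ℕ => (Real.log n + 2) / Real.log ((n / K : ℕ) : ℝ)) atTop (𝓝 1) := by
    have e1 := (ratio_tendsto (Real.log (2 * K) + 2)).comp hdiv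
    have e2 := (ratio_tendsto 0).comp hdiv
    refine tendsto_of_tendsto_of_tendsto_of_le_of_le' e2 e1 ?_ ?_
    · filter_upwards [(log_tendsto.comp hdiv).eventually_gt_atTop 0, eventually_ge_atTop K]
        with n hn hnK
      simp only [Function.comp_apply] at hn ⊢
      rw [div_le_div_iff_of_pos_right hn]
      have : Real.log ((n / K : ℕ) : ℝ) ≤ Real.log n := by
        apply Real.log_le_log
        · exact_mod_cast Nat.div_pos hnK (by omega)
        · exact_mod_cast Nat.div_le_self n K
      linarith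
    · filter_upwards [(log_tendsto.comp hdiv).eventually_gt_atTop 0, eventually_ge_atTop K]
        with n hn hnK
      simp only [Function.comp_apply] at hn ⊢
      rw [div_le_div_iff_of_pos_right hn]
      have hn0 : (0:ℝ) < n := by exact_mod_cast (by omega : 0 < n)
      have hm0 : (0:ℝ) < ((n / K : ℕ) : ℝ) := by exact_mod_cast Nat.div_pos hnK (by omega)
      have : Real.log n ≤ Real.log (2 * K) + Real.log ((n / K : ℕ) : ℝ) := by
        rw [← Real.log_mul (by positivity) (by positivity)]
        apply Real.log_le_log hn0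
        have : n ≤ 2 * K * (n / K) := by
          have e3 := Nat.div_add_mod n K
          have e4 := Nat.mod_lt n (show 0 < K by omega)
          have e5 : 1 ≤ n / K := (Nat.one_le_div_iff (by omega)).2 hnK
          nlinarith
        exact_mod_cast this
      linarith
  have h4 := (h3.mul h1).mul h2
  simp only [Function.comp_apply, one_mul] at h4
  refine h4.congr' ?_
  filter_upwards [(log_tendsto.comp hdiv).eventually_gt_atTop 0, eventually_ge_atTop K]
    with n hn hnK
  simp only [Function.comp_apply] at hn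
  have hn0 : (0:ℝ) < n := by exact_mod_cast (by omega : 0 < n)
  have hm0 : (0:ℝ) < ((n / K : ℕ) : ℝ) := by exact_mod_cast Nat.div_pos hnK (by omega)
  field_simp

/-- **The mean.** -/
theorem S_tendsto : Tendsto (fun n : ℕ => (S n : ℝ) / n) atTop (𝓝 1) := by
  have hu : Tendsto (fun n : ℕ => (Real.log n + 2) * Nat.primeCounting n / n +
      (Real.log n + 2) ^ 2 / n) atTop (𝓝 1) := by
    have := (add_mul_pi_tendsto 2).add (log_sq_div_tendsto 2)
    rwa [add_zero] at this
  rw [Metric.tendsto_atTop]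
  intro ε hε
  obtain ⟨K, hK⟩ := exists_nat_one_div_lt (show (0:ℝ) < ε / 2 by positivity)
  have hl : Tendsto (fun n : ℕ => (Real.log n - Real.log (2 * ((K + 1 : ℕ) : ℝ))) *
      Nat.primeCounting n / n - ((Real.log n + 2) * Nat.primeCounting (n / (K + 1)) / n +
      (Real.log n + 2) ^ 2 / n)) atTop (𝓝 (1 - (1 / ((K + 1 : ℕ) : ℝ) + 0))) := by
    refine Tendsto.sub ?_ ((pi_div_tendsto (K + 1) (by omega)).add (log_sq_div_tendsto 2))
    exact (add_mul_pi_tendsto (-Real.log (2 * ((K + 1 : ℕ) : ℝ)))).congr (fun n => by ring)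
  have e1 := hu.eventually (gt_mem_nhds (show (1:ℝ) < 1 + ε by linarith))
  have e2 := hl.eventually (lt_mem_nhds
    (show 1 - ε < 1 - (1 / ((K + 1 : ℕ) : ℝ) + 0) by push_cast; linarith))
  obtain ⟨N, hN⟩ := eventually_atTop.1 (e1.and e2)
  refine ⟨max N (K + 1), fun n hn => ?_⟩
  have hn1 : N ≤ n := (le_max_left _ _).trans hn
  have hn2 : K + 1 ≤ n := (le_max_right _ _).trans hn
  obtain ⟨a1, a2⟩ := hN n hn1
  have b1 := S_upper n (by omega)
  have b2 := S_lower n (K + 1) (by omega) hn2
  rw [Real.dist_eq, abs_lt]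
  constructor
  · linarith
  · linarith

end Pool.Agent.H21.PI
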