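import Pool.Agent.H21.PI.Mean2
import Pool.Agent.H75.PS.Pair
import Pool.Agent.H75.PS.Moment

/-!
# Prime counts in intervals of logarithmic length: the second moment (MP_76b9e7_nt)
-/

set_option autoImplicit false

open Finset Filter Topology

namespace Pool.Agent.H21.PI

/-- indicator of the primes -/
def ind (k : ℕ) : ℕ := if k.Prime then 1 else 0

/-- the number of the `p < M` with `p` and `p + t` prime -/
def D (M t : ℕ) : ℕ := ((range M).filter (fun p => p.Prime ∧ (p + t).Prime)).card

theorem X_sq_le {k n : ℕ} (hk : 1 ≤ k) (hkn : k ≤ n) :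
    (X k) ^ 2 ≤ ∑ i ∈ range (H n), ∑ j ∈ range (H n), ind (k + i) * ind (k + j) := by
  have h1 : X k ≤ ∑ i ∈ range (H n), ind (k + i) := X_le hk hkn
  rw [← sum_mul_sum, ← sq]
  exact Nat.pow_le_pow_left h1 2

theorem pair_le (n i j h : ℕ) (hij : i ≤ j) (hj : j < h) :
    ∑ k ∈ Icc 1 n, ind (k + i) * ind (k + j) ≤ D (n + h) (j - i) := by
  have h1 : ∀ k, ind (k + i) * ind (k + j) = if (k + i).Prime ∧ (k + j).Prime then 1 else 0 := by
    intro k
    unfold ind
    split_ifs <;> simp_all
  rw [sum_congr rfl (fun k _ => h1 k), ← card_filter]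
  unfold D
  rw [← card_map (addRightEmbedding i)
    (s := (Icc 1 n).filter (fun k => (k + i).Prime ∧ (k + j).Prime))]
  apply card_le_card
  intro p hp
  rw [Finset.mem_map] at hp
  obtain ⟨k, hk, rfl⟩ := hp
  rw [mem_filter, mem_Icc] at hk
  simp only [addRightEmbedding_apply]
  rw [mem_filter, mem_range]
  refine ⟨by omega, hk.2.1, ?_⟩
  have : k + i + (j - i) = k + j := by omega
  rw [this]
  exact hk.2.2

theorem pairs_le (n h : ℕ) :
    ∑ k ∈ Icc 1 n, ∑ i ∈ range h, ∑ j ∈ range h, ind (k + i) * ind (k + j) ≤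
      2 * h * ∑ t ∈ range h, D (n + h) t := by
  rw [sum_comm]
  have h1 : ∀ i ∈ range h, ∑ k ∈ Icc 1 n, ∑ j ∈ range h, ind (k + i) * ind (k + j) ≤
      2 * ∑ t ∈ range h, D (n + h) t := by
    intro i hi
    rw [mem_range] at hi
    rw [sum_comm]
    have h2 : ∑ j ∈ range h, ∑ k ∈ Icc 1 n, ind (k + i) * ind (k + j) ≤
        ∑ j ∈ range h, ((if i ≤ j then D (n + h) (j - i) else 0) +
          (if j ≤ i then D (n + h) (i - j) else 0)) := by
      apply sum_le_sum
      intro j hj
      rw [mem_range] at hj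
      rcases le_total i j with hij | hij
      · have := pair_le n i j h hij hj
        rw [if_pos hij]
        omega
      · have := pair_le n j i h hij hi
        rw [if_pos hij]
        have e : ∑ k ∈ Icc 1 n, ind (k + i) * ind (k + j) =
            ∑ k ∈ Icc 1 n, ind (k + j) * ind (k + i) :=
          sum_congr rfl (fun k _ => mul_comm _ _)
        omega
    refine h2.trans ?_
    rw [sum_add_distrib, two_mul]
    apply add_le_add
    · rw [← sum_filter]
      rw [← sum_image (s := (range h).filter (fun j => i ≤ j)) (g := fun j => j - i)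
        (f := fun t => D (n + h) t)]
      · apply sum_le_sum_of_subset
        intro t ht
        rw [mem_image] at ht
        obtain ⟨j, hj, rfl⟩ := ht
        rw [mem_filter, mem_range] at hj
        rw [mem_range]
        omega
      · intro a ha b hb hab
        rw [mem_coe, mem_filter, mem_range] at ha hb
        simp only at hab
        omega
    · rw [← sum_filter]
      rw [← sum_image (s := (range h).filter (fun j => j ≤ i)) (g := fun j => i - j)
        (f := fun t => D (n + h) t)]
      · apply sum_le_sum_of_subset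
        intro t ht
        rw [mem_image] at ht
        obtain ⟨j, hj, rfl⟩ := ht
        rw [mem_filter, mem_range] at hj
        rw [mem_range]
        omega
      · intro a ha b hb hab
        rw [mem_coe, mem_filter, mem_range] at ha hb
        simp only at hab
        omega
  refine (sum_le_sum h1).trans ?_
  rw [sum_const, card_range, smul_eq_mul]
  apply le_of_eq
  ring

theorem D_zero (M : ℕ) : D M 0 ≤ Nat.primeCounting M := by
  unfold D
  rw [Nat.primeCounting, Nat.primeCounting', Nat.count_eq_card_filter_range]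
  apply card_le_card
  intro p hp
  rw [mem_filter, mem_range] at hp ⊢
  exact ⟨by omega, hp.2.1⟩

theorem D_odd (M t : ℕ) (ht : ¬ Even t) : D M t ≤ 1 := by
  unfold D
  rw [card_le_one_iff_subset_singleton]
  refine ⟨2, fun p hp => ?_⟩
  rw [mem_filter, mem_range] at hp
  rw [mem_singleton]
  obtain ⟨_, h1, h2⟩ := hp
  rcases h1.eq_two_or_odd' with h | h
  · exact h
  · exfalso
    have h3 : Even (p + t) := Nat.even_add.2 ⟨fun h4 => absurd h (Nat.not_odd_iff_even.2 h4),
      fun h4 => absurd h4 ht⟩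
    have h4 := (h2.even_iff).1 h3
    have h5 := h1.two_le
    have h6 : t ≠ 0 := fun h => ht (h ▸ Even.zero)
    omega

/-- the Euler factor -/
noncomputable def f (t : ℕ) : ℝ := ∏ p ∈ t.primeFactors, (1 + 1 / (p : ℝ))

theorem one_le_f (t : ℕ) : 1 ≤ f t := by
  unfold f
  calc (1:ℝ) = ∏ p ∈ t.primeFactors, (1:ℝ) := by simp
    _ ≤ _ := by
      apply Finset.prod_le_prod
      · intro p _
        exact zero_le_one
      · intro p _
        have : (0:ℝ) ≤ 1 / (p:ℝ) := by positivity
        linarith

theorem D_even (M s z : ℕ) (hs : 0 < s) (hz : 1 ≤ z) :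
    (D M (2 * s) : ℝ) ≤ (z:ℝ) ^ 2 + (9 * (f s) ^ 2 * M / (Real.log (z + 1)) ^ 2 + (z:ℝ) ^ 12) := by
  have h1 := Pool.Agent.H75.PS.pair_bound 2 s (z ^ 2) M z even_two (by norm_num) hs hz
    (by nlinarith [sq_nonneg z])
  have h2 : (∏ p ∈ (2:ℕ).primeFactors, (1 + 1 / (p : ℝ))) ^ 2 = 9 / 4 := by
    rw [Nat.Prime.primeFactors Nat.prime_two, prod_singleton]
    norm_num
  rw [h2] at h1
  have h3 : D M (2 * s) ≤ z ^ 2 + ((Finset.Ico (z ^ 2) (z ^ 2 + M)).filter
      (fun n => (2 * n + 1).Prime ∧ (2 * n + 1 + 2 * s).Prime)).card := by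
    unfold D
    calc ((range M).filter (fun p => p.Prime ∧ (p + 2 * s).Prime)).card
        ≤ (((range (z ^ 2)) ∪ (Finset.Ico (z ^ 2) (z ^ 2 + M)).filter
          (fun n => (2 * n + 1).Prime ∧ (2 * n + 1 + 2 * s).Prime)).image
            (fun n => 2 * n + 1)).card := by
          apply card_le_card
          intro p hp
          rw [mem_filter, mem_range] at hp
          obtain ⟨h4, h5, h6⟩ := hp
          rw [mem_image]
          rcases h5.eq_two_or_odd' with h | h
          · exfalso
            subst h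
            have : Even (2 + 2 * s) := ⟨1 + s, by ring⟩
            have h7 := (h6.even_iff).1 this
            omega
          · obtain ⟨m, hm⟩ := h
            refine ⟨m, ?_, hm.symm⟩
            rw [mem_union, mem_range]
            by_cases hmz : m < z ^ 2
            · exact Or.inl hmz
            · refine Or.inr (mem_filter.2 ⟨mem_Ico.2 ⟨by omega, by omega⟩, ?_, ?_⟩)
              · rw [← hm]
                exact h5
              · rw [← hm]
                exact h6
      _ ≤ _ := card_image_le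
      _ ≤ _ := (card_union_le _ _).trans (by rw [card_range])
  have h4 : (D M (2 * s) : ℝ) ≤ (z:ℝ) ^ 2 + ((((Finset.Ico (z ^ 2) (z ^ 2 + M)).filter
      (fun n => (2 * n + 1).Prime ∧ (2 * n + 1 + 2 * s).Prime)).card : ℕ) : ℝ) := by
    exact_mod_cast h3
  refine h4.trans (add_le_add_right (h1.trans (le_of_eq ?_)) _)
  unfold f
  ring

theorem sum_f_sq (T : ℕ) : ∑ t ∈ Icc 1 T, (f t) ^ 2 ≤ Pool.Agent.H75.PS.CC ^ 4 * T := by
  refine le_trans (sum_le_sum (fun t _ => ?_)) (Pool.Agent.H75.PS.moment T)
  exact pow_le_pow_right₀ (one_le_f t) (by norm_num)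

theorem sum_D_le (M h z : ℕ) (hz : 1 ≤ z) :
    ((∑ t ∈ range h, D M t : ℕ) : ℝ) ≤ Nat.primeCounting M + h +
      (h * ((z:ℝ) ^ 2 + (z:ℝ) ^ 12) +
        9 * M / (Real.log (z + 1)) ^ 2 * (Pool.Agent.H75.PS.CC ^ 4 * h)) := by
  set E : ℕ → ℝ := fun s => (z:ℝ) ^ 2 + (9 * (f s) ^ 2 * M / (Real.log (z + 1)) ^ 2 + (z:ℝ) ^ 12)
    with hE
  have hE0 : ∀ s, 0 ≤ E s := fun s => by
    rw [hE]
    positivity
  have h1 : ((∑ t ∈ range h, D M t : ℕ) : ℝ) ≤
      Nat.primeCounting M + ∑ t ∈ Ico 1 h, (1 + if Even t then E (t / 2) else 0) := by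
    push_cast
    rcases Nat.eq_zero_or_pos h with rfl | hh
    · simp
    · rw [Finset.range_eq_Ico, Finset.sum_eq_sum_Ico_succ_bot hh, zero_add]
      apply add_le_add
      · exact_mod_cast D_zero M
      · apply sum_le_sum
        intro t ht
        rw [mem_Ico] at ht
        split_ifs with he
        · obtain ⟨s, hs⟩ := he
          have hs2 : t = 2 * s := by omega
          have hs3 : t / 2 = s := by omega
          rw [hs3, hs2]
          have := D_even M s z (by omega) hz
          rw [hE]
          simp only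
          linarith
        · have := D_odd M t he
          rw [add_zero]
          exact_mod_cast this
  refine h1.trans ?_
  rw [sum_add_distrib, add_assoc]
  have h2 : ∑ t ∈ Ico 1 h, (1:ℝ) ≤ h := by
    rw [sum_const, Nat.card_Ico, nsmul_eq_mul, mul_one]
    exact_mod_cast Nat.sub_le h 1
  have h3 : ∑ t ∈ Ico 1 h, (if Even t then E (t / 2) else 0) ≤ ∑ s ∈ Icc 1 h, E s := by
    rw [← sum_filter]
    rw [← sum_image (s := (Ico 1 h).filter Even) (g := fun j => j / 2) (f := E)]
    · apply sum_le_sum_of_subset_of_nonneg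
      · intro t ht
        rw [mem_image] at ht
        obtain ⟨j, hj, rfl⟩ := ht
        rw [mem_filter, mem_Ico] at hj
        obtain ⟨hj1, s, hs⟩ := hj
        rw [mem_Icc]
        omega
      · intro s _ _
        exact hE0 s
    · intro a ha b hb hab
      rw [mem_coe, mem_filter] at ha hb
      obtain ⟨_, s, hs⟩ := ha
      obtain ⟨_, s', hs'⟩ := hb
      simp only at hab
      omega
  have h4 : ∑ s ∈ Icc 1 h, E s ≤ h * ((z:ℝ) ^ 2 + (z:ℝ) ^ 12) +
        9 * M / (Real.log (z + 1)) ^ 2 * (Pool.Agent.H75.PS.CC ^ 4 * h) := by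
    have h5 : ∑ s ∈ Icc 1 h, E s = ∑ s ∈ Icc 1 h, ((z:ℝ) ^ 2 + (z:ℝ) ^ 12) +
        9 * M / (Real.log (z + 1)) ^ 2 * ∑ s ∈ Icc 1 h, (f s) ^ 2 := by
      rw [mul_sum, ← sum_add_distrib]
      apply sum_congr rfl
      intro s _
      rw [hE]
      ring
    rw [h5, sum_const, Nat.card_Icc, nsmul_eq_mul, Nat.add_sub_cancel]
    gcongr
    exact sum_f_sq h
  linarith

end Pool.Agent.H21.PI
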