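import Pool.Agent.H21.PI.Graded

/-!
# Prime counts in intervals of logarithmic length: alternation (MP_76b9e7_nt)
-/

set_option autoImplicit false

open Finset Filter Topology

namespace Pool.Agent.H21.PI

theorem alt_aux {d : ℕ → ℝ} (h0 : HasSum d 0) (h1 : HasSum (fun j : ℕ => (j : ℝ) * d j) 0)
    {a : ℕ} (ha : 0 < d a) (hlt : ∀ j, j < a → d j = 0) :
    ∃ b c : ℕ, a < b ∧ b < c ∧ d b < 0 ∧ 0 < d c := by
  classical
  have hneg : ∃ b, d b < 0 := by
    by_contra hc
    push Not at hc
    have h2 := (hasSum_zero_iff_of_nonneg hc).1 h0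
    have h3 := congrFun h2 a
    simp only [Pi.zero_apply] at h3
    linarith
  set b := Nat.find hneg with hb
  have hbneg : d b < 0 := Nat.find_spec hneg
  have hbmin : ∀ j, j < b → 0 ≤ d j := fun j hj => not_lt.1 (Nat.find_min hneg hj)
  have hab : a < b := by
    rcases lt_trichotomy a b with h | h | h
    · exact h
    · rw [← h] at hbneg
      linarith
    · have := hlt b h
      linarith
  refine ⟨b, ?_⟩
  by_contra hc
  push Not at hc
  have hup : ∀ c, b < c → d c ≤ 0 := fun c hbc => hc c hab hbc hbneg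
  have h2 : HasSum (fun j : ℕ => ((b : ℝ) - j) * d j) 0 := by
    have := (h0.mul_left (b:ℝ)).sub h1
    rw [mul_zero, sub_zero] at this
    have e2 : (fun j : ℕ => ((b : ℝ) - j) * d j) =
        fun j : ℕ => (b : ℝ) * d j - (j : ℝ) * d j := by
      funext j
      ring
    rw [e2]
    exact this
  have h3 : ∀ j : ℕ, 0 ≤ ((b : ℝ) - j) * d j := by
    intro j
    rcases lt_trichotomy j b with h | h | h
    · have : (j:ℝ) < b := by exact_mod_cast h
      exact mul_nonneg (by linarith) (hbmin j h)
    · rw [h]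
      simp
    · have : (b:ℝ) < j := by exact_mod_cast h
      exact mul_nonneg_of_nonpos_of_nonpos (by linarith) (hup j h)
  have h4 := (hasSum_zero_iff_of_nonneg h3).1 h2
  have h5 := congrFun h4 a
  simp only [Pi.zero_apply, mul_eq_zero] at h5
  have : (a:ℝ) < b := by exact_mod_cast hab
  rcases h5 with h5 | h5 <;> linarith

/-- **Alternation.** -/
theorem alternate {g g' : ℕ → ℝ} (hg : g ∈ LL) (hg' : g' ∈ LL) (h : g ≠ g') :
    ∃ a b c : ℕ, a < b ∧ b < c ∧ ((g' a < g a ∧ g b < g' b ∧ g' c < g c) ∨
      (g a < g' a ∧ g' b < g b ∧ g c < g' c)) := by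
  classical
  obtain ⟨C, _, hC⟩ := law_sums
  obtain ⟨p1, p2, -, -⟩ := hC g hg
  obtain ⟨q1, q2, -, -⟩ := hC g' hg'
  have hne : ∃ a, g a ≠ g' a := by
    by_contra hc
    push Not at hc
    exact h (funext hc)
  set a := Nat.find hne with ha
  have haspec : g a ≠ g' a := Nat.find_spec hne
  have hamin : ∀ j, j < a → g j = g' j := fun j hj => not_not.1 (Nat.find_min hne hj)
  rcases lt_or_gt_of_ne haspec with hlt | hgt
  · have e1 := q1.sub p1
    have e2 := q2.sub p2
    rw [sub_self] at e1 e2
    obtain ⟨b, c, hab, hbc, hb, hc⟩ := alt_aux (d := fun j => g' j - g j) e1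
      (by
        have e3 : (fun j : ℕ => (j : ℝ) * (g' j - g j)) =
            fun j : ℕ => (j : ℝ) * g' j - (j : ℝ) * g j := by
          funext j
          ring
        rw [e3]
        exact e2) (a := a) (by linarith) (fun j hj => by rw [hamin j hj, sub_self])
    exact ⟨a, b, c, hab, hbc, Or.inr ⟨hlt, by linarith, by linarith⟩⟩
  · have e1 := p1.sub q1
    have e2 := p2.sub q2
    rw [sub_self] at e1 e2
    obtain ⟨b, c, hab, hbc, hb, hc⟩ := alt_aux (d := fun j => g j - g' j) e1
      (by
        have e3 : (fun j : ℕ => (j : ℝ) * (g j - g' j)) =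
            fun j : ℕ => (j : ℝ) * g j - (j : ℝ) * g' j := by
          funext j
          ring
        rw [e3]
        exact e2) (a := a) (by linarith) (fun j hj => by rw [hamin j hj, sub_self])
    exact ⟨a, b, c, hab, hbc, Or.inl ⟨hgt, by linarith, by linarith⟩⟩

/-- few exceptional values and convergent averages of tuples -/
theorem none_or_many (s : ℕ) (hm : ∀ r, 2 ≤ r → r < s → ConvT r) :
    {j | ¬ Conv j} = ∅ ∨ (s : ℕ∞) < {j | ¬ Conv j}.encard := by
  classical
  by_cases h : (s : ℕ∞) < {j | ¬ Conv j}.encard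
  · exact Or.inr h
  · left
    push Not at h
    have hfin : {j | ¬ Conv j}.Finite := Set.finite_of_encard_le_coe h
    obtain ⟨F, hF⟩ := hfin.exists_finset_coe
    rw [← hF, Set.encard_coe_eq_coe_finsetCard] at h
    have h3 : F.card ≤ s := by exact_mod_cast h
    rw [Set.eq_empty_iff_forall_notMem]
    intro j hj
    apply hj
    apply finite_conv F
    · intro i hi
      by_contra hc
      apply hi
      have : i ∈ (F : Set ℕ) := by
        rw [hF]
        exact hc
      exact this
    · intro r h2 hr
      exact hm r h2 (lt_of_lt_of_le hr h3)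

end Pool.Agent.H21.PI
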