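import Pool.Agent.H21.PI.Rigid

/-!
# Prime counts in intervals of logarithmic length: the set of limit laws (MP_76b9e7_nt)
-/

set_option autoImplicit false

open Finset Filter Topology

namespace Pool.Agent.H21.PI

section General

variable {E : Type*} [TopologicalSpace E] {K : Set E} {x : ℕ → E}

theorem cluster_closed (x : ℕ → E) : IsClosed {y | MapClusterPt y atTop x} := by
  have : {y | MapClusterPt y atTop x} = ⋂ s ∈ map x atTop, closure s := by
    ext y
    rw [Set.mem_ofPred_eq, MapClusterPt, clusterPt_iff_forall_mem_closure]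
    simp
  rw [this]
  exact isClosed_biInter (fun s _ => isClosed_closure)

theorem ultra_lim (hK : IsCompact K) (hx : ∀ n, x n ∈ K) (U : Ultrafilter ℕ) :
    ∃ y ∈ K, Tendsto x U (𝓝 y) := by
  have h1 : (U.map x : Filter E) ≤ 𝓟 K := by
    rw [le_principal_iff]
    change x ⁻¹' K ∈ U
    exact Filter.univ_mem' hx
  obtain ⟨y, hy, h⟩ := hK.ultrafilter_le_nhds (U.map x) h1
  exact ⟨y, hy, h⟩

theorem cluster_subset [T2Space E] (hK : IsCompact K) (hx : ∀ n, x n ∈ K) :
    {y | MapClusterPt y atTop x} ⊆ K := by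
  intro y hy
  obtain ⟨U, hU, h⟩ := mapClusterPt_iff_ultrafilter.1 hy
  obtain ⟨z, hz, h'⟩ := ultra_lim hK hx U
  rw [tendsto_nhds_unique h h']
  exact hz

theorem cluster_compact [T2Space E] (hK : IsCompact K) (hx : ∀ n, x n ∈ K) :
    IsCompact {y | MapClusterPt y atTop x} :=
  hK.of_isClosed_subset (cluster_closed x) (cluster_subset hK hx)

theorem cluster_nonempty (hK : IsCompact K) (hx : ∀ n, x n ∈ K) :
    {y | MapClusterPt y atTop x}.Nonempty := by
  obtain ⟨y, _, hy⟩ := ultra_lim hK hx (hyperfilter ℕ)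
  exact ⟨y, mapClusterPt_iff_ultrafilter.2 ⟨hyperfilter ℕ, Nat.hyperfilter_le_atTop, hy⟩⟩

/-- there is an ultrafilter above infinity concentrated on a frequent property -/
theorem exists_ultra {p : ℕ → Prop} (hp : ∃ᶠ n in atTop, p n) :
    ∃ U : Ultrafilter ℕ, (U : Filter ℕ) ≤ atTop ∧ ∀ᶠ n in (U : Filter ℕ), p n := by
  have : NeBot (atTop ⊓ 𝓟 {n | p n}) := by
    rw [← frequently_mem_iff_neBot] 
    exact hp
  refine ⟨Ultrafilter.of (atTop ⊓ 𝓟 {n | p n}), (Ultrafilter.of_le _).trans inf_le_left, ?_⟩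
  have h := (Ultrafilter.of_le (atTop ⊓ 𝓟 {n | p n})).trans inf_le_right
  exact h (mem_principal_self _)

/-- The cluster set of a slowly varying sequence in a compact set is connected. -/
theorem cluster_preconnected [T2Space E] (hK : IsCompact K) (hx : ∀ n, x n ∈ K)
    (hclose : ∀ U : Ultrafilter ℕ, (U : Filter ℕ) ≤ atTop → ∀ y y', Tendsto x U (𝓝 y) →
      Tendsto (fun n => x (n + 1)) U (𝓝 y') → y = y') :
    IsPreconnected {y | MapClusterPt y atTop x} := by
  set A := {y | MapClusterPt y atTop x} with hA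
  rw [isPreconnected_closed_iff]
  intro t t' ht ht' hAt h1 h2
  by_contra hne
  rw [Set.not_nonempty_iff_eq_empty] at hne
  have hAc : IsCompact A := cluster_compact hK hx
  have hd : Disjoint (A ∩ t) (A ∩ t') := by
    rw [Set.disjoint_iff_inter_eq_empty, ← hne]
    ext y
    simp only [Set.mem_inter_iff]
    tauto
  obtain ⟨V, V', hV, hV', hsV, hsV', hVV⟩ :=
    SeparatedNhds.of_isCompact_isCompact (hAc.inter_right ht) (hAc.inter_right ht') hd
  have hmem : ∀ y ∈ A, y ∈ V ∪ V' := by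
    intro y hy
    rcases hAt hy with h | h
    · exact Or.inl (hsV ⟨hy, h⟩)
    · exact Or.inr (hsV' ⟨hy, h⟩)
  have hev : ∀ᶠ n in atTop, x n ∈ V ∪ V' := by
    by_contra h
    rw [not_eventually] at h
    obtain ⟨U, hU, hUp⟩ := exists_ultra h
    obtain ⟨y, _, hy⟩ := ultra_lim hK hx U
    have hyA : y ∈ A := mapClusterPt_iff_ultrafilter.2 ⟨U, hU, hy⟩
    have h3 := hy.eventually ((hV.union hV').mem_nhds (hmem y hyA))
    obtain ⟨n, hn1, hn2⟩ := (hUp.and h3).exists
    exact hn1 hn2
  have hf : ∀ (W : Set E), IsOpen W → (A ∩ W).Nonempty → ∃ᶠ n in atTop, x n ∈ W := by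
    intro W hW ⟨y, hy, hyW⟩
    exact (mapClusterPt_iff_frequently.1 hy) W (hW.mem_nhds hyW)
  have hf1 : ∃ᶠ n in atTop, x n ∈ V := by
    obtain ⟨y, hy⟩ := h1
    exact hf V hV ⟨y, hy.1, hsV hy⟩
  have hf2 : ∃ᶠ n in atTop, x n ∈ V' := by
    obtain ⟨y, hy⟩ := h2
    exact hf V' hV' ⟨y, hy.1, hsV' hy⟩
  have hdis : ∀ y, y ∈ V → y ∈ V' → False := fun y h h' => Set.disjoint_left.1 hVV h h'
  have hcross : ∃ᶠ n in atTop, x n ∈ V ∧ x (n + 1) ∈ V' := by
    by_contra h
    rw [not_frequently] at h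
    obtain ⟨N, hN⟩ := eventually_atTop.1 (h.and hev)
    obtain ⟨m, hm, hmV⟩ := frequently_atTop.1 hf1 N
    have hall : ∀ k, m ≤ k → x k ∈ V := by
      intro k hk
      induction k, hk using Nat.le_induction with
      | base => exact hmV
      | succ k hk ih =>
        have e1 := (hN k (hm.trans hk)).1
        have e2 := (hN (k + 1) (by omega)).2
        rcases e2 with e2 | e2
        · exact e2
        · exact absurd ⟨ih, e2⟩ e1
    obtain ⟨l, hl, hlV⟩ := frequently_atTop.1 hf2 m
    exact hdis _ (hall l hl) hlV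
  obtain ⟨U, hU, hUp⟩ := exists_ultra hcross
  obtain ⟨y, _, hy⟩ := ultra_lim hK hx U
  obtain ⟨y', _, hy'⟩ := ultra_lim (x := fun n => x (n + 1)) hK (fun n => hx (n + 1)) U
  have hyA : y ∈ A := mapClusterPt_iff_ultrafilter.2 ⟨U, hU, hy⟩
  have hyy := hclose U hU y y' hy hy'
  subst hyy
  rcases hmem y hyA with h | h
  · -- y in V, but x (n+1) in V'
    have h3 := hy'.eventually (hV.mem_nhds h)
    obtain ⟨n, hn1, hn2⟩ := (hUp.and h3).exists
    exact hdis _ hn2 hn1.2
  · have h3 := hy.eventually (hV'.mem_nhds h)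
    obtain ⟨n, hn1, hn2⟩ := (hUp.and h3).exists
    exact hdis _ hn1.1 hn2

end General

/-- slow variation -/
theorem gam_succ (j n : ℕ) (hn : 1 ≤ n) : |gam j (n + 1) - gam j n| ≤ 1 / n := by
  have hn0 : (0:ℝ) < n := by exact_mod_cast (by omega : 0 < n)
  set c := ((Icc 1 n).filter (fun k : ℕ => X k = j)).card with hc
  have h1 : ((Icc 1 (n + 1)).filter (fun k : ℕ => X k = j)).card =
      c + if X (n + 1) = j then 1 else 0 := by
    rw [hc, card_filter, card_filter, Finset.sum_Icc_succ_top (by omega)]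
  have hcn : c ≤ n := by
    calc c ≤ (Icc 1 n).card := card_filter_le _ _
      _ = n := by simp
  have hcn' : (c:ℝ) ≤ n := by exact_mod_cast hcn
  have hc0 : (0:ℝ) ≤ c := Nat.cast_nonneg _
  unfold gam
  rw [h1, ← hc]
  push_cast
  set δ : ℝ := if X (n + 1) = j then 1 else 0 with hδ
  have hδ0 : 0 ≤ δ := by rw [hδ]; split_ifs <;> norm_num
  have hδ1 : δ ≤ 1 := by rw [hδ]; split_ifs <;> norm_num
  have e1 : ((c:ℝ) + δ) / (n + 1) - c / n = (δ * n - c) / ((n + 1) * n) := by
    field_simp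
    ring
  rw [e1, abs_div, abs_of_pos (show (0:ℝ) < (n + 1) * n by positivity),
    div_le_div_iff₀ (by positivity) hn0]
  have h2 : |δ * n - c| ≤ n := by
    rw [abs_le]
    constructor <;> nlinarith
  nlinarith

theorem gam_close (j : ℕ) : Tendsto (fun n => gam j (n + 1) - gam j n) atTop (𝓝 0) := by
  apply squeeze_zero_norm' _ (tendsto_one_div_atTop_nhds_zero_nat (𝕜 := ℝ))
  filter_upwards [eventually_ge_atTop 1] with n hn
  rw [Real.norm_eq_abs]
  exact gam_succ j n hn

/-- The limit points of `gamma_j` fill the interval between the lower and the upper limit. -/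
theorem limit_points (j : ℕ) : {c : ℝ | MapClusterPt c atTop (gam j)} =
    Set.Icc (liminf (gam j) atTop) (limsup (gam j) atTop) := by
  have hpre : IsPreconnected {c : ℝ | MapClusterPt c atTop (gam j)} := by
    apply cluster_preconnected (K := Set.Icc 0 1) isCompact_Icc
      (fun n => ⟨gam_nonneg j n, gam_le_one j n⟩)
    intro U hU y y' h h'
    have h1 := h'.sub h
    have h2 := (gam_close j).mono_left hU
    have h3 := tendsto_nhds_unique h1 h2
    linarith
  apply Set.Subset.antisymm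
  · intro c hc
    obtain ⟨g, hg, hgc⟩ := exists_law_of_cluster hc
    rw [← hgc]
    exact law_mem hg j
  · exact hpre.Icc_subset (cluster_liminf j) (cluster_limsup j)

theorem LL_compact : IsCompact LL :=
  cluster_compact (K := Set.pi Set.univ (fun _ : ℕ => Set.Icc (0:ℝ) 1))
    (isCompact_univ_pi (fun _ => isCompact_Icc))
    (fun n j _ => ⟨gam_nonneg j n, gam_le_one j n⟩)

theorem LL_connected : IsConnected LL := by
  refine ⟨cluster_nonempty (K := Set.pi Set.univ (fun _ : ℕ => Set.Icc (0:ℝ) 1))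
    (isCompact_univ_pi (fun _ => isCompact_Icc))
    (fun n j _ => ⟨gam_nonneg j n, gam_le_one j n⟩), ?_⟩
  apply cluster_preconnected (K := Set.pi Set.univ (fun _ : ℕ => Set.Icc (0:ℝ) 1))
    (isCompact_univ_pi (fun _ => isCompact_Icc))
    (fun n j _ => ⟨gam_nonneg j n, gam_le_one j n⟩)
  intro U hU y y' h h'
  funext j
  have h1 := ((tendsto_pi_nhds.1 h') j).sub ((tendsto_pi_nhds.1 h) j)
  have h2 := (gam_close j).mono_left hU
  have h3 := tendsto_nhds_unique h1 h2
  linarith

end Pool.Agent.H21.PI
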