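import Pool.Agent.H21.PI.Tuple
import Pool.Agent.H21.PI.Mean2

/-!
# Prime tuples in short windows: counting (MP_76b9e7_nt)
-/

set_option autoImplicit false

namespace Pool.Agent.H21.PI

open Finset

/-- the integers of the window from `b` which are prime to the primorial -/
def Hb (h y b : ℕ) : Finset ℕ := (range h).filter (fun i => (b + i).Coprime (primorial y))

theorem coprime_mod (P k i : ℕ) : (k % P + i).Coprime P ↔ (k + i).Coprime P := by
  have h : k + i = k % P + i + P * (k / P) := by
    have := Nat.mod_add_div k P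
    omega
  rw [h, Nat.coprime_add_mul_left_left]

theorem choose_le_sum (n k h y r : ℕ) (hh : h = H n) (hk : 1 ≤ k) (hkn : k ≤ n) (hy : y < k) :
    (X k).choose r ≤ ∑ U ∈ powersetCard r (Hb h y (k % primorial y)),
      if ∀ u ∈ U, (k + u).Prime then 1 else 0 := by
  have h1 : X k ≤ ((range h).filter (fun i => (k + i).Prime)).card := by
    rw [hh, card_filter]
    exact X_le hk hkn
  refine (Nat.choose_le_choose r h1).trans ?_
  rw [← card_powersetCard, ← card_filter]
  apply card_le_card
  intro U hU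
  rw [mem_powersetCard] at hU
  rw [mem_filter, mem_powersetCard]
  refine ⟨⟨fun i hi => ?_, hU.2⟩, fun u hu => (mem_filter.1 (hU.1 hu)).2⟩
  have h2 := mem_filter.1 (hU.1 hi)
  unfold Hb
  rw [mem_filter]
  refine ⟨h2.1, ?_⟩
  rw [coprime_mod]
  rw [h2.2.coprime_iff_not_dvd, h2.2.dvd_primorial_iff]
  omega

/-- splitting into residue classes -/
theorem split_classes (n k0 h y r : ℕ) (hh : h = H n) (hk0 : 1 ≤ k0) (hy : y < k0) :
    ∑ k ∈ Ico k0 (n + 1), (X k).choose r ≤
      ∑ b ∈ range (primorial y), ∑ U ∈ powersetCard r (Hb h y b),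
        ((Ico (k0 / primorial y) (k0 / primorial y + (n / primorial y + 1))).filter
          (fun t => ∀ u ∈ U, (primorial y * t + (b + u)).Prime)).card := by
  classical
  set P := primorial y with hP
  have hP0 : 0 < P := primorial_pos y
  calc ∑ k ∈ Ico k0 (n + 1), (X k).choose r
      ≤ ∑ k ∈ Ico k0 (n + 1), ∑ U ∈ powersetCard r (Hb h y (k % P)),
        (if ∀ u ∈ U, (k + u).Prime then 1 else 0) := by
        apply sum_le_sum
        intro k hk
        rw [mem_Ico] at hk
        exact choose_le_sum n k h y r hh (by omega) (by omega) (by omega)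
    _ = ∑ b ∈ range P, ∑ k ∈ (Ico k0 (n + 1)).filter (fun k => k % P = b),
        ∑ U ∈ powersetCard r (Hb h y (k % P)), (if ∀ u ∈ U, (k + u).Prime then 1 else 0) := by
        rw [sum_fiberwise_of_maps_to]
        intro k _
        exact mem_range.2 (Nat.mod_lt _ hP0)
    _ ≤ _ := by
        apply sum_le_sum
        intro b hb
        have e1 : ∑ k ∈ (Ico k0 (n + 1)).filter (fun k => k % P = b),
            ∑ U ∈ powersetCard r (Hb h y (k % P)), (if ∀ u ∈ U, (k + u).Prime then 1 else 0) =
            ∑ U ∈ powersetCard r (Hb h y b), ∑ k ∈ (Ico k0 (n + 1)).filter (fun k => k % P = b),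
              (if ∀ u ∈ U, (k + u).Prime then 1 else 0) := by
          rw [sum_comm]
          apply sum_congr rfl
          intro k hk
          rw [(mem_filter.1 hk).2]
        rw [e1]
        apply sum_le_sum
        intro U _
        rw [← card_filter]
        apply card_le_card_of_injOn (fun k => k / P)
        · intro k hk
          rw [mem_coe, mem_filter, mem_filter, mem_Ico] at hk
          obtain ⟨⟨hk1, hk2⟩, hk3⟩ := hk
          simp only [coe_filter, mem_Ico, Set.mem_ofPred_eq]
          have e2 := Nat.div_le_div_right (c := P) hk1.1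
          have e3 : k / P ≤ n / P := Nat.div_le_div_right (by omega)
          refine ⟨⟨e2, Nat.lt_of_le_of_lt e3 (Nat.lt_of_lt_of_le (Nat.lt_succ_self _)
            (Nat.le_add_left _ _))⟩, fun u hu => ?_⟩
          have e4 : P * (k / P) + (b + u) = k + u := by
            have := Nat.div_add_mod k P
            omega
          rw [e4]
          exact hk3 u hu
        · intro k hk k' hk' hkk
          rw [mem_coe, mem_filter, mem_filter] at hk hk'
          simp only at hkk
          have e2 := Nat.div_add_mod k P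
          have e3 := Nat.div_add_mod k' P
          rw [← hkk] at e3
          omega

theorem X_le_H {k n : ℕ} (hk : 1 ≤ k) (hkn : k ≤ n) : X k ≤ H n := by
  refine (X_le hk hkn).trans ?_
  calc ∑ i ∈ range (⌊Real.log n⌋₊ + 2), (if (k + i).Prime then 1 else 0)
      ≤ ∑ i ∈ range (⌊Real.log n⌋₊ + 2), 1 := by
        apply sum_le_sum
        intro i _
        split_ifs <;> omega
    _ = H n := by simp [H]

/-- **The tuples in the windows**: the basic bound. -/
theorem T_bound {C : ℝ} (hC0 : 0 < C) (n k0 y z z1 r : ℕ) (hk0 : 1 ≤ k0) (hkn : k0 ≤ n + 1)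
    (hy : H n ≤ y * y) (hy2 : 2 ≤ y) (hr : r * r ≤ y) (hr1 : 1 ≤ r) (hz : 1 ≤ z) (hyk : y < k0)
    (hz1 : 1 ≤ z1) (hz1y : z1 ≤ y) (hza : z ^ r < primorial y * (k0 / primorial y))
    (hC : ∏ p ∈ Nat.primesLE y, (1 + 1 / (p : ℝ)) ≤ C * Real.log y) :
    ((∑ k ∈ Icc 1 n, (X k).choose r : ℕ) : ℝ) ≤
      k0 * (H n : ℝ) ^ r + primorial y *
        ((2 * H n / Real.log (z1 + 1) + (z1 : ℝ) ^ 6) ^ r / r.factorial *
          ((6 * C * Real.log y) ^ r * (n / primorial y + 1) / (Real.log (z + 1)) ^ r) +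
          (H n : ℝ) ^ r * (z : ℝ) ^ (6 * r)) := by
  classical
  set P := primorial y with hP
  have hP0 : 0 < P := primorial_pos y
  have h1 : ∑ k ∈ Icc 1 n, (X k).choose r =
      ∑ k ∈ Ico 1 k0, (X k).choose r + ∑ k ∈ Ico k0 (n + 1), (X k).choose r := by
    rw [sum_Ico_consecutive _ hk0 hkn]
    rfl
  have h2 : ∑ k ∈ Ico 1 k0, (X k).choose r ≤ k0 * (H n) ^ r := by
    calc ∑ k ∈ Ico 1 k0, (X k).choose r ≤ ∑ k ∈ Ico 1 k0, (H n) ^ r := by
          apply sum_le_sum
          intro k hk
          rw [mem_Ico] at hk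
          exact (Nat.choose_le_pow _ _).trans
            (Nat.pow_le_pow_left (X_le_H (by omega) (by omega)) r)
      _ = (k0 - 1) * (H n) ^ r := by rw [sum_const, Nat.card_Ico, smul_eq_mul]
      _ ≤ _ := Nat.mul_le_mul_right _ (Nat.sub_le _ _)
  have h3 := split_classes n k0 (H n) y r rfl hk0 hyk
  have hlz : 0 < Real.log (z + 1) := by
    apply Real.log_pos
    have : (1:ℝ) ≤ z := by exact_mod_cast hz
    linarith
  have hlz1 : 0 < Real.log (z1 + 1) := by
    apply Real.log_pos
    have : (1:ℝ) ≤ z1 := by exact_mod_cast hz1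
    linarith
  have hly : 0 < Real.log y := Real.log_pos (by exact_mod_cast hy2)
  set M : ℝ := (6 * C * Real.log y) ^ r * (n / P + 1) / (Real.log (z + 1)) ^ r with hM
  have hM0 : 0 ≤ M := by positivity
  set W : ℝ := 2 * H n / Real.log (z1 + 1) + (z1 : ℝ) ^ 6 with hW
  have hW0 : 0 ≤ W := by positivity
  have h4 : ∀ b, ∀ U ∈ powersetCard r (Hb (H n) y b),
      ((((Ico (k0 / P) (k0 / P + (n / P + 1))).filter
          (fun t => ∀ u ∈ U, (P * t + (b + u)).Prime)).card : ℕ) : ℝ) ≤ M + (z:ℝ) ^ (6 * r) := by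
    intro b U hU
    rw [mem_powersetCard] at hU
    have h5 := tuple_bound hC0 y (H n) b (k0 / P) (n / P + 1) z r U hy hy2 hr hr1 hz
      (hU.1.trans (filter_subset _ _)) hU.2 hza hC
    refine h5.trans ?_
    rw [hM]
    have h6 : ((n / P + 1 : ℕ) : ℝ) ≤ (n : ℝ) / P + 1 := by
      push_cast
      have : ((n / P : ℕ) : ℝ) ≤ (n : ℝ) / P := Nat.cast_div_le
      linarith
    gcongr
  have h5 : ∀ b, ((((Hb (H n) y b).card).choose r : ℕ) : ℝ) ≤ W ^ r / r.factorial := by
    intro b
    have h6 := surv b (H n) y z1 hz1 hz1y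
    have h7 : ((((Hb (H n) y b).card).choose r : ℕ) : ℝ) ≤
        (((Hb (H n) y b).card : ℕ) : ℝ) ^ r / r.factorial := Nat.choose_le_pow_div _ _
    refine h7.trans ?_
    unfold Hb
    gcongr
  have h5' : ∀ b, ((((Hb (H n) y b).card).choose r : ℕ) : ℝ) ≤ (H n : ℝ) ^ r := by
    intro b
    have h6 : (Hb (H n) y b).card ≤ H n := by
      unfold Hb
      exact (card_filter_le _ _).trans (by rw [card_range])
    exact_mod_cast (Nat.choose_le_pow _ _).trans (Nat.pow_le_pow_left h6 r)
  have h6 : ((∑ b ∈ range P, ∑ U ∈ powersetCard r (Hb (H n) y b),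
        ((Ico (k0 / P) (k0 / P + (n / P + 1))).filter
          (fun t => ∀ u ∈ U, (P * t + (b + u)).Prime)).card : ℕ) : ℝ) ≤
      P * (W ^ r / r.factorial * M + (H n : ℝ) ^ r * (z:ℝ) ^ (6 * r)) := by
    push_cast
    calc ∑ b ∈ range P, ∑ U ∈ powersetCard r (Hb (H n) y b),
        ((((Ico (k0 / P) (k0 / P + (n / P + 1))).filter
          (fun t => ∀ u ∈ U, (P * t + (b + u)).Prime)).card : ℕ) : ℝ)
        ≤ ∑ b ∈ range P, (W ^ r / r.factorial * M + (H n : ℝ) ^ r * (z:ℝ) ^ (6 * r)) := by
          apply sum_le_sum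
          intro b _
          calc ∑ U ∈ powersetCard r (Hb (H n) y b),
              ((((Ico (k0 / P) (k0 / P + (n / P + 1))).filter
                (fun t => ∀ u ∈ U, (P * t + (b + u)).Prime)).card : ℕ) : ℝ)
              ≤ ∑ U ∈ powersetCard r (Hb (H n) y b), (M + (z:ℝ) ^ (6 * r)) :=
                sum_le_sum (h4 b)
            _ = (((Hb (H n) y b).card.choose r : ℕ) : ℝ) * M +
                (((Hb (H n) y b).card.choose r : ℕ) : ℝ) * (z:ℝ) ^ (6 * r) := by
                rw [sum_const, card_powersetCard, nsmul_eq_mul]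
                ring
            _ ≤ _ := by
                have e1 := h5 b
                have e2 := h5' b
                gcongr
      _ = _ := by rw [sum_const, card_range, nsmul_eq_mul]
  have h7 : ((∑ k ∈ Icc 1 n, (X k).choose r : ℕ) : ℝ) ≤ ((k0 * (H n) ^ r : ℕ) : ℝ) +
      ((∑ b ∈ range P, ∑ U ∈ powersetCard r (Hb (H n) y b),
        ((Ico (k0 / P) (k0 / P + (n / P + 1))).filter
          (fun t => ∀ u ∈ U, (P * t + (b + u)).Prime)).card : ℕ) : ℝ) := by
    rw [h1]
    exact_mod_cast Nat.add_le_add h2 h3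
  refine h7.trans (add_le_add (le_of_eq ?_) h6)
  push_cast
  rfl

end Pool.Agent.H21.PI
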