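import Mathlib

/-!
# Factorial moments and coefficients: a graded moment problem (MP_76b9e7_nt)
-/

set_option autoImplicit false

namespace Pool.Agent.H21.PI

open Finset Filter Topology

/-- the double series -/
theorem double_summable {e E : ℕ → ℝ} {A x : ℝ} (he : ∀ j, 0 ≤ e j)
    (hE : ∀ r, HasSum (fun j : ℕ => (j.choose r : ℝ) * e j) (E r)) (hEA : ∀ r, E r ≤ 2 * A ^ r)
    (hA : 0 < A) (hx : 0 ≤ x) (hxA : x * A ≤ 1 / 2) :
    Summable (fun p : ℕ × ℕ => (p.2.choose p.1 : ℝ) * x ^ p.1 * e p.2) := by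
  rw [summable_prod_of_nonneg (fun p => by have := he p.2; positivity)]
  have h1 : ∀ r, HasSum (fun j : ℕ => (j.choose r : ℝ) * x ^ r * e j) (x ^ r * E r) := by
    intro r
    have := (hE r).mul_left (x ^ r)
    refine this.congr_fun (fun j => ?_) |> fun h => h
    ring
  refine ⟨fun r => (h1 r).summable, ?_⟩
  have h2 : ∀ r, ∑' j : ℕ, (j.choose r : ℝ) * x ^ r * e j = x ^ r * E r := fun r => (h1 r).tsum_eq
  simp only [h2]
  have h3 : Summable (fun r : ℕ => 2 * (1 / 2 : ℝ) ^ r) :=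
    (summable_geometric_of_lt_one (by norm_num) (by norm_num)).mul_left 2
  refine Summable.of_nonneg_of_le (fun r => ?_) (fun r => ?_) h3
  · have : 0 ≤ E r := (hE r).nonneg (fun j => mul_nonneg (Nat.cast_nonneg _) (he j))
    positivity
  · calc x ^ r * E r ≤ x ^ r * (2 * A ^ r) := by
          have := hEA r
          gcongr
      _ = 2 * (x * A) ^ r := by rw [mul_pow]; ring
      _ ≤ 2 * (1 / 2 : ℝ) ^ r := by gcongr

theorem binom_sum (δ : ℝ) (j : ℕ) : HasSum (fun r : ℕ => (j.choose r : ℝ) * δ ^ r) ((1 + δ) ^ j) := by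
  have h1 : (1 + δ) ^ j = ∑ r ∈ range (j + 1), (j.choose r : ℝ) * δ ^ r := by
    rw [add_comm, add_pow]
    apply sum_congr rfl
    intro r _
    rw [one_pow]
    ring
  rw [h1]
  apply hasSum_sum_of_ne_finset_zero
  intro r hr
  rw [mem_range] at hr
  rw [Nat.choose_eq_zero_of_lt (by omega)]
  simp

/-- the power series with the weights `e` -/
theorem single_summable {e E : ℕ → ℝ} {A x : ℝ} (he : ∀ j, 0 ≤ e j)
    (hE : ∀ r, HasSum (fun j : ℕ => (j.choose r : ℝ) * e j) (E r)) (hEA : ∀ r, E r ≤ 2 * A ^ r)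
    (hA : 0 < A) (hx : 0 ≤ x) (hxA : x * A ≤ 1 / 2) :
    Summable (fun j : ℕ => e j * (1 + x) ^ j) := by
  have h1 := double_summable he hE hEA hA hx hxA
  have h2 := (Equiv.prodComm ℕ ℕ).summable_iff.2 h1
  have h3 : Summable (fun j : ℕ => ∑' r : ℕ, (j.choose r : ℝ) * x ^ r * e j) := by
    have := (summable_prod_of_nonneg (f := (fun p : ℕ × ℕ => (p.2.choose p.1 : ℝ) * x ^ p.1 * e p.2) ∘
      (Equiv.prodComm ℕ ℕ)) (fun p => by
        have := he p.1
        simp only [Function.comp_apply, Equiv.prodComm_apply, Prod.fst_swap, Prod.snd_swap]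
        positivity)).1 h2
    exact this.2
  refine h3.congr (fun j => ?_)
  rw [tsum_mul_right, (binom_sum x j).tsum_eq]
  ring

/-- the expansion at one -/
theorem expand {d e E : ℕ → ℝ} {A δ : ℝ} (hde : ∀ j, |d j| ≤ e j)
    (hE : ∀ r, HasSum (fun j : ℕ => (j.choose r : ℝ) * e j) (E r)) (hEA : ∀ r, E r ≤ 2 * A ^ r)
    (hA : 0 < A) (hδA : |δ| * A ≤ 1 / 2) :
    HasSum (fun r : ℕ => δ ^ r * ∑' j : ℕ, (j.choose r : ℝ) * d j) (∑' j, d j * (1 + δ) ^ j) := by
  have he : ∀ j, 0 ≤ e j := fun j => (abs_nonneg _).trans (hde j)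
  have h1 := double_summable he hE hEA hA (abs_nonneg δ) hδA
  have h2 : Summable (fun p : ℕ × ℕ => (p.2.choose p.1 : ℝ) * δ ^ p.1 * d p.2) := by
    refine Summable.of_norm_bounded h1 (fun p => ?_)
    rw [Real.norm_eq_abs, abs_mul, abs_mul, abs_pow, Nat.abs_cast]
    have := hde p.2
    gcongr
  have h3 := h2.hasSum.prod_fiberwise (fun r => (h2.prod_factor r).hasSum)
  have h4 : ∑' p : ℕ × ℕ, (p.2.choose p.1 : ℝ) * δ ^ p.1 * d p.2 = ∑' j, d j * (1 + δ) ^ j := by
    have h5 : Summable (fun p : ℕ × ℕ => (p.1.choose p.2 : ℝ) * δ ^ p.2 * d p.1) :=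
      (Equiv.prodComm ℕ ℕ).summable_iff.2 h2
    have h6 : ∑' p : ℕ × ℕ, (p.2.choose p.1 : ℝ) * δ ^ p.1 * d p.2 =
        ∑' p : ℕ × ℕ, (p.1.choose p.2 : ℝ) * δ ^ p.2 * d p.1 :=
      ((Equiv.prodComm ℕ ℕ).tsum_eq
        (fun p : ℕ × ℕ => (p.2.choose p.1 : ℝ) * δ ^ p.1 * d p.2)).symm
    rw [h6, Summable.tsum_prod h5]
    apply tsum_congr
    intro j
    simp only
    rw [tsum_mul_right, (binom_sum δ j).tsum_eq]
    ring
  rw [← h4]
  refine h3.congr_fun (fun r => ?_) |> fun h => h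
  simp only
  rw [← tsum_mul_left]
  apply tsum_congr
  intro j
  ring

/-- the polynomial -/
theorem poly_series (Q : Polynomial ℝ) :
    HasFPowerSeriesAt (fun x => Q.eval x) (FormalMultilinearSeries.ofScalars ℝ Q.coeff) 0 := by
  have hr : (1 : ENNReal) ≤ (FormalMultilinearSeries.ofScalars ℝ Q.coeff).radius := by
    have := FormalMultilinearSeries.le_radius_of_summable (r := 1)
      (FormalMultilinearSeries.ofScalars ℝ Q.coeff) (by
        apply summable_of_ne_finset_zero (s := range (Q.natDegree + 1))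
        intro n hn
        rw [mem_range] at hn
        rw [FormalMultilinearSeries.ofScalars_norm, Polynomial.coeff_eq_zero_of_natDegree_lt
          (by omega)]
        simp)
    simpa using this
  have h1 := (FormalMultilinearSeries.ofScalars ℝ Q.coeff).hasFPowerSeriesOnBall
    (lt_of_lt_of_le one_pos hr)
  have h2 : (FormalMultilinearSeries.ofScalars ℝ Q.coeff).sum = fun x => Q.eval x := by
    funext x
    have h3 := FormalMultilinearSeries.ofScalars_sum_eq Q.coeff x
    unfold FormalMultilinearSeries.ofScalarsSum at h3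
    rw [h3, tsum_eq_sum (s := range (Q.natDegree + 1)), Polynomial.eval_eq_sum_range]
    · rfl
    · intro n hn
      rw [mem_range] at hn
      rw [Polynomial.coeff_eq_zero_of_natDegree_lt (by omega)]
      simp
  rw [← h2]
  exact h1.hasFPowerSeriesAt

/-- **Factorial moments determine coefficients, graded form.** -/
theorem coeff_zero {d e E : ℕ → ℝ} {A : ℝ} (hde : ∀ j, |d j| ≤ e j)
    (hE : ∀ r, HasSum (fun j : ℕ => (j.choose r : ℝ) * e j) (E r)) (hEA : ∀ r, E r ≤ 2 * A ^ r)
    (hA : 0 < A) (m : ℕ) (h : ∀ r, m ≤ r → ∑' j : ℕ, (j.choose r : ℝ) * d j = 0) :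
    ∀ j, m ≤ j → d j = 0 := by
  classical
  have he : ∀ j, 0 ≤ e j := fun j => (abs_nonneg _).trans (hde j)
  set ρ : ℝ := 1 / (2 * A) with hρ
  have hρ0 : 0 < ρ := by positivity
  have hρA : ρ * A ≤ 1 / 2 := by
    rw [hρ]
    field_simp
    norm_num
  set c : ℕ → ℝ := fun r => ∑' j : ℕ, (j.choose r : ℝ) * d j with hc
  set Q : Polynomial ℝ := ∑ r ∈ range m, Polynomial.C (c r) * (Polynomial.X - Polynomial.C 1) ^ r
    with hQ
  have hQdeg : ∀ j, m ≤ j → Q.coeff j = 0 := by
    intro j hj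
    rw [hQ, Polynomial.finsetSum_coeff]
    apply sum_eq_zero
    intro r hr
    rw [mem_range] at hr
    rw [Polynomial.coeff_C_mul, Polynomial.coeff_eq_zero_of_natDegree_lt, mul_zero]
    rw [Polynomial.natDegree_pow, Polynomial.natDegree_X_sub_C]
    omega
  set p := FormalMultilinearSeries.ofScalars ℝ d with hp
  have hrad : ENNReal.ofReal (1 + ρ) ≤ p.radius := by
    have h1 := single_summable he hE hEA hA hρ0.le hρA
    have h2 := FormalMultilinearSeries.le_radius_of_summable (r := Real.toNNReal (1 + ρ)) p (by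
      rw [Real.coe_toNNReal _ (by linarith)]
      refine Summable.of_nonneg_of_le (fun n => by positivity) (fun n => ?_) h1
      rw [hp, FormalMultilinearSeries.ofScalars_norm, Real.norm_eq_abs]
      have := hde n
      gcongr)
    exact h2
  have hrad0 : 0 < p.radius := lt_of_lt_of_le (ENNReal.ofReal_pos.2 (by linarith)) hrad
  have hball := p.hasFPowerSeriesOnBall hrad0
  have hps : ∀ x, p.sum x = ∑' j, d j * x ^ j := by
    intro x
    exact FormalMultilinearSeries.ofScalars_sum_eq d x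
  have han : AnalyticOnNhd ℝ p.sum (Metric.ball 0 (1 + ρ)) := by
    refine hball.analyticOnNhd.mono ?_
    rw [← Metric.eball_ofReal]
    exact Metric.eball_subset_eball hrad
  have hanQ : AnalyticOnNhd ℝ (fun x => Q.eval x) (Metric.ball 0 (1 + ρ)) :=
    fun x _ => AnalyticAt.aeval_polynomial analyticAt_id Q
  have hnear : p.sum =ᶠ[𝓝 1] (fun x => Q.eval x) := by
    have : Metric.ball (1:ℝ) ρ ∈ 𝓝 (1:ℝ) := Metric.ball_mem_nhds _ hρ0
    filter_upwards [this] with x hx
    rw [Metric.mem_ball, Real.dist_eq] at hx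
    have h1 := expand (δ := x - 1) hde hE hEA hA
      (by
        calc |x - 1| * A ≤ ρ * A := by gcongr
          _ ≤ 1 / 2 := hρA)
    have h2 : HasSum (fun r : ℕ => (x - 1) ^ r * ∑' j : ℕ, (j.choose r : ℝ) * d j)
        (∑ r ∈ range m, (x - 1) ^ r * ∑' j : ℕ, (j.choose r : ℝ) * d j) := by
      apply hasSum_sum_of_ne_finset_zero
      intro r hr
      rw [mem_range] at hr
      rw [h r (by omega), mul_zero]
    have h3 := h1.unique h2
    rw [hps, hQ, Polynomial.eval_finsetSum]
    have h4 : (1:ℝ) + (x - 1) = x := by ring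
    rw [h4] at h3
    rw [h3]
    apply sum_congr rfl
    intro r _
    simp [hc, mul_comm]
  have heq := han.eqOn_of_preconnected_of_eventuallyEq hanQ
    (convex_ball (0:ℝ) (1 + ρ)).isPreconnected
    (show (1:ℝ) ∈ Metric.ball (0:ℝ) (1 + ρ) by
      rw [Metric.mem_ball, Real.dist_eq]
      simp only [sub_zero, abs_one]
      linarith) hnear
  have hzero : p.sum =ᶠ[𝓝 0] (fun x => Q.eval x) := by
    have : Metric.ball (0:ℝ) (1 + ρ) ∈ 𝓝 (0:ℝ) := Metric.ball_mem_nhds _ (by linarith)
    filter_upwards [this] with x hx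
    exact heq hx
  have hser := (hball.hasFPowerSeriesAt).eq_formalMultilinearSeries_of_eventually
    (poly_series Q) hzero
  have hdc : d = Q.coeff := FormalMultilinearSeries.ofScalars_series_injective ℝ ℝ hser
  intro j hj
  rw [hdc]
  exact hQdeg j hj

end Pool.Agent.H21.PI
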