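import Pool.Agent.H21.PI.Params

/-!
# Prime tuples in short windows: all factorial moments are bounded by a power (MP_76b9e7_nt)
-/

set_option autoImplicit false

namespace Pool.Agent.H21.PI

open Finset Filter Topology

theorem pow_div_fac (r : ℕ) : (r:ℝ) ^ r / r.factorial ≤ 3 ^ r := by
  have f1 := Real.pow_div_factorial_le_exp (x := (r:ℝ)) (Nat.cast_nonneg r) r
  have f2 : Real.exp (r:ℝ) = (Real.exp 1) ^ r := by
    rw [← Real.exp_nat_mul, mul_one]
  have f3 : Real.exp 1 ≤ 3 := by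
    have := Real.exp_one_lt_d9
    linarith
  rw [f2] at f1
  exact f1.trans (by gcongr)

theorem main_term {C n P Y W Z : ℝ} (r : ℕ) (hP : 0 < P) (hW : 0 ≤ W) (hY : 0 < Y)
    (hZ : 0 < Z) (hC : 0 < C) (hPn : P ≤ n) (h : 6 * C * (W * Y) / Z ≤ 3744 * C * r) :
    P * (W ^ r / r.factorial * ((6 * C * Y) ^ r * (n / P + 1) / Z ^ r)) ≤
      2 * n * (11232 * C) ^ r := by
  have hfac : (0:ℝ) < r.factorial := by exact_mod_cast Nat.factorial_pos r
  have e0 : (6 * C * (W * Y) / Z) ^ r = W ^ r * (6 * C * Y) ^ r / Z ^ r := by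
    rw [← mul_pow, ← div_pow]
    congr 1
    ring
  have e1 : P * (W ^ r / r.factorial * ((6 * C * Y) ^ r * (n / P + 1) / Z ^ r)) =
      (n + P) * ((6 * C * (W * Y) / Z) ^ r / r.factorial) := by
    rw [e0]
    field_simp
  rw [e1]
  have e3 : 0 ≤ 6 * C * (W * Y) / Z := by positivity
  have e4 := pow_div_fac r
  have hn0 : 0 < n := lt_of_lt_of_le hP hPn
  calc (n + P) * ((6 * C * (W * Y) / Z) ^ r / r.factorial)
      ≤ 2 * n * ((3744 * C * r) ^ r / r.factorial) := by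
        gcongr
        linarith
    _ = 2 * n * ((3744 * C) ^ r * ((r:ℝ) ^ r / r.factorial)) := by
        rw [mul_pow]
        ring
    _ ≤ 2 * n * ((3744 * C) ^ r * 3 ^ r) := by gcongr
    _ = 2 * n * (11232 * C) ^ r := by
        rw [← mul_pow]
        ring_nf

theorem pow_fin {A0 : ℝ} (h : 0 < A0) {r : ℕ} (hr : 1 ≤ r) : 2 * A0 ^ r + 2 ≤ (2 * A0 + 2) ^ r := by
  have f1 : A0 ^ r + 1 ^ r ≤ (A0 + 1) ^ r := pow_add_pow_le h.le zero_le_one (by omega : r ≠ 0)
  have f2 : (2:ℝ) ^ 1 ≤ 2 ^ r := pow_le_pow_right₀ (by norm_num) hr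
  have f3 : (2 * A0 + 2) ^ r = 2 ^ r * (A0 + 1) ^ r := by
    rw [← mul_pow]
    ring
  rw [f3]
  rw [one_pow] at f1
  rw [pow_one] at f2
  have f4 : 0 ≤ A0 ^ r := by positivity
  calc 2 * A0 ^ r + 2 = 2 * (A0 ^ r + 1) := by ring
    _ ≤ 2 ^ r * (A0 + 1) ^ r := by gcongr

/-- **All factorial moments.** -/
theorem moments : ∃ A : ℝ, 1 ≤ A ∧ ∀ r : ℕ, ∀ᶠ n : ℕ in atTop,
    ((∑ k ∈ Icc 1 n, (X k).choose r : ℕ) : ℝ) ≤ A ^ r * n := by
  obtain ⟨C, hC0, hC⟩ := mertens
  have hA00 : 0 < 11232 * C := by positivity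
  refine ⟨2 * (11232 * C) + 2, by linarith, fun r => ?_⟩
  rcases Nat.eq_zero_or_pos r with rfl | hr1
  · filter_upwards with n
    simp
  filter_upwards [exists_par r hr1] with n hn
  obtain ⟨k0, y, z, z1, hp⟩ := hn
  have hn0 : (0:ℝ) < n := by exact_mod_cast hp.n1
  have hr0 : (0:ℝ) < r := by exact_mod_cast hr1
  have hL0 : 0 < Real.log n := by linarith [hp.L2]
  have hB := T_bound hC0 n k0 y z z1 r hp.hk0 hp.hk0n hp.hyy hp.hy2 hp.hrr hr1 hp.hz1 hp.hyk
    hp.hz11 hp.hz1y hp.hza (hC y hp.hy2)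
  refine hB.trans ?_
  have hlz0 : 0 < Real.log (z + 1) := lt_of_lt_of_le (by positivity) hp.hlz
  have hly : 0 < Real.log y := Real.log_pos (by exact_mod_cast hp.hy2)
  have hlh : Real.log y ≤ Real.log (H n) :=
    Real.log_le_log (by exact_mod_cast (by have := hp.hy2; omega : 0 < y))
      (by exact_mod_cast hp.hyh)
  have hlh0 : 0 < Real.log (H n) := lt_of_lt_of_le hly hlh
  have hlz10 : 0 < Real.log (z1 + 1) := lt_of_lt_of_le (by positivity) hp.hlz1
  have hh0 : (0:ℝ) < H n := by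
    have := H_ge n
    linarith
  have hh2 : (H n : ℝ) ≤ 2 * Real.log n := by
    have := H_le n hp.n1
    linarith [hp.L2]
  set W : ℝ := 2 * H n / Real.log (z1 + 1) + (z1 : ℝ) ^ 6 with hW
  have hW0 : 0 ≤ W := by positivity
  have hWy : W * Real.log y ≤ 26 * H n := by
    have e1 : W ≤ 24 * H n / Real.log (H n) + Real.sqrt (H n) := by
      rw [hW]
      apply add_le_add _ hp.hz16
      rw [div_le_div_iff₀ hlz10 hlh0]
      nlinarith [hp.hlz1]
    have e2 : Real.sqrt (H n) * Real.log (H n) ≤ 2 * H n := by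
      have e3 := log_le_two_sqrt hh0
      have e4 : Real.sqrt (H n) * Real.sqrt (H n) = H n := Real.mul_self_sqrt hh0.le
      nlinarith [Real.sqrt_nonneg (H n:ℝ)]
    calc W * Real.log y ≤ (24 * H n / Real.log (H n) + Real.sqrt (H n)) * Real.log (H n) := by
          gcongr
      _ = 24 * H n + Real.sqrt (H n) * Real.log (H n) := by
        field_simp
      _ ≤ 26 * H n := by linarith
  have hlev : 6 * C * (W * Real.log y) / Real.log (z + 1) ≤ 3744 * C * r := by
    rw [div_le_iff₀ hlz0]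
    have f1 : 3744 * C * r * (Real.log n / (12 * r)) ≤ 3744 * C * r * Real.log (z + 1) :=
      mul_le_mul_of_nonneg_left hp.hlz (by positivity)
    have f2 : 3744 * C * r * (Real.log n / (12 * r)) = 312 * C * Real.log n := by
      field_simp
      norm_num
    have f3 : 6 * C * (W * Real.log y) ≤ 6 * C * (26 * H n) := by gcongr
    have f4 : 6 * C * (26 * H n) ≤ 6 * C * (26 * (2 * Real.log n)) := by gcongr
    linarith
  have hm := main_term (n := (n:ℝ)) (P := (primorial y : ℝ)) r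
    (by exact_mod_cast primorial_pos y) hW0 hly hlz0 hC0 hp.hPn hlev
  have hfin := pow_fin hA00 hr1
  have h1 := hp.herr1
  have h2 := hp.herr2
  have hfin2 : (2 * (11232 * C) ^ r + 2) * n ≤ (2 * (11232 * C) + 2) ^ r * n :=
    mul_le_mul_of_nonneg_right hfin hn0.le
  rw [mul_add]
  linarith

end Pool.Agent.H21.PI
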