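import Pool.Agent.H21.PI.Conn
import Pool.Agent.H21.PI.Ident
import Pool.Agent.H21.PI.Moments

/-!
# Prime counts in intervals of logarithmic length: factorial moments of the limit laws
(MP_76b9e7_nt)
-/

set_option autoImplicit false

open Finset Filter Topology

namespace Pool.Agent.H21.PI

/-- The average over `k <= n` of the number of sets of `r` primes in the interval. -/
noncomputable def tup (r n : ℕ) : ℝ := ((∑ k ∈ Icc 1 n, (X k).choose r : ℕ) : ℝ) / n

/-- convergence of the averages of `r`-tuples -/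
def ConvT (r : ℕ) : Prop := ∃ L : ℝ, Tendsto (tup r) atTop (𝓝 L)

/-- The factorial moment of a law. -/
noncomputable def mom (g : ℕ → ℝ) (r : ℕ) : ℝ := ∑' j : ℕ, (j.choose r : ℝ) * g j

theorem tup_nonneg (r n : ℕ) : 0 ≤ tup r n := by
  unfold tup
  positivity

theorem tup_bound : ∃ A : ℝ, 1 ≤ A ∧ ∀ r : ℕ, ∀ᶠ n : ℕ in atTop, tup r n ≤ A ^ r := by
  obtain ⟨A, hA, h⟩ := moments
  refine ⟨A, hA, fun r => ?_⟩
  filter_upwards [h r, eventually_ge_atTop 1] with n hn hn1
  have hn0 : (0:ℝ) < n := by exact_mod_cast (by omega : 0 < n)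
  unfold tup
  rw [div_le_iff₀ hn0]
  exact hn

theorem trunc (r n M : ℕ) (hn : 1 ≤ n) (hM : r < M) :
    tup r n - (r + 1) / ((M:ℝ) - r) * tup (r + 1) n ≤ ∑ j ∈ range M, (j.choose r : ℝ) * gam j n ∧
      ∑ j ∈ range M, (j.choose r : ℝ) * gam j n ≤ tup r n := by
  have hn0 : (0:ℝ) < n := by exact_mod_cast (by omega : 0 < n)
  have hMr : (0:ℝ) < (M:ℝ) - r := by
    have : (r:ℝ) < M := by exact_mod_cast hM
    linarith
  rw [avg_eq (fun j => (j.choose r : ℝ)) M n]
  unfold tup
  push_cast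
  constructor
  · rw [le_div_iff₀ hn0, sub_mul, div_mul_cancel₀ _ hn0.ne', mul_assoc, div_mul_cancel₀ _ hn0.ne',
      mul_sum, ← sum_sub_distrib]
    apply sum_le_sum
    intro k _
    split_ifs with h
    · have : 0 ≤ ((r:ℝ) + 1) / ((M:ℝ) - r) * ((X k).choose (r + 1) : ℝ) := by positivity
      linarith
    · have h1 : ((X k).choose (r + 1) : ℝ) * (r + 1) = ((X k).choose r : ℝ) * ((X k : ℝ) - r) := by
        have := Nat.choose_succ_right_eq (X k) r
        have h2 : (((X k).choose (r + 1) * (r + 1) : ℕ) : ℝ) =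
            (((X k).choose r * (X k - r) : ℕ) : ℝ) := by rw [this]
        push_cast at h2
        rw [h2, Nat.cast_sub (by omega)]
      have h3 : ((r:ℝ) + 1) / ((M:ℝ) - r) * ((X k).choose (r + 1) : ℝ) =
          ((X k).choose r : ℝ) * (((X k : ℝ) - r) / ((M:ℝ) - r)) := by
        rw [div_mul_eq_mul_div, mul_comm ((r:ℝ) + 1), h1]
        ring
      rw [h3]
      have h4 : (1:ℝ) ≤ ((X k : ℝ) - r) / ((M:ℝ) - r) := by
        rw [le_div_iff₀ hMr, one_mul]
        have : (M:ℝ) ≤ X k := by exact_mod_cast (by omega : M ≤ X k)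
        linarith
      have h5 : (0:ℝ) ≤ ((X k).choose r : ℝ) := Nat.cast_nonneg _
      nlinarith
  · rw [div_le_div_iff_of_pos_right hn0]
    apply sum_le_sum
    intro k _
    split_ifs
    · exact le_rfl
    · exact Nat.cast_nonneg _

/-- along an ultrafilter -/
theorem law_tup {A : ℝ} (hA : ∀ r : ℕ, ∀ᶠ n : ℕ in atTop, tup r n ≤ A ^ r) {U : Ultrafilter ℕ}
    (hU : (U : Filter ℕ) ≤ atTop) {g : ℕ → ℝ} (hg : ∀ j, Tendsto (gam j) U (𝓝 (g j))) (r : ℕ) :
    Tendsto (tup r) U (𝓝 (mom g r)) ∧ HasSum (fun j : ℕ => (j.choose r : ℝ) * g j) (mom g r) ∧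
      mom g r ≤ A ^ r := by
  have hlim : ∀ r, ∃ F : ℝ, Tendsto (tup r) U (𝓝 F) ∧ F ≤ A ^ r := by
    intro r
    have h1 : (U.map (tup r) : Filter ℝ) ≤ 𝓟 (Set.Icc 0 (A ^ r)) := by
      rw [le_principal_iff]
      have h2 : ∀ᶠ n in (U : Filter ℕ), tup r n ≤ A ^ r := hU (hA r)
      exact h2.mono (fun n hn => ⟨tup_nonneg r n, hn⟩)
    obtain ⟨y, hy, hy'⟩ := isCompact_Icc.ultrafilter_le_nhds (U.map (tup r)) h1
    exact ⟨y, hy', hy.2⟩
  obtain ⟨F, hF, hFA⟩ := hlim r
  obtain ⟨F', hF', _⟩ := hlim (r + 1)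
  have hg0 : ∀ j, 0 ≤ g j := fun j => ge_of_tendsto' (hg j) (fun n => gam_nonneg j n)
  have hU1 : ∀ᶠ n in (U : Filter ℕ), 1 ≤ n := hU (eventually_ge_atTop 1)
  have hs : HasSum (fun j : ℕ => (j.choose r : ℝ) * g j) F := by
    rw [hasSum_iff_tendsto_nat_of_nonneg (fun j => mul_nonneg (Nat.cast_nonneg _) (hg0 j))]
    have hl : Tendsto (fun M : ℕ => F - (r + 1) / ((M:ℝ) - r) * F') atTop (𝓝 F) := by
      have e1 : Tendsto (fun M : ℕ => (M:ℝ) - r) atTop atTop :=
        tendsto_atTop_add_const_right _ (-(r:ℝ)) (tendsto_natCast_atTop_atTop (R := ℝ))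
      have e2 : Tendsto (fun M : ℕ => ((r:ℝ) + 1) / ((M:ℝ) - r)) atTop (𝓝 0) :=
        e1.const_div_atTop _
      have e3 := (e2.mul_const F').const_sub F
      rw [zero_mul, sub_zero] at e3
      exact e3
    refine tendsto_of_tendsto_of_tendsto_of_le_of_le' hl tendsto_const_nhds ?_ ?_
    · filter_upwards [eventually_gt_atTop r] with M hM
      have h1 : Tendsto (fun n => ∑ j ∈ range M, (j.choose r : ℝ) * gam j n) U
          (𝓝 (∑ j ∈ range M, (j.choose r : ℝ) * g j)) :=
        tendsto_finsetSum _ (fun j _ => (hg j).const_mul _)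
      exact le_of_tendsto_of_tendsto (hF.sub (hF'.const_mul _)) h1
        (hU1.mono (fun n hn => (trunc r n M hn hM).1))
    · filter_upwards [eventually_gt_atTop r] with M hM
      have h1 : Tendsto (fun n => ∑ j ∈ range M, (j.choose r : ℝ) * gam j n) U
          (𝓝 (∑ j ∈ range M, (j.choose r : ℝ) * g j)) :=
        tendsto_finsetSum _ (fun j _ => (hg j).const_mul _)
      exact le_of_tendsto_of_tendsto h1 hF
        (hU1.mono (fun n hn => (trunc r n M hn hM).2))
  have hm : mom g r = F := hs.tsum_eq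
  rw [hm]
  exact ⟨hF, hs, hFA⟩

theorem law_mom : ∃ A : ℝ, 1 ≤ A ∧ ∀ g ∈ LL, ∀ r : ℕ,
    HasSum (fun j : ℕ => (j.choose r : ℝ) * g j) (mom g r) ∧ mom g r ≤ A ^ r := by
  obtain ⟨A, hA1, hA⟩ := tup_bound
  refine ⟨A, hA1, fun g hg r => ?_⟩
  obtain ⟨U, hU, hj⟩ := LL_ultra hg
  exact (law_tup hA hU hj r).2

/-- **Graded comparison of two limit laws.** -/
theorem graded_laws {g g' : ℕ → ℝ} (hg : g ∈ LL) (hg' : g' ∈ LL) (m : ℕ) :
    (∀ j, m ≤ j → g j = g' j) ↔ (∀ r, m ≤ r → mom g r = mom g' r) := by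
  obtain ⟨A, hA1, hA⟩ := law_mom
  constructor
  · intro h r hr
    unfold mom
    apply tsum_congr
    intro j
    by_cases hj : r ≤ j
    · rw [h j (hr.trans hj)]
    · rw [Nat.choose_eq_zero_of_lt (by omega)]
      simp
  · intro h j hj
    have h1 := coeff_zero (d := fun j => g j - g' j) (e := fun j => g j + g' j)
      (E := fun r => mom g r + mom g' r) (A := A) (fun j => by
        have e1 := law_nonneg hg j
        have e2 := law_nonneg hg' j
        rw [abs_le]
        constructor <;> linarith) (fun r => by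
        have := ((hA g hg r).1).add ((hA g' hg' r).1)
        refine this.congr_fun (fun j => ?_) |> fun h => h
        ring) (fun r => by
        have e1 := (hA g hg r).2
        have e2 := (hA g' hg' r).2
        linarith) (by linarith) m (fun r hr => by
        have := ((hA g hg r).1).sub ((hA g' hg' r).1)
        rw [h r hr, sub_self] at this
        have e3 : ∑' j : ℕ, (j.choose r : ℝ) * (g j - g' j) =
            ∑' j : ℕ, ((j.choose r : ℝ) * g j - (j.choose r : ℝ) * g' j) :=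
          tsum_congr (fun j => by ring)
        rw [e3]
        exact this.tsum_eq) j hj
    linarith

/-- binomial sums and power sums -/
theorem pow_of_choose (J : Finset ℕ) (d : ℕ → ℝ) (s : ℕ)
    (h : ∀ r, r < s → ∑ j ∈ J, (j.choose r : ℝ) * d j = 0) :
    ∀ i, i < s → ∑ j ∈ J, (j : ℝ) ^ i * d j = 0 := by
  intro i hi
  have h1 : ∀ j : ℕ, (j:ℝ) ^ i = ∑ k ∈ range s, (j.choose k : ℝ) *
      (fwdDiff (1:ℝ))^[k] (fun r : ℝ => r ^ i) 0 := by
    intro j
    have h2 := shift_eq_sum_fwdDiff_iter (h := (1:ℝ)) (fun r : ℝ => r ^ i) j 0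
    have h3 : (j:ℝ) ^ i = ∑ k ∈ range (j + 1), (j.choose k : ℝ) *
        (fwdDiff (1:ℝ))^[k] (fun r : ℝ => r ^ i) 0 := by
      simpa [nsmul_eq_mul] using h2
    rw [h3]
    have hz : ∀ k, i < k → (fwdDiff (1:ℝ))^[k] (fun r : ℝ => r ^ i) 0 = 0 := by
      intro k hk
      have := fwdDiff_iter_pow_eq_zero_of_lt (R := ℝ) hk
      rw [this]
      rfl
    have e1 : ∑ k ∈ range (j + 1), (j.choose k : ℝ) *
        (fwdDiff (1:ℝ))^[k] (fun r : ℝ => r ^ i) 0 =
        ∑ k ∈ range (j + 1 + s), (j.choose k : ℝ) *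
        (fwdDiff (1:ℝ))^[k] (fun r : ℝ => r ^ i) 0 := by
      apply sum_subset
      · intro k hk
        rw [mem_range] at hk ⊢
        omega
      · intro k _ hk
        rw [mem_range] at hk
        rw [Nat.choose_eq_zero_of_lt (by omega)]
        simp
    have e2 : ∑ k ∈ range s, (j.choose k : ℝ) *
        (fwdDiff (1:ℝ))^[k] (fun r : ℝ => r ^ i) 0 =
        ∑ k ∈ range (j + 1 + s), (j.choose k : ℝ) *
        (fwdDiff (1:ℝ))^[k] (fun r : ℝ => r ^ i) 0 := by
      apply sum_subset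
      · intro k hk
        rw [mem_range] at hk ⊢
        omega
      · intro k _ hk
        rw [mem_range] at hk
        rw [hz k (by omega), mul_zero]
    rw [e1, e2]
  calc ∑ j ∈ J, (j : ℝ) ^ i * d j
      = ∑ j ∈ J, ∑ k ∈ range s, ((fwdDiff (1:ℝ))^[k] (fun r : ℝ => r ^ i) 0) *
          ((j.choose k : ℝ) * d j) := by
        apply sum_congr rfl
        intro j _
        rw [h1 j, sum_mul]
        apply sum_congr rfl
        intro k _
        ring
    _ = ∑ k ∈ range s, ((fwdDiff (1:ℝ))^[k] (fun r : ℝ => r ^ i) 0) *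
          ∑ j ∈ J, (j.choose k : ℝ) * d j := by
        rw [sum_comm]
        apply sum_congr rfl
        intro k _
        rw [mul_sum]
    _ = 0 := by
        apply sum_eq_zero
        intro k hk
        rw [mem_range] at hk
        rw [h k hk, mul_zero]

theorem zero_of_pow (J : Finset ℕ) (d : ℕ → ℝ)
    (h : ∀ i, i < J.card → ∑ j ∈ J, (j : ℝ) ^ i * d j = 0) : ∀ j ∈ J, d j = 0 := by
  classical
  set φ := J.equivFin.symm with hφ
  have h1 : (fun i : Fin J.card => d (φ i)) = 0 := by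
    apply Matrix.eq_zero_of_forall_pow_sum_mul_pow_eq_zero
      (f := fun i : Fin J.card => ((φ i : ℕ) : ℝ))
    · intro a b hab
      simp only at hab
      have : (φ a : ℕ) = φ b := by exact_mod_cast hab
      exact φ.injective (Subtype.ext this)
    · intro i
      have h2 := h i i.2
      rw [← sum_coe_sort] at h2
      rw [← h2]
      rw [← Equiv.sum_comp φ (fun j : J => ((j : ℕ) : ℝ) ^ (i : ℕ) * d j)]
      apply sum_congr rfl
      intro j _
      ring
  intro j hj
  have h2 := congrFun h1 (J.equivFin ⟨j, hj⟩)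
  simpa [hφ] using h2

/-- **Two limit laws which agree off a finite set and have the same moments agree.** -/
theorem finite_laws {g g' : ℕ → ℝ} (hg : g ∈ LL) (hg' : g' ∈ LL) (J : Finset ℕ)
    (hJ : ∀ j, j ∉ J → g j = g' j) (hm : ∀ r, 2 ≤ r → r < J.card → mom g r = mom g' r) :
    g = g' := by
  obtain ⟨A, hA1, hA⟩ := law_mom
  obtain ⟨C, _, hC⟩ := law_sums
  have hm' : ∀ r, r < J.card → mom g r = mom g' r := by
    intro r hr
    rcases Nat.lt_or_ge r 2 with h2 | h2
    · have hcase : ∀ g ∈ LL, mom g r = 1 := by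
        intro g hg
        interval_cases r
        · unfold mom
          simp only [Nat.choose_zero_right, Nat.cast_one, one_mul]
          exact (hC g hg).1.tsum_eq
        · unfold mom
          simp only [Nat.choose_one_right]
          exact (hC g hg).2.1.tsum_eq
      rw [hcase g hg, hcase g' hg']
    · exact hm r h2 hr
  have h1 : ∀ r, r < J.card → ∑ j ∈ J, (j.choose r : ℝ) * (g j - g' j) = 0 := by
    intro r hr
    have e1 := ((hA g hg r).1).sub ((hA g' hg' r).1)
    rw [hm' r hr, sub_self] at e1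
    have e2 : HasSum (fun j : ℕ => (j.choose r : ℝ) * g j - (j.choose r : ℝ) * g' j)
        (∑ j ∈ J, ((j.choose r : ℝ) * g j - (j.choose r : ℝ) * g' j)) := by
      apply hasSum_sum_of_ne_finset_zero
      intro j hj
      rw [hJ j hj, sub_self]
    have e3 := e2.unique e1
    rw [← e3]
    apply sum_congr rfl
    intro j _
    ring
  have h2 := zero_of_pow J (fun j => g j - g' j) (pow_of_choose J _ J.card h1)
  funext j
  by_cases hj : j ∈ J
  · have := h2 j hj
    linarith
  · exact hJ j hj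

/-- a bounded sequence converges if its ultrafilter limits agree -/
theorem conv_of_unique {x : ℕ → ℝ} {a b : ℝ} (hb : ∀ᶠ n in atTop, x n ∈ Set.Icc a b)
    (h : ∀ U V : Ultrafilter ℕ, (U : Filter ℕ) ≤ atTop → (V : Filter ℕ) ≤ atTop →
      ∀ y y', Tendsto x U (𝓝 y) → Tendsto x V (𝓝 y') → y = y') :
    ∃ L : ℝ, Tendsto x atTop (𝓝 L) := by
  have hlim : ∀ U : Ultrafilter ℕ, (U : Filter ℕ) ≤ atTop → ∃ y : ℝ, Tendsto x U (𝓝 y) := by
    intro U hU
    have h1 : (U.map x : Filter ℝ) ≤ 𝓟 (Set.Icc a b) := by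
      rw [le_principal_iff]
      exact hU hb
    obtain ⟨y, _, hy⟩ := isCompact_Icc.ultrafilter_le_nhds (U.map x) h1
    exact ⟨y, hy⟩
  obtain ⟨L, hL⟩ := hlim (hyperfilter ℕ) Nat.hyperfilter_le_atTop
  refine ⟨L, ?_⟩
  rw [tendsto_iff_ultrafilter]
  intro V hV
  obtain ⟨y, hy⟩ := hlim V hV
  rw [h _ V Nat.hyperfilter_le_atTop hV L y hL hy]
  exact hy

theorem convT_iff (r : ℕ) : ConvT r ↔ ∀ g ∈ LL, ∀ g' ∈ LL, mom g r = mom g' r := by
  obtain ⟨A, hA1, hA⟩ := tup_bound
  constructor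
  · rintro ⟨L, hL⟩ g hg g' hg'
    obtain ⟨U, hU, hj⟩ := LL_ultra hg
    obtain ⟨V, hV, hj'⟩ := LL_ultra hg'
    have e1 := tendsto_nhds_unique (law_tup hA hU hj r).1 (hL.mono_left hU)
    have e2 := tendsto_nhds_unique (law_tup hA hV hj' r).1 (hL.mono_left hV)
    rw [e1, e2]
  · intro h
    apply conv_of_unique (a := 0) (b := A ^ r)
    · exact (hA r).mono (fun n hn => ⟨tup_nonneg r n, hn⟩)
    · intro U V hU hV y y' hy hy'
      obtain ⟨g, hg⟩ := exists_law U
      obtain ⟨g', hg'⟩ := exists_law V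
      have e1 := tendsto_nhds_unique (law_tup hA hU hg r).1 hy
      have e2 := tendsto_nhds_unique (law_tup hA hV hg' r).1 hy'
      rw [← e1, ← e2]
      exact h g (ultra_LL hU hg) g' (ultra_LL hV hg')

theorem conv_iff_laws (j : ℕ) : Conv j ↔ ∀ g ∈ LL, ∀ g' ∈ LL, g j = g' j := by
  constructor
  · intro h g hg g' hg'
    have h1 := (conv_iff j).1 h
    have h2 := law_diff_le hg hg' j
    rw [h1] at h2
    linarith [abs_nonpos_iff.1 h2]
  · intro h
    obtain ⟨g, hg, hga⟩ := exists_law_of_cluster (cluster_limsup j)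
    obtain ⟨g', hg', hga'⟩ := exists_law_of_cluster (cluster_liminf j)
    rw [conv_iff]
    unfold osc
    rw [← hga, ← hga', h g hg g' hg', sub_self]

/-- **The graded equivalence.** -/
theorem graded (m : ℕ) : (∀ j, m ≤ j → Conv j) ↔ (∀ r, m ≤ r → ConvT r) := by
  constructor
  · intro h r hr
    rw [convT_iff]
    intro g hg g' hg'
    exact (graded_laws hg hg' m).1 (fun j hj => (conv_iff_laws j).1 (h j hj) g hg g' hg') r hr
  · intro h j hj
    rw [conv_iff_laws]
    intro g hg g' hg'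
    exact (graded_laws hg hg' m).2 (fun r hr => (convT_iff r).1 (h r hr) g hg g' hg') j hj

/-- the question and the averages of tuples -/
theorem all_iff_tuples : (∀ j, Conv j) ↔ (∀ r, 2 ≤ r → ConvT r) := by
  rw [← graded 2]
  constructor
  · intro h j _
    exact h j
  · intro h
    apply conv_of_off_two (a := 0) (b := 1) (by norm_num)
    intro j h0 h1
    exact h j (by omega)

/-- finitely many exceptional values -/
theorem finite_conv (J : Finset ℕ) (hJ : ∀ j, j ∉ J → Conv j)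
    (hm : ∀ r, 2 ≤ r → r < J.card → ConvT r) : ∀ j, Conv j := by
  intro j
  rw [conv_iff_laws]
  intro g hg g' hg'
  have := finite_laws hg hg' J (fun i hi => (conv_iff_laws i).1 (hJ i hi) g hg g' hg')
    (fun r h1 h2 => (convT_iff r).1 (hm r h1 h2) g hg g' hg')
  rw [this]

end Pool.Agent.H21.PI
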