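import Pool.Agent.H18.T2.Multi

/-!
# Selberg's upper bound for the linear forms `Q n + u`, `u` in a finite set (MP_76b9e7_nt)
(adapted from `Pool.Agent.H18.T2.Multi`, which treats `Q n + 1 + Q u`)
-/

set_option autoImplicit false

namespace Pool.Agent.H21.PI

open Finset ArithmeticFunction BoundingSieve
open Pool.Agent.H75.PS Pool.Agent.H18.T2

/-- The residues mod `p` killed by the forms `Q n + u`, `u ∈ U`. -/
def Lres (Q : ℕ) (U : Finset ℕ) (p : ℕ) : Finset ℕ :=
  (Finset.range p).filter (fun s => ∃ u ∈ U, p ∣ Q * s + u)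

theorem Lres_card (Q : ℕ) (U : Finset ℕ) (p : ℕ) (hp : p.Prime) (hpQ : ¬ p ∣ Q)
    (hU : ∀ u ∈ U, ∀ v ∈ U, u < v → ¬ p ∣ v - u) : (Lres Q U p).card = U.card := by
  classical
  have hcop : Nat.Coprime p Q := (Nat.Prime.coprime_iff_not_dvd hp).2 hpQ
  obtain ⟨w, hw⟩ : ∃ w : ℕ, p ∣ Q * w + 1 := by
    have : NeZero p := ⟨hp.ne_zero⟩
    have hunit : IsUnit ((Q : ℕ) : ZMod p) := (ZMod.isUnit_iff_coprime Q p).mpr hcop.symm
    obtain ⟨w, hw⟩ := hunit
    refine ⟨((-(↑(w⁻¹) : ZMod p))).val, ?_⟩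
    rw [← CharP.cast_eq_zero_iff (ZMod p) p]
    push_cast
    rw [ZMod.natCast_val, ZMod.cast_id]
    rw [← hw]
    simp
  have hcw : Nat.Coprime p w := by
    rw [Nat.Prime.coprime_iff_not_dvd hp]
    intro h
    have h2 : p ∣ 1 := (Nat.dvd_add_right (h.mul_left Q)).1 hw
    exact hp.one_lt.ne' (Nat.dvd_one.1 h2)
  -- the class of `u`
  have key : ∀ s u : ℕ, p ∣ Q * s + u ↔ s ≡ w * u [MOD p] := by
    intro s u
    have hev : p ∣ Q * (w * u) + u := by
      have : Q * (w * u) + u = (Q * w + 1) * u := by ring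
      rw [this]
      exact hw.mul_right u
    constructor
    · intro h
      have h2 : Q * s + u ≡ Q * (w * u) + u [MOD p] :=
        ((Nat.modEq_zero_iff_dvd).mpr h).trans ((Nat.modEq_zero_iff_dvd).mpr hev).symm
      have h3 := Nat.ModEq.add_right_cancel' u h2
      exact Nat.ModEq.cancel_left_of_coprime hcop h3
    · intro h
      have h2 := (h.mul_left Q).add_right u
      exact (Nat.modEq_zero_iff_dvd).mp (h2.trans ((Nat.modEq_zero_iff_dvd).mpr hev))
  have himg : Lres Q U p = U.image (fun u => (w * u) % p) := by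
    ext s
    unfold Lres
    rw [Finset.mem_filter, Finset.mem_range, Finset.mem_image]
    constructor
    · rintro ⟨hs, u, hu, h⟩
      refine ⟨u, hu, ?_⟩
      have := (key s u).1 h
      have h2 : s % p = (w * u) % p := this
      rw [← h2, Nat.mod_eq_of_lt hs]
    · rintro ⟨u, hu, rfl⟩
      refine ⟨Nat.mod_lt _ hp.pos, u, hu, ?_⟩
      rw [key]
      exact Nat.mod_modEq _ _
  rw [himg, Finset.card_image_of_injOn]
  intro u hu v hv huv
  rw [Finset.mem_coe] at hu hv
  have h1 : w * u ≡ w * v [MOD p] := huv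
  have h3 : u ≡ v [MOD p] := Nat.ModEq.cancel_left_of_coprime hcw h1
  rcases lt_trichotomy u v with h | h | h
  · exact absurd ((Nat.modEq_iff_dvd' h.le).1 h3) (hU u hu v hv h)
  · exact h
  · exact absurd ((Nat.modEq_iff_dvd' h.le).1 h3.symm) (hU v hv u hu h)

/-- The value map. -/
def valL (Q : ℕ) (U : Finset ℕ) (n : ℕ) : ℕ := ∏ u ∈ U, (Q * n + u)

/-- The sieve problem (with multiplicities as weights). -/
noncomputable def svL (Q : ℕ) (U : Finset ℕ) (a N R : ℕ) (hU : 0 < U.card) : BoundingSieve where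
  support := (Finset.Ico a (a + N)).image (valL Q U)
  prodPrimes := ∏ p ∈ SPK Q U R, p
  prodPrimes_squarefree := SPK_sqf Q U R
  weights := fun v => (((Finset.Ico a (a + N)).filter (fun n => valL Q U n = v)).card : ℝ)
  weights_nonneg := fun _ => Nat.cast_nonneg _
  totalMass := N
  nu := nuK U.card
  nu_mult := nuK_mult _
  nu_pos_of_prime := by
    intro p hp _
    rw [nuK_prime _ p hp]
    have : (0:ℝ) < p := by exact_mod_cast hp.pos
    have h2 : (0:ℝ) < U.card := by exact_mod_cast hU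
    positivity
  nu_lt_one_of_prime := by
    intro p hp hpP
    rw [nuK_prime _ p hp]
    have h1 := (prime_dvd_SPK hp).mp hpP
    have h3 := (mem_SPK.mp h1).2.2.1
    have h4 : (U.card : ℝ) < p := by exact_mod_cast h3
    have h5 : (0:ℝ) < p := by exact_mod_cast hp.pos
    rw [div_lt_one h5]
    exact h4

/-- sums over the support -/
theorem sum_supportL (Q : ℕ) (U : Finset ℕ) (a N : ℕ) (Pr : ℕ → Prop) [DecidablePred Pr] :
    ∑ v ∈ (Finset.Ico a (a + N)).image (valL Q U),
      (if Pr v then (((Finset.Ico a (a + N)).filter (fun n => valL Q U n = v)).card : ℝ) else 0) =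
      (((Finset.Ico a (a + N)).filter (fun n => Pr (valL Q U n))).card : ℝ) := by
  have h1 : ((Finset.Ico a (a + N)).filter (fun n => Pr (valL Q U n))).card =
      ∑ v ∈ (Finset.Ico a (a + N)).image (valL Q U),
        (((Finset.Ico a (a + N)).filter (fun n => Pr (valL Q U n))).filter
          (fun n => valL Q U n = v)).card := by
    apply Finset.card_eq_sum_card_fiberwise
    intro n hn
    rw [Finset.mem_coe, Finset.mem_filter] at hn
    exact Finset.mem_coe.2 (Finset.mem_image_of_mem _ hn.1)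
  rw [h1]
  push_cast
  apply Finset.sum_congr rfl
  intro v _
  split_ifs with h
  · congr 2
    rw [Finset.filter_filter]
    apply Finset.filter_congr
    intro n _
    constructor
    · intro e
      exact ⟨by rw [e]; exact h, e⟩
    · intro e
      exact e.2
  · symm
    rw [Finset.filter_filter]
    norm_cast
    rw [Finset.card_eq_zero, Finset.filter_eq_empty_iff]
    rintro n _ ⟨h1, h2⟩
    rw [h2] at h1
    exact h h1

theorem svL_multSum (Q : ℕ) (U : Finset ℕ) (a N R : ℕ) (hU : 0 < U.card) (d : ℕ) :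
    (svL Q U a N R hU).multSum d =
      (((Finset.Ico a (a + N)).filter (fun n => d ∣ valL Q U n)).card : ℝ) := by
  unfold multSum svL
  simp only
  exact sum_supportL Q U a N (fun v => d ∣ v)

theorem svL_rem (Q : ℕ) (U : Finset ℕ) (a N R : ℕ) (hU : 0 < U.card) (d : ℕ)
    (hd : d ∣ ∏ p ∈ SPK Q U R, p) : |(svL Q U a N R hU).rem d| ≤ d := by
  have hsq : Squarefree d := (SPK_sqf Q U R).squarefree_of_dvd hd
  have hd0 : d ≠ 0 := hsq.ne_zero
  have hsub : ∀ p ∈ d.primeFactors, p ∈ SPK Q U R := by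
    intro p hp
    exact (prime_dvd_SPK (Nat.prime_of_mem_primeFactors hp)).1
      ((Nat.dvd_of_mem_primeFactors hp).trans hd)
  have hcard : ∀ p ∈ d.primeFactors, (Lres Q U p).card = U.card := by
    intro p hp
    have h := mem_SPK.1 (hsub p hp)
    exact Lres_card Q U p h.1.2 h.2.1 h.2.2.2
  have h1 := count_residues d.primeFactors (fun p hp => Nat.prime_of_mem_primeFactors hp)
    (Lres Q U) (by
      intro p _ s hs
      unfold Lres at hs
      exact Finset.mem_range.1 (Finset.mem_filter.1 hs).1) a N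
  have h2 : ∀ n : ℕ, d ∣ valL Q U n ↔ ∀ p ∈ d.primeFactors, n % p ∈ Lres Q U p := by
    intro n
    have e1 : d ∣ valL Q U n ↔ ∀ p ∈ d.primeFactors, p ∣ valL Q U n := by
      constructor
      · intro h p hp
        exact (Nat.dvd_of_mem_primeFactors hp).trans h
      · intro h
        rw [← Nat.prod_primeFactors_of_squarefree hsq]
        apply Finset.prod_primes_dvd
        · intro p hp
          exact (Nat.prime_of_mem_primeFactors hp).prime
        · exact h
    rw [e1]
    apply forall₂_congr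
    intro p hp
    have hpp := Nat.prime_of_mem_primeFactors hp
    unfold valL Lres
    rw [Prime.dvd_finsetProd_iff hpp.prime, Finset.mem_filter, Finset.mem_range]
    have e2 : ∀ u, p ∣ Q * n + u ↔ p ∣ Q * (n % p) + u := by
      intro u
      have : Q * n + u ≡ Q * (n % p) + u [MOD p] :=
        ((Nat.mod_modEq n p).symm.mul_left Q).add_right u
      rw [← Nat.modEq_zero_iff_dvd, ← Nat.modEq_zero_iff_dvd]
      exact ⟨fun h => this.symm.trans h, fun h => this.trans h⟩
    constructor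
    · rintro ⟨u, hu, h⟩
      exact ⟨Nat.mod_lt _ hpp.pos, u, hu, (e2 u).1 h⟩
    · rintro ⟨_, u, hu, h⟩
      exact ⟨u, hu, (e2 u).2 h⟩
  have h3 : nuK U.card d = ∏ p ∈ d.primeFactors, ((Lres Q U p).card : ℝ) / p := by
    unfold nuK
    rw [prodPrimeFactors_apply hd0]
    apply Finset.prod_congr rfl
    intro p hp
    rw [hcard p hp]
  have h4 : ∏ p ∈ d.primeFactors, ((Lres Q U p).card : ℝ) ≤ d := by
    have h5 : (d : ℝ) = ∏ p ∈ d.primeFactors, (p : ℝ) := by
      rw [← Nat.cast_prod, Nat.prod_primeFactors_of_squarefree hsq]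
    rw [h5]
    apply Finset.prod_le_prod
    · intros; positivity
    · intro p hp
      rw [hcard p hp]
      exact_mod_cast (mem_SPK.1 (hsub p hp)).2.2.1.le
  unfold rem
  rw [svL_multSum]
  have h5 : (svL Q U a N R hU).nu d * (svL Q U a N R hU).totalMass = nuK U.card d * N := rfl
  rw [h5, Finset.filter_congr (fun n _ => h2 n), h3]
  exact h1.trans h4

theorem svL_sifted (Q : ℕ) (U : Finset ℕ) (a N R : ℕ) (hU : 0 < U.card) :
    ((((Finset.Ico a (a + N)).filter
      (fun n => (∏ p ∈ SPK Q U R, p).Coprime (valL Q U n))).card : ℝ)) ≤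
      (svL Q U a N R hU).siftedSum := by
  unfold siftedSum svL
  simp only
  rw [sum_supportL Q U a N (fun v => (∏ p ∈ SPK Q U R, p).Coprime v)]

theorem svL_g (Q : ℕ) (U : Finset ℕ) (a N R : ℕ) (hU : 0 < U.card) (p : ℕ) (hp : p ∈ SPK Q U R) :
    (1 + 1 / (p : ℝ)) ^ U.card - 1 ≤ (svL Q U a N R hU).selbergTerms p := by
  have hpp := (mem_SPK.mp hp).1.2
  rw [selbergTerms_apply, hpp.primeFactors, Finset.prod_singleton]
  have h5 : (svL Q U a N R hU).nu p = (U.card : ℝ) / (p:ℝ) := nuK_prime _ p hpp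
  rw [h5]
  exact pow_one_add_le U.card p (mem_SPK.mp hp).2.2.1

/-- lower bound for the Selberg denominator -/
theorem SSL_lower (Q : ℕ) (U : Finset ℕ) (a N z : ℕ) (hU : 0 < U.card) (B : Finset ℕ)
    (hBpos : ∀ p ∈ B, 0 < p) (hB : ∀ p, p.Prime → p ≤ z → p ∉ B → ¬ p ∣ Q ∧ U.card < p ∧
      ∀ u ∈ U, ∀ v ∈ U, u < v → ¬ p ∣ v - u) :
    (Real.log (z + 1)) ^ U.card ≤ (2 * ∏ p ∈ B, (1 + 1 / (p : ℝ))) ^ U.card *
      SS (svL Q U a N (z ^ U.card) hU) (z ^ U.card) := by
  classical
  set K := U.card with hK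
  set s := svL Q U a N (z ^ K) hU with hs
  have hprod : s.prodPrimes = ∏ p ∈ SPK Q U (z ^ K), p := rfl
  set P1 := SPK Q U (z ^ K) with hP1
  -- SS ≥ FF
  have hSS : FF (fun p => s.selbergTerms p) P1 (z ^ K) ≤ SS s (z ^ K) := by
    unfold FF SS
    have hinj : Set.InjOn (fun A : Finset ℕ => ∏ p ∈ A, p)
        ((P1.powerset.filter (fun A => ∏ p ∈ A, p ≤ z ^ K) : Finset (Finset ℕ)) :
          Set (Finset ℕ)) := by
      intro A hA B hB hAB
      rw [Finset.mem_coe, Finset.mem_filter, Finset.mem_powerset] at hA hB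
      have h1 : (∏ p ∈ A, p).primeFactors = A :=
        Nat.primeFactors_prod (fun p hp => (mem_SPK.mp (hA.1 hp)).1.2)
      have h2 : (∏ p ∈ B, p).primeFactors = B :=
        Nat.primeFactors_prod (fun p hp => (mem_SPK.mp (hB.1 hp)).1.2)
      simp only at hAB
      rw [← h1, ← h2, hAB]
    have h3 : ∀ A ∈ P1.powerset.filter (fun A => ∏ p ∈ A, p ≤ z ^ K),
        ∏ p ∈ A, s.selbergTerms p = s.selbergTerms (∏ p ∈ A, p) := by
      intro A hA
      rw [Finset.mem_filter, Finset.mem_powerset] at hA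
      symm
      apply selbergTerms_isMultiplicative.map_prod_of_subset_primeFactors s.prodPrimes
      rw [hprod, primeFactors_SPK]
      exact hA.1
    rw [Finset.sum_congr rfl h3]
    rw [← Finset.sum_image (f := fun l => s.selbergTerms l) hinj]
    apply Finset.sum_le_sum_of_subset_of_nonneg
    · intro l hl
      rw [Finset.mem_image] at hl
      obtain ⟨A, hA, rfl⟩ := hl
      rw [Finset.mem_filter, Finset.mem_powerset] at hA
      rw [Finset.mem_filter, Nat.mem_divisors]
      refine ⟨⟨?_, prodPrimes_ne_zero⟩, hA.2⟩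
      rw [hprod]
      exact Finset.prod_dvd_prod_of_subset _ _ _ hA.1
    · intro l hl _
      rw [Finset.mem_filter, Nat.mem_divisors] at hl
      exact (selbergTerms_pos hl.1.1).le
  have h1 : FF (fun p => (1 + 1 / (p : ℝ)) ^ K - 1) P1 (z ^ K) ≤
      FF (fun p => s.selbergTerms p) P1 (z ^ K) := by
    apply FF_congr_le
    · intro p _
      have : (1:ℝ) ≤ (1 + 1 / (p : ℝ)) ^ K := by
        apply one_le_pow₀
        have : (0:ℝ) ≤ 1 / (p : ℝ) := by positivity
        linarith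
      linarith
    · intro p hp
      exact svL_g Q U a N (z ^ K) hU p hp
  have h2 := FF_pow P1 (fun p hp => (mem_SPK.mp hp).1.2.pos) z K
  -- lower bound for FF (1/p) P1 z
  have h3 := harmonic_le z
  have h4 := FF_sdiff (Nat.primesLE z) B z hBpos
  have h5 : FF (fun p => 1 / (p : ℝ)) (Nat.primesLE z \ B) z ≤
      FF (fun p => 1 / (p : ℝ)) P1 z := by
    apply FF_subset
    · intro p hp
      rw [Finset.mem_sdiff, Nat.mem_primesLE] at hp
      obtain ⟨⟨hpz, hpp⟩, hp2⟩ := hp
      rw [hP1, mem_SPK]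
      have hzz : z ≤ z ^ K := Nat.le_self_pow (by omega) z
      exact ⟨⟨hpz.trans hzz, hpp⟩, hB p hpp hpz hp2⟩
    · intro p _
      positivity
  have hB1 := prod_one_le B
  have h7 : Real.log (z + 1) ≤ 2 * ((∏ p ∈ B, (1 + 1 / (p : ℝ))) *
      FF (fun p => 1 / (p : ℝ)) P1 z) := by
    have hl : Real.log (z + 1) ≤ ∑ a ∈ Finset.Icc 1 z, 1 / (a : ℝ) := by
      have := log_add_one_le_harmonic z
      rw [harmonic_eq_sum_Icc] at this
      push_cast at this
      simpa [one_div] using this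
    refine hl.trans (h3.trans ?_)
    gcongr
    refine h4.trans ?_
    have : 0 ≤ ∏ p ∈ B, (1 + 1 / (p : ℝ)) := zero_le_one.trans hB1
    gcongr
  have hlog : 0 ≤ Real.log (z + 1) := by
    apply Real.log_nonneg
    have : (0:ℝ) ≤ z := by positivity
    linarith
  have hcc0 : 0 ≤ ∏ p ∈ B, (1 + 1 / (p : ℝ)) := zero_le_one.trans hB1
  generalize ∏ p ∈ B, (1 + 1 / (p : ℝ)) = cc at *
  have hFn : 0 ≤ FF (fun p => 1 / (p : ℝ)) P1 z := FF_nonneg _ _ (fun q _ => by positivity) _
  calc (Real.log (z + 1)) ^ K ≤ (2 * (cc * FF (fun p => 1 / (p : ℝ)) P1 z)) ^ K := by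
        gcongr
    _ = (2 * cc) ^ K * (FF (fun p => 1 / (p : ℝ)) P1 z) ^ K := by ring
    _ ≤ (2 * cc) ^ K * SS s (z ^ K) := by
        have := h2.trans (h1.trans hSS)
        gcongr

/-- **Selberg's upper bound** for the forms `Q n + u`. -/
theorem sieve_bound (Q : ℕ) (U : Finset ℕ) (a N z : ℕ) (hU : 0 < U.card) (hz : 1 ≤ z)
    (B : Finset ℕ) (hBpos : ∀ p ∈ B, 0 < p)
    (hB : ∀ p, p.Prime → p ≤ z → p ∉ B → ¬ p ∣ Q ∧ U.card < p ∧
      ∀ u ∈ U, ∀ v ∈ U, u < v → ¬ p ∣ v - u) :
    ((((Finset.Ico a (a + N)).filter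
      (fun n => (∏ p ∈ SPK Q U (z ^ U.card), p).Coprime (valL Q U n))).card : ℝ)) ≤
      (2 * ∏ p ∈ B, (1 + 1 / (p : ℝ))) ^ U.card * N / (Real.log (z + 1)) ^ U.card +
        (z : ℝ) ^ (6 * U.card) := by
  have h3 := SSL_lower Q U a N z hU B hBpos hB
  generalize (∏ p ∈ B, (1 + 1 / (p : ℝ))) = cc at h3 ⊢
  set K := U.card with hK
  set R := z ^ K with hRdef
  have h1 := svL_sifted Q U a N R hU
  have hR : 1 ≤ R := Nat.one_le_pow _ _ hz
  have h2 := selberg_bound (svL Q U a N R hU) R hR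
  set s := svL Q U a N R hU with hs
  have hS := SS_pos s R hR
  have hzpos : (0:ℝ) < z := by exact_mod_cast hz
  have hlog : 0 < Real.log (z + 1) := Real.log_pos (by linarith)
  have hmass : s.totalMass = N := rfl
  have hprod : s.prodPrimes = ∏ p ∈ SPK Q U R, p := rfl
  refine h1.trans (h2.trans ?_)
  apply add_le_add
  · rw [hmass]
    generalize SS s R = S at *
    have hL2 : 0 < (Real.log (z + 1)) ^ K := pow_pos hlog K
    have hNn : (0:ℝ) ≤ N := Nat.cast_nonneg N
    rw [le_div_iff₀ hL2]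
    calc (N : ℝ) * S⁻¹ * (Real.log (z + 1)) ^ K
        ≤ (N : ℝ) * S⁻¹ * (_ * S) := by
          apply mul_le_mul_of_nonneg_left h3
          exact mul_nonneg hNn (inv_nonneg.mpr hS.le)
      _ = _ := by field_simp
  · have hRr : (R : ℝ) = (z:ℝ) ^ K := by rw [hRdef]; push_cast; rfl
    have hcard : ((s.prodPrimes.divisors.filter (fun d => d ≤ R)).card : ℝ) ≤ R := by
      have : s.prodPrimes.divisors.filter (fun d => d ≤ R) ⊆ Finset.Icc 1 R := by
        intro d hd
        rw [Finset.mem_filter, Nat.mem_divisors] at hd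
        rw [Finset.mem_Icc]
        exact ⟨Nat.pos_of_dvd_of_pos hd.1.1 (Nat.pos_of_ne_zero hd.1.2), hd.2⟩
      have h4 := Finset.card_le_card this
      rw [Nat.card_Icc] at h4
      exact_mod_cast h4
    calc ∑ d1 ∈ s.prodPrimes.divisors with d1 ≤ R, ∑ d2 ∈ s.prodPrimes.divisors with d2 ≤ R,
        (s.nu d1)⁻¹ * (s.nu d2)⁻¹ * |s.rem (d1.lcm d2)|
        ≤ ∑ d1 ∈ s.prodPrimes.divisors with d1 ≤ R,
          ∑ d2 ∈ s.prodPrimes.divisors with d2 ≤ R, (R:ℝ) ^ 4 := by
          apply Finset.sum_le_sum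
          intro d1 hd1
          apply Finset.sum_le_sum
          intro d2 hd2
          rw [Finset.mem_filter, Nat.mem_divisors] at hd1 hd2
          have e1 : (s.nu d1)⁻¹ ≤ (R:ℝ) := by
            refine (nuK_inv_le Q U R d1 hU hd1.1.1).trans ?_
            exact_mod_cast hd1.2
          have e2 : (s.nu d2)⁻¹ ≤ (R:ℝ) := by
            refine (nuK_inv_le Q U R d2 hU hd2.1.1).trans ?_
            exact_mod_cast hd2.2
          have e3 : |s.rem (d1.lcm d2)| ≤ (R:ℝ) ^ 2 := by
            refine (svL_rem Q U a N R hU _ (Nat.lcm_dvd hd1.1.1 hd2.1.1)).trans ?_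
            have h0 : d1.lcm d2 ≤ d1 * d2 := by
              rw [Nat.lcm]
              exact Nat.div_le_self _ _
            have : ((d1.lcm d2 : ℕ) : ℝ) ≤ ((R * R : ℕ) : ℝ) := by
              exact_mod_cast h0.trans (Nat.mul_le_mul hd1.2 hd2.2)
            calc ((d1.lcm d2 : ℕ) : ℝ) ≤ ((R * R : ℕ) : ℝ) := this
              _ = (R:ℝ) ^ 2 := by push_cast; ring
          have p2 : 0 ≤ (s.nu d2)⁻¹ := (inv_pos.mpr (nu_pos_of_dvd_prodPrimes hd2.1.1)).le
          calc (s.nu d1)⁻¹ * (s.nu d2)⁻¹ * |s.rem (d1.lcm d2)|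
              ≤ (R:ℝ) * (R:ℝ) * (R:ℝ) ^ 2 := by gcongr
            _ = (R:ℝ) ^ 4 := by ring
      _ = ((s.prodPrimes.divisors.filter (fun d => d ≤ R)).card : ℝ) *
          ((s.prodPrimes.divisors.filter (fun d => d ≤ R)).card : ℝ) * (R:ℝ) ^ 4 := by
          rw [Finset.sum_const, Finset.sum_const]
          simp only [nsmul_eq_mul]
          ring
      _ ≤ (R:ℝ) * (R:ℝ) * (R:ℝ) ^ 4 := by gcongr
      _ = (z:ℝ) ^ (6 * K) := by rw [hRr]; ring


end Pool.Agent.H21.PI
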