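import Pool.Agent.H21.PI.Second2

/-!
# Prime counts in intervals of logarithmic length: the limit laws (MP_76b9e7_nt)
-/

set_option autoImplicit false

open Finset Filter Topology

namespace Pool.Agent.H21.PI

theorem gam_nonneg (j n : ℕ) : 0 ≤ gam j n := by
  unfold gam
  positivity

theorem gam_le_one (j n : ℕ) : gam j n ≤ 1 := by
  unfold gam
  rcases Nat.eq_zero_or_pos n with rfl | hn
  · simp
  · rw [div_le_one (by exact_mod_cast hn)]
    have : ((Icc 1 n).filter (fun k : ℕ => X k = j)).card ≤ n := by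
      calc ((Icc 1 n).filter (fun k : ℕ => X k = j)).card ≤ (Icc 1 n).card := card_filter_le _ _
        _ = n := by simp
    exact_mod_cast this

/-- averages of functions with bounded support -/
theorem avg_eq (φ : ℕ → ℝ) (M n : ℕ) : ∑ j ∈ range M, φ j * gam j n =
    (∑ k ∈ Icc 1 n, if X k < M then φ (X k) else 0) / n := by
  unfold gam
  have h1 : ∀ j ∈ range M, φ j * ((((Icc 1 n).filter (fun k : ℕ => X k = j)).card : ℕ) / (n : ℝ)) =
      (∑ k ∈ Icc 1 n, if X k = j then φ j else 0) / n := by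
    intro j _
    rw [card_filter, ← mul_div_assoc]
    push_cast
    rw [mul_sum]
    congr 1
    apply sum_congr rfl
    intro k _
    split_ifs <;> simp
  rw [sum_congr rfl h1, ← sum_div, sum_comm]
  congr 1
  apply sum_congr rfl
  intro k _
  rw [sum_ite_eq]
  simp only [mem_range]

/-- the truncated mass -/
theorem mass_bounds {C : ℝ} {n M : ℕ} (hn : 1 ≤ n) (hM : 1 ≤ M)
    (hC : ((∑ k ∈ Icc 1 n, (X k) ^ 2 : ℕ) : ℝ) ≤ C * n) :
    1 - C / M ≤ ∑ j ∈ range M, gam j n ∧ ∑ j ∈ range M, gam j n ≤ 1 := by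
  have hn0 : (0:ℝ) < n := by exact_mod_cast (by omega : 0 < n)
  have hM0 : (0:ℝ) < M := by exact_mod_cast (by omega : 0 < M)
  have h1 := avg_eq (fun _ => 1) M n
  simp only [one_mul] at h1
  rw [h1]
  have hcard : ∑ k ∈ Icc 1 n, (1:ℝ) = n := by simp
  constructor
  · rw [le_div_iff₀ hn0]
    have h2 : ∑ k ∈ Icc 1 n, ((1:ℝ) - (X k : ℝ) ^ 2 / M) ≤
        ∑ k ∈ Icc 1 n, (if X k < M then (1:ℝ) else 0) := by
      apply sum_le_sum
      intro k _
      split_ifs with h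
      · have : 0 ≤ (X k : ℝ) ^ 2 / M := by positivity
        linarith
      · have h3 : (M:ℝ) ≤ X k := by exact_mod_cast (by omega : M ≤ X k)
        have h4 : (1:ℝ) ≤ (X k : ℝ) ^ 2 / M := by
          rw [le_div_iff₀ hM0, one_mul]
          have : (1:ℝ) ≤ M := by exact_mod_cast hM
          nlinarith
        linarith
    rw [sum_sub_distrib, hcard, ← sum_div] at h2
    have h3 : (∑ k ∈ Icc 1 n, (X k : ℝ) ^ 2) / M ≤ C / M * n := by
      rw [div_mul_eq_mul_div]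
      push_cast at hC
      gcongr
    linarith
  · rw [div_le_one hn0]
    calc ∑ k ∈ Icc 1 n, (if X k < M then (1:ℝ) else 0) ≤ ∑ k ∈ Icc 1 n, (1:ℝ) := by
          apply sum_le_sum
          intro k _
          split_ifs <;> norm_num
      _ = n := hcard

/-- the truncated mean -/
theorem mean_bounds {C : ℝ} {n M : ℕ} (hn : 1 ≤ n) (hM : 1 ≤ M)
    (hC : ((∑ k ∈ Icc 1 n, (X k) ^ 2 : ℕ) : ℝ) ≤ C * n) :
    (S n : ℝ) / n - C / M ≤ ∑ j ∈ range M, (j : ℝ) * gam j n ∧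
      ∑ j ∈ range M, (j : ℝ) * gam j n ≤ (S n : ℝ) / n := by
  have hn0 : (0:ℝ) < n := by exact_mod_cast (by omega : 0 < n)
  have hM0 : (0:ℝ) < M := by exact_mod_cast (by omega : 0 < M)
  rw [avg_eq (fun j => (j : ℝ)) M n]
  have hS : (S n : ℝ) = ∑ k ∈ Icc 1 n, (X k : ℝ) := by
    unfold S
    push_cast
    rfl
  constructor
  · rw [le_div_iff₀ hn0, sub_mul, div_mul_cancel₀ _ hn0.ne']
    have h2 : ∑ k ∈ Icc 1 n, ((X k : ℝ) - (X k : ℝ) ^ 2 / M) ≤
        ∑ k ∈ Icc 1 n, (if X k < M then (X k : ℝ) else 0) := by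
      apply sum_le_sum
      intro k _
      split_ifs with h
      · have : 0 ≤ (X k : ℝ) ^ 2 / M := by positivity
        linarith
      · have h3 : (M:ℝ) ≤ X k := by exact_mod_cast (by omega : M ≤ X k)
        have h4 : (X k : ℝ) ≤ (X k : ℝ) ^ 2 / M := by
          rw [le_div_iff₀ hM0]
          have : (0:ℝ) ≤ X k := Nat.cast_nonneg _
          nlinarith
        linarith
    rw [sum_sub_distrib, ← hS, ← sum_div] at h2
    have h3 : (∑ k ∈ Icc 1 n, (X k : ℝ) ^ 2) / M ≤ C / M * n := by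
      rw [div_mul_eq_mul_div]
      push_cast at hC
      gcongr
    linarith
  · rw [div_le_div_iff_of_pos_right hn0, hS]
    apply sum_le_sum
    intro k _
    split_ifs
    · exact le_rfl
    · exact Nat.cast_nonneg _

/-- the truncated second moment -/
theorem sq_bound {C : ℝ} {n M : ℕ} (hn : 1 ≤ n)
    (hC : ((∑ k ∈ Icc 1 n, (X k) ^ 2 : ℕ) : ℝ) ≤ C * n) :
    ∑ j ∈ range M, (j : ℝ) ^ 2 * gam j n ≤ C := by
  have hn0 : (0:ℝ) < n := by exact_mod_cast (by omega : 0 < n)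
  rw [avg_eq (fun j => (j : ℝ) ^ 2) M n, div_le_iff₀ hn0]
  refine le_trans ?_ hC
  push_cast
  apply sum_le_sum
  intro k _
  split_ifs
  · exact le_rfl
  · positivity

/-- The limit laws. -/
def LL : Set (ℕ → ℝ) := {g | MapClusterPt g atTop (fun (n : ℕ) (j : ℕ) => gam j n)}

theorem LL_ultra {g : ℕ → ℝ} (hg : g ∈ LL) : ∃ U : Ultrafilter ℕ, (U : Filter ℕ) ≤ atTop ∧
    ∀ j, Tendsto (gam j) U (𝓝 (g j)) := by
  obtain ⟨U, hU, h⟩ := mapClusterPt_iff_ultrafilter.1 hg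
  exact ⟨U, hU, fun j => (tendsto_pi_nhds.1 h) j⟩

theorem ultra_LL {g : ℕ → ℝ} {U : Ultrafilter ℕ} (hU : (U : Filter ℕ) ≤ atTop)
    (h : ∀ j, Tendsto (gam j) U (𝓝 (g j))) : g ∈ LL :=
  mapClusterPt_iff_ultrafilter.2 ⟨U, hU, tendsto_pi_nhds.2 h⟩

/-- every ultrafilter gives a limit law -/
theorem exists_law (U : Ultrafilter ℕ) : ∃ g : ℕ → ℝ, ∀ j, Tendsto (gam j) U (𝓝 (g j)) := by
  have h : ∀ j, ∃ y : ℝ, Tendsto (gam j) U (𝓝 y) := by
    intro j
    have h1 : (U.map (gam j) : Filter ℝ) ≤ 𝓟 (Set.Icc 0 1) := by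
      rw [le_principal_iff]
      change gam j ⁻¹' (Set.Icc 0 1) ∈ U
      exact Filter.univ_mem' (fun n => ⟨gam_nonneg j n, gam_le_one j n⟩)
    obtain ⟨y, _, hy⟩ := isCompact_Icc.ultrafilter_le_nhds (U.map (gam j)) h1
    exact ⟨y, hy⟩
  choose g hg using h
  exact ⟨g, hg⟩

theorem law_nonneg {g : ℕ → ℝ} (hg : g ∈ LL) (j : ℕ) : 0 ≤ g j := by
  obtain ⟨U, _, h⟩ := LL_ultra hg
  exact ge_of_tendsto' (h j) (fun n => gam_nonneg j n)

/-- **The limit laws** have total mass one and mean one. -/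
theorem law_sums : ∃ C : ℝ, 0 < C ∧ ∀ g ∈ LL, HasSum g 1 ∧ HasSum (fun j : ℕ => (j : ℝ) * g j) 1 ∧
    Summable (fun j : ℕ => (j : ℝ) ^ 2 * g j) ∧ ∑' j : ℕ, (j : ℝ) ^ 2 * g j ≤ C := by
  obtain ⟨C, hC0, hC⟩ := second
  refine ⟨C, hC0, fun g hg => ?_⟩
  have hg0 := law_nonneg hg
  obtain ⟨U, hU, hj⟩ := LL_ultra hg
  have hCU : ∀ᶠ n in (U : Filter ℕ), 1 ≤ n ∧ ((∑ k ∈ Icc 1 n, (X k) ^ 2 : ℕ) : ℝ) ≤ C * n :=
    hU ((eventually_ge_atTop 1).and hC)
  have hinv : Tendsto (fun M : ℕ => C / (M:ℝ)) atTop (𝓝 0) :=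
    tendsto_const_div_atTop_nhds_zero_nat C
  have hl : Tendsto (fun M : ℕ => 1 - C / (M:ℝ)) atTop (𝓝 1) := by
    have := hinv.const_sub 1
    rwa [sub_zero] at this
  refine ⟨?_, ?_, ?_⟩
  · rw [hasSum_iff_tendsto_nat_of_nonneg hg0]
    refine tendsto_of_tendsto_of_tendsto_of_le_of_le' hl tendsto_const_nhds ?_ ?_
    · filter_upwards [eventually_ge_atTop 1] with M hM
      have h1 : Tendsto (fun n => ∑ j ∈ range M, gam j n) U (𝓝 (∑ j ∈ range M, g j)) :=
        tendsto_finsetSum _ (fun j _ => hj j)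
      exact ge_of_tendsto h1 (hCU.mono (fun n hn => (mass_bounds hn.1 hM hn.2).1))
    · filter_upwards [eventually_ge_atTop 1] with M hM
      have h1 : Tendsto (fun n => ∑ j ∈ range M, gam j n) U (𝓝 (∑ j ∈ range M, g j)) :=
        tendsto_finsetSum _ (fun j _ => hj j)
      exact le_of_tendsto h1 (hCU.mono (fun n hn => (mass_bounds hn.1 hM hn.2).2))
  · rw [hasSum_iff_tendsto_nat_of_nonneg (fun j => mul_nonneg (Nat.cast_nonneg _) (hg0 j))]
    have hS : Tendsto (fun n : ℕ => (S n : ℝ) / n) U (𝓝 1) := S_tendsto.mono_left hU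
    refine tendsto_of_tendsto_of_tendsto_of_le_of_le' hl tendsto_const_nhds ?_ ?_
    · filter_upwards [eventually_ge_atTop 1] with M hM
      have h1 : Tendsto (fun n => ∑ j ∈ range M, (j:ℝ) * gam j n) U
          (𝓝 (∑ j ∈ range M, (j:ℝ) * g j)) :=
        tendsto_finsetSum _ (fun j _ => (hj j).const_mul _)
      exact le_of_tendsto_of_tendsto (hS.sub_const (C / M)) h1
        (hCU.mono (fun n hn => (mean_bounds hn.1 hM hn.2).1))
    · filter_upwards [eventually_ge_atTop 1] with M hM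
      have h1 : Tendsto (fun n => ∑ j ∈ range M, (j:ℝ) * gam j n) U
          (𝓝 (∑ j ∈ range M, (j:ℝ) * g j)) :=
        tendsto_finsetSum _ (fun j _ => (hj j).const_mul _)
      exact le_of_tendsto_of_tendsto h1 hS
        (hCU.mono (fun n hn => (mean_bounds hn.1 hM hn.2).2))
  · have hb : ∀ M : ℕ, ∑ j ∈ range M, (j:ℝ) ^ 2 * g j ≤ C := by
      intro M
      have h1 : Tendsto (fun n => ∑ j ∈ range M, (j:ℝ) ^ 2 * gam j n) U
          (𝓝 (∑ j ∈ range M, (j:ℝ) ^ 2 * g j)) :=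
        tendsto_finsetSum _ (fun j _ => (hj j).const_mul _)
      exact le_of_tendsto h1 (hCU.mono (fun n hn => sq_bound hn.1 hn.2))
    have hn : ∀ j : ℕ, 0 ≤ (j:ℝ) ^ 2 * g j := fun j => mul_nonneg (by positivity) (hg0 j)
    exact ⟨summable_of_sum_range_le hn hb, Real.tsum_le_of_sum_range_le hn hb⟩

end Pool.Agent.H21.PI
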