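import Pool.Agent.H21.PI.Count

/-!
# Prime tuples in short windows: the parameters (MP_76b9e7_nt)
-/

set_option autoImplicit false

namespace Pool.Agent.H21.PI

open Finset Filter Topology

theorem log_le_two_sqrt {x : ℝ} (hx : 0 < x) : Real.log x ≤ 2 * Real.sqrt x := by
  have hs : 0 < Real.sqrt x := Real.sqrt_pos.2 hx
  have h1 : Real.log x = 2 * Real.log (Real.sqrt x) := by
    rw [Real.log_sqrt hx.le]
    ring
  have h2 := Real.log_le_sub_one_of_pos hs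
  linarith

theorem small_bound (r : ℕ) : ∀ᶠ n : ℕ in atTop,
    8 * (4:ℝ) ^ (Nat.sqrt (H n) + 1) * (2 * Real.log n) ^ r ≤ (n:ℝ) ^ (1 / 4 : ℝ) := by
  have h1 : ∀ᶠ n : ℕ in atTop, 2 ≤ Real.log n ∧ (16 * ((r:ℝ) + 1) + 8) ^ 2 ≤ 2 * Real.log n := by
    filter_upwards [log_tendsto.eventually_ge_atTop 2,
      log_tendsto.eventually_ge_atTop ((16 * ((r:ℝ) + 1) + 8) ^ 2)] with n h1 h2
    exact ⟨h1, by linarith⟩
  filter_upwards [h1, eventually_ge_atTop 1] with n hn hn1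
  obtain ⟨h2, h3⟩ := hn
  have hn0 : (0:ℝ) < n := by exact_mod_cast (by omega : 0 < n)
  set L := Real.log n with hL
  set s := Real.sqrt (2 * L) with hs
  have hs2 : s ^ 2 = 2 * L := Real.sq_sqrt (by linarith)
  have hs0 : 0 ≤ s := Real.sqrt_nonneg _
  have hsr : 16 * ((r:ℝ) + 1) + 8 ≤ s := Real.le_sqrt_of_sq_le h3
  have hr0 : (0:ℝ) ≤ r := Nat.cast_nonneg _
  have hy : ((Nat.sqrt (H n) + 1 : ℕ) : ℝ) ≤ s + 1 := by
    push_cast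
    have e1 : ((Nat.sqrt (H n) : ℕ) : ℝ) ≤ Real.sqrt (H n) := Real.nat_sqrt_le_real_sqrt
    have e2 : Real.sqrt (H n) ≤ s := by
      apply Real.sqrt_le_sqrt
      have := H_le n hn1
      linarith
    linarith
  have hlog : Real.log (2 * L) ≤ 2 * s := log_le_two_sqrt (by linarith)
  have e1 : (8:ℝ) * (4:ℝ) ^ (Nat.sqrt (H n) + 1) * (2 * L) ^ r =
      Real.exp (Real.log 8 + ((Nat.sqrt (H n) + 1 : ℕ) : ℝ) * Real.log 4 + r * Real.log (2 * L)) := by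
    rw [Real.exp_add, Real.exp_add, Real.exp_log (by norm_num), ← Real.log_pow,
      Real.exp_log (by positivity), ← Real.log_pow, Real.exp_log (by positivity)]
  have e2 : (n:ℝ) ^ (1 / 4 : ℝ) = Real.exp (L * (1 / 4)) := by
    rw [Real.rpow_def_of_pos hn0]
  rw [e1, e2]
  apply Real.exp_le_exp.2
  have l8 : Real.log 8 ≤ 3 := by
    have : Real.log 8 = 3 * Real.log 2 := by
      rw [show (8:ℝ) = 2 ^ 3 by norm_num, Real.log_pow]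
      norm_num
    have := Real.log_two_lt_d9
    linarith
  have l4 : Real.log 4 ≤ 2 := by
    have : Real.log 4 = 2 * Real.log 2 := by
      rw [show (4:ℝ) = 2 ^ 2 by norm_num, Real.log_pow]
      norm_num
    have := Real.log_two_lt_d9
    linarith
  have l40 : 0 ≤ Real.log 4 := Real.log_nonneg (by norm_num)
  have e3 : ((Nat.sqrt (H n) + 1 : ℕ) : ℝ) * Real.log 4 ≤ (s + 1) * 2 := by gcongr
  have e4 : (r:ℝ) * Real.log (2 * L) ≤ r * (2 * s) := by gcongr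
  have e5 : L * (1 / 4) = s ^ 2 / 8 := by rw [hs2]; ring
  rw [e5]
  nlinarith [mul_nonneg hr0 hs0]

/-- the parameters of the sieve -/
structure Par (r n k0 y z z1 : ℕ) : Prop where
  n1 : 1 ≤ n
  L2 : 2 ≤ Real.log n
  hk0 : 1 ≤ k0
  hk0n : k0 ≤ n + 1
  hyy : H n ≤ y * y
  hy2 : 2 ≤ y
  hrr : r * r ≤ y
  hz1 : 1 ≤ z
  hyk : y < k0
  hz11 : 1 ≤ z1
  hz1y : z1 ≤ y
  hza : z ^ r < primorial y * (k0 / primorial y)
  hyh : y ≤ H n
  hz16 : (z1 : ℝ) ^ 6 ≤ Real.sqrt (H n)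
  hlz1 : Real.log (H n) / 12 ≤ Real.log (z1 + 1)
  hlz : Real.log n / (12 * r) ≤ Real.log (z + 1)
  hPn : (primorial y : ℝ) ≤ n
  herr1 : (k0 : ℝ) * (H n : ℝ) ^ r ≤ n
  herr2 : (primorial y : ℝ) * ((H n : ℝ) ^ r * (z : ℝ) ^ (6 * r)) ≤ n

theorem yfacts {h r : ℕ} (h100 : 100 ≤ h) (hr4 : r * r * (r * r) < h) :
    h ≤ (Nat.sqrt h + 1) * (Nat.sqrt h + 1) ∧ 2 ≤ Nat.sqrt h + 1 ∧ r * r ≤ Nat.sqrt h + 1 ∧
      Nat.sqrt h + 1 ≤ h := by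
  have hyy : h ≤ (Nat.sqrt h + 1) * (Nat.sqrt h + 1) := (Nat.lt_succ_sqrt h).le
  refine ⟨hyy, ?_, ?_, ?_⟩
  · by_contra hc
    push Not at hc
    have : (Nat.sqrt h + 1) * (Nat.sqrt h + 1) ≤ 1 * 1 := Nat.mul_le_mul (by omega) (by omega)
    omega
  · by_contra hc
    push Not at hc
    have e1 : (Nat.sqrt h + 1) * (Nat.sqrt h + 1) ≤ r * r * (r * r) :=
      Nat.mul_le_mul hc.le hc.le
    omega
  · have e1 : Nat.sqrt h * Nat.sqrt h ≤ h := Nat.sqrt_le h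
    have e2 : 9 ≤ Nat.sqrt h := by
      by_contra hc
      push Not at hc
      have : (Nat.sqrt h + 1) * (Nat.sqrt h + 1) ≤ 9 * 9 := Nat.mul_le_mul (by omega) (by omega)
      omega
    have e3 : 9 * Nat.sqrt h ≤ Nat.sqrt h * Nat.sqrt h := Nat.mul_le_mul_right _ e2
    omega

theorem zfacts {n r : ℕ} (hn1 : 1 ≤ n) (hr1 : 1 ≤ r) : ∃ z : ℕ, 1 ≤ z ∧
    Real.log n / (12 * r) ≤ Real.log (z + 1) ∧ (z:ℝ) ^ (6 * r) ≤ Real.sqrt n ∧
    (z:ℝ) ^ r ≤ (n:ℝ) ^ (1 / 4 : ℝ) := by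
  have hn0 : (0:ℝ) < n := by exact_mod_cast (by omega : 0 < n)
  have hn1' : (1:ℝ) ≤ n := by exact_mod_cast hn1
  have hr0 : (0:ℝ) < r := by exact_mod_cast hr1
  have hzr : (1:ℝ) ≤ (n:ℝ) ^ (1 / (12 * r) : ℝ) := Real.one_le_rpow hn1' (by positivity)
  have hzle : (⌊(n:ℝ) ^ (1 / (12 * r) : ℝ)⌋₊:ℝ) ≤ (n:ℝ) ^ (1 / (12 * r) : ℝ) :=
    Nat.floor_le (by positivity)
  have hzlt : (n:ℝ) ^ (1 / (12 * r) : ℝ) < ⌊(n:ℝ) ^ (1 / (12 * r) : ℝ)⌋₊ + 1 :=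
    Nat.lt_floor_add_one _
  refine ⟨⌊(n:ℝ) ^ (1 / (12 * r) : ℝ)⌋₊, Nat.le_floor (by exact_mod_cast hzr), ?_, ?_, ?_⟩
  · have : Real.log ((n:ℝ) ^ (1 / (12 * r) : ℝ)) = Real.log n / (12 * r) := by
      rw [Real.log_rpow hn0]
      ring
    rw [← this]
    exact Real.log_le_log (by positivity) hzlt.le
  · refine (pow_le_pow_left₀ (by positivity) hzle (6 * r)).trans (le_of_eq ?_)
    rw [← Real.rpow_natCast, ← Real.rpow_mul hn0.le, Real.sqrt_eq_rpow]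
    congr 1
    push_cast
    field_simp
    norm_num
  · refine (pow_le_pow_left₀ (by positivity) hzle r).trans ?_
    rw [← Real.rpow_natCast, ← Real.rpow_mul hn0.le]
    apply Real.rpow_le_rpow_of_exponent_le hn1'
    have : 1 / (12 * (r:ℝ)) * r = 1 / 12 := by field_simp
    rw [this]
    norm_num

theorem z1facts {h : ℕ} (hh : 1 ≤ h) : ∃ z1 : ℕ, 1 ≤ z1 ∧ (z1:ℝ) ^ 6 ≤ Real.sqrt h ∧
    Real.log h / 12 ≤ Real.log (z1 + 1) ∧ z1 ≤ Nat.sqrt h + 1 := by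
  have hh0 : (0:ℝ) < h := by exact_mod_cast (by omega : 0 < h)
  have hh1' : (1:ℝ) ≤ h := by exact_mod_cast hh
  have hz1r : (1:ℝ) ≤ (h:ℝ) ^ (1 / 12 : ℝ) := Real.one_le_rpow hh1' (by norm_num)
  have hz1le : (⌊(h:ℝ) ^ (1 / 12 : ℝ)⌋₊:ℝ) ≤ (h:ℝ) ^ (1 / 12 : ℝ) := Nat.floor_le (by positivity)
  have hz1lt : (h:ℝ) ^ (1 / 12 : ℝ) < ⌊(h:ℝ) ^ (1 / 12 : ℝ)⌋₊ + 1 := Nat.lt_floor_add_one _
  refine ⟨⌊(h:ℝ) ^ (1 / 12 : ℝ)⌋₊, Nat.le_floor (by exact_mod_cast hz1r), ?_, ?_, ?_⟩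
  · refine (pow_le_pow_left₀ (by positivity) hz1le 6).trans (le_of_eq ?_)
    rw [← Real.rpow_natCast, ← Real.rpow_mul hh0.le, Real.sqrt_eq_rpow]
    norm_num
  · have : Real.log ((h:ℝ) ^ (1 / 12 : ℝ)) = Real.log h / 12 := by
      rw [Real.log_rpow hh0]
      ring
    rw [← this]
    exact Real.log_le_log (by positivity) hz1lt.le
  · have e1 : (⌊(h:ℝ) ^ (1 / 12 : ℝ)⌋₊:ℝ) ≤ Real.sqrt h := by
      refine hz1le.trans ?_
      rw [Real.sqrt_eq_rpow]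
      exact Real.rpow_le_rpow_of_exponent_le hh1' (by norm_num)
    have e2 : Real.sqrt h ≤ ((Nat.sqrt h + 1 : ℕ) : ℝ) := by
      rw [Real.sqrt_le_left (by positivity), sq]
      exact_mod_cast (Nat.lt_succ_sqrt h).le
    exact_mod_cast e1.trans e2

theorem errs {n : ℕ} {r : ℕ} {k0 h P L q z6 Y : ℝ} (hL : 1 ≤ L)
    (h3 : 8 * Y * (2 * L) ^ r ≤ q) (hY : 1 ≤ Y) (hq1 : 1 ≤ q) (hqs : q * q * (q * q) = n)
    (hP0 : 0 < P) (hPY : P ≤ Y) (hk0 : k0 ≤ 2 * (q * q)) (hk00 : 0 ≤ k0) (hh0 : 0 < h)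
    (hh : h ≤ 2 * L) (hz : z6 ≤ q * q) (hz0 : 0 ≤ z6) :
    8 * P ≤ q ∧ P ≤ n ∧ k0 * h ^ r ≤ n ∧ P * (h ^ r * z6) ≤ n := by
  have h2L : (1:ℝ) ≤ (2 * L) ^ r := one_le_pow₀ (by linarith)
  have hPq : 8 * P ≤ q := by
    calc 8 * P ≤ 8 * Y * 1 := by linarith
      _ ≤ 8 * Y * (2 * L) ^ r := by gcongr
      _ ≤ q := h3
  have h2Lq : 8 * (2 * L) ^ r ≤ q := by
    calc 8 * (2 * L) ^ r = 8 * 1 * (2 * L) ^ r := by ring
      _ ≤ 8 * Y * (2 * L) ^ r := by gcongr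
      _ ≤ q := h3
  have hPL : 8 * (P * (2 * L) ^ r) ≤ q := by
    calc 8 * (P * (2 * L) ^ r) = 8 * P * (2 * L) ^ r := by ring
      _ ≤ 8 * Y * (2 * L) ^ r := by gcongr
      _ ≤ q := h3
  have g1 : q ≤ q * q := by nlinarith
  have g2 : q * q ≤ q * q * (q * q) := by nlinarith
  have g3 : 0 ≤ q * q := by positivity
  have g4 : q * (q * q) ≤ q * q * (q * q) := by nlinarith
  refine ⟨hPq, by rw [← hqs]; linarith, ?_, ?_⟩
  · calc k0 * h ^ r ≤ 2 * (q * q) * (2 * L) ^ r := by gcongr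
      _ ≤ 2 * (q * q) * (q / 8) := by
        gcongr
        linarith
      _ ≤ q * q * (q * q) := by nlinarith
      _ = n := hqs
  · calc P * (h ^ r * z6) ≤ P * ((2 * L) ^ r * (q * q)) := by gcongr
      _ = (P * (2 * L) ^ r) * (q * q) := by ring
      _ ≤ (q / 8) * (q * q) := by
        gcongr
        linarith
      _ ≤ q * q * (q * q) := by nlinarith
      _ = n := hqs

theorem k0facts {n P : ℕ} {q : ℝ} (hP0 : 0 < P) (hqq : q * q = Real.sqrt n) (hq : 8 ≤ q)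
    (hP : 8 * (P:ℝ) ≤ q) : Nat.sqrt n + 1 ≤ n + 1 ∧ ((Nat.sqrt n + 1 : ℕ) : ℝ) ≤ 2 * (q * q) ∧
      P < Nat.sqrt n + 1 ∧ q < ((P * ((Nat.sqrt n + 1) / P) : ℕ) : ℝ) := by
  have hk0lt : Real.sqrt n < ((Nat.sqrt n + 1 : ℕ) : ℝ) := by
    rw [Real.sqrt_lt' (by positivity)]
    have := Nat.lt_succ_sqrt n
    have h' : n < (Nat.sqrt n + 1) ^ 2 := by rw [sq]; exact this
    exact_mod_cast h'
  rw [← hqq] at hk0lt
  refine ⟨by have := Nat.sqrt_le_self n; omega, ?_, ?_, ?_⟩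
  · have e1 : ((Nat.sqrt n : ℕ) : ℝ) ≤ Real.sqrt n := Real.nat_sqrt_le_real_sqrt
    have e2 : (1:ℝ) ≤ q * q := by nlinarith
    push_cast
    rw [← hqq] at e1
    linarith
  · have e2 : (P:ℝ) < ((Nat.sqrt n + 1 : ℕ) : ℝ) := by nlinarith
    exact_mod_cast e2
  · have e1 := Nat.div_add_mod (Nat.sqrt n + 1) P
    have e2 := Nat.mod_lt (Nat.sqrt n + 1) hP0
    have e3 : ((Nat.sqrt n + 1 : ℕ):ℝ) < ((P * ((Nat.sqrt n + 1) / P) : ℕ) : ℝ) + P := by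
      have : Nat.sqrt n + 1 < P * ((Nat.sqrt n + 1) / P) + P := by omega
      exact_mod_cast this
    nlinarith

theorem exists_par (r : ℕ) (hr1 : 1 ≤ r) : ∀ᶠ n : ℕ in atTop, ∃ k0 y z z1 : ℕ,
    Par r n k0 y z z1 := by
  have ev2 : ∀ᶠ n : ℕ in atTop, ((r * r * (r * r) : ℕ) : ℝ) ≤ Real.log n :=
    log_tendsto.eventually_ge_atTop _
  have ev3 := small_bound r
  filter_upwards [ev2, ev3, eventually_ge_atTop 1, log_tendsto.eventually_ge_atTop 100]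
    with n h2 h3 hn1 h100
  have hn0 : (0:ℝ) < n := by exact_mod_cast (by omega : 0 < n)
  have hn1' : (1:ℝ) ≤ n := by exact_mod_cast hn1
  have hh1 : Real.log n + 1 ≤ H n := H_ge n
  have hh2 : (H n:ℝ) ≤ 2 * Real.log n := by
    have := H_le n hn1
    linarith
  have hh100 : 100 ≤ H n := by
    have : (100:ℝ) ≤ H n := by linarith
    exact_mod_cast this
  have hr4 : r * r * (r * r) < H n := by
    have : ((r * r * (r * r) : ℕ) : ℝ) < H n := by linarith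
    exact_mod_cast this
  obtain ⟨hyy, hy2, hrr, hyh⟩ := yfacts hh100 hr4
  obtain ⟨z, hz1, hlz, hz6, hzr⟩ := zfacts hn1 hr1
  obtain ⟨z1, hz11, hz16, hlz1, hz1y⟩ := z1facts (show 1 ≤ H n by omega)
  have hq1 : (1:ℝ) ≤ (n:ℝ) ^ (1 / 4 : ℝ) := Real.one_le_rpow hn1' (by norm_num)
  have hqq : (n:ℝ) ^ (1 / 4 : ℝ) * (n:ℝ) ^ (1 / 4 : ℝ) = Real.sqrt n := by
    rw [← Real.rpow_add hn0, Real.sqrt_eq_rpow]
    norm_num
  have hP0 := primorial_pos (Nat.sqrt (H n) + 1)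
  have hP4 : (primorial (Nat.sqrt (H n) + 1) : ℝ) ≤ 4 ^ (Nat.sqrt (H n) + 1) := by
    exact_mod_cast primorial_le_four_pow (Nat.sqrt (H n) + 1)
  have hyP : Nat.sqrt (H n) + 1 ≤ primorial (Nat.sqrt (H n) + 1) := le_primorial_self
  generalize Nat.sqrt (H n) + 1 = y at *
  generalize (n:ℝ) ^ (1 / 4 : ℝ) = q at *
  have hqs : q * q * (q * q) = n := by
    rw [hqq, Real.mul_self_sqrt hn0.le]
  have hP0' : (0:ℝ) < primorial y := by exact_mod_cast hP0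
  have h8P : 8 * (primorial y : ℝ) ≤ q := by
    refine le_trans ?_ h3
    have : (1:ℝ) ≤ (2 * Real.log n) ^ r := one_le_pow₀ (by linarith)
    calc 8 * (primorial y : ℝ) ≤ 8 * 4 ^ y * 1 := by linarith
      _ ≤ _ := by gcongr
  have h1P : (1:ℝ) ≤ primorial y := by exact_mod_cast hP0
  obtain ⟨f1, f2, f3, f4⟩ := k0facts hP0 hqq (by linarith) h8P
  have hz6' : (z:ℝ) ^ (6 * r) ≤ q * q := by rw [hqq]; exact hz6
  have hz60 : (0:ℝ) ≤ (z:ℝ) ^ (6 * r) := by positivity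
  obtain ⟨-, g2, g3, g4⟩ := errs (n := n) (r := r) (L := Real.log n) (Y := (4:ℝ) ^ y)
    (by linarith) h3 (one_le_pow₀ (by norm_num)) hq1 hqs hP0' hP4 f2 (by positivity)
    (by linarith) hh2 hz6' hz60
  refine ⟨Nat.sqrt n + 1, y, z, z1, ⟨hn1, by linarith, Nat.succ_pos _, f1, hyy, hy2, hrr, hz1,
    lt_of_le_of_lt hyP f3, hz11, hz1y, ?_, hyh, hz16, hlz1, hlz, g2, g3, g4⟩⟩
  have : ((z ^ r : ℕ) : ℝ) < ((primorial y * ((Nat.sqrt n + 1) / primorial y) : ℕ) : ℝ) := by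
    refine lt_of_le_of_lt ?_ f4
    push_cast
    exact hzr
  exact_mod_cast this

end Pool.Agent.H21.PI
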