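import Pool.Agent.H21.PI.Laws

/-!
# Prime counts in intervals of logarithmic length: comparison of limit laws (MP_76b9e7_nt)
-/

set_option autoImplicit false

open Finset Filter Topology

namespace Pool.Agent.H21.PI

/-- the oscillation -/
noncomputable def osc (j : ℕ) : ℝ := limsup (gam j) atTop - liminf (gam j) atTop

theorem bdd (j : ℕ) : IsBoundedUnder (· ≤ ·) atTop (gam j) ∧ IsBoundedUnder (· ≥ ·) atTop (gam j) :=
  ⟨isBoundedUnder_of ⟨1, fun n => gam_le_one j n⟩, isBoundedUnder_of ⟨0, fun n => gam_nonneg j n⟩⟩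

theorem law_mem {g : ℕ → ℝ} (hg : g ∈ LL) (j : ℕ) :
    liminf (gam j) atTop ≤ g j ∧ g j ≤ limsup (gam j) atTop := by
  obtain ⟨U, hU, h⟩ := LL_ultra hg
  have h1 := (h j).liminf_eq
  have h2 := (h j).limsup_eq
  have b := bdd j
  constructor
  · rw [← h1]
    exact liminf_le_liminf_of_le hU b.2 (b.1.mono hU).isCoboundedUnder_ge
  · rw [← h2]
    exact limsup_le_limsup_of_le hU (b.2.mono hU).isCoboundedUnder_le b.1

theorem exists_law_of_cluster {j : ℕ} {c : ℝ} (hc : MapClusterPt c atTop (gam j)) :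
    ∃ g ∈ LL, g j = c := by
  obtain ⟨U, hU, h⟩ := mapClusterPt_iff_ultrafilter.1 hc
  obtain ⟨g, hg⟩ := exists_law U
  exact ⟨g, ultra_LL hU hg, tendsto_nhds_unique (hg j) h⟩

theorem cluster_limsup (j : ℕ) : MapClusterPt (limsup (gam j) atTop) atTop (gam j) := by
  rw [mapClusterPt_iff_frequently]
  intro s hs
  obtain ⟨ε, hε, hs⟩ := Metric.mem_nhds_iff.1 hs
  have b := bdd j
  have h1 : ∃ᶠ n in atTop, limsup (gam j) atTop - ε < gam j n :=
    frequently_lt_of_lt_limsup b.2.isCoboundedUnder_le (by linarith)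
  have h2 : ∀ᶠ n in atTop, gam j n < limsup (gam j) atTop + ε :=
    eventually_lt_of_limsup_lt (by linarith) b.1
  refine (h1.and_eventually h2).mono (fun n hn => hs ?_)
  rw [Metric.mem_ball, Real.dist_eq, abs_lt]
  constructor <;> linarith [hn.1, hn.2]

theorem cluster_liminf (j : ℕ) : MapClusterPt (liminf (gam j) atTop) atTop (gam j) := by
  rw [mapClusterPt_iff_frequently]
  intro s hs
  obtain ⟨ε, hε, hs⟩ := Metric.mem_nhds_iff.1 hs
  have b := bdd j
  have h1 : ∃ᶠ n in atTop, gam j n < liminf (gam j) atTop + ε :=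
    frequently_lt_of_liminf_lt b.1.isCoboundedUnder_ge (by linarith)
  have h2 : ∀ᶠ n in atTop, liminf (gam j) atTop - ε < gam j n :=
    eventually_lt_of_lt_liminf (by linarith) b.2
  refine (h1.and_eventually h2).mono (fun n hn => hs ?_)
  rw [Metric.mem_ball, Real.dist_eq, abs_lt]
  constructor <;> linarith [hn.1, hn.2]

theorem osc_nonneg (j : ℕ) : 0 ≤ osc j := by
  obtain ⟨g, hg, _⟩ := exists_law_of_cluster (cluster_limsup j)
  have := law_mem hg j
  unfold osc
  linarith

theorem law_diff_le {g g' : ℕ → ℝ} (hg : g ∈ LL) (hg' : g' ∈ LL) (j : ℕ) :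
    |g j - g' j| ≤ osc j := by
  have h1 := law_mem hg j
  have h2 := law_mem hg' j
  unfold osc
  rw [abs_le]
  constructor <;> linarith

/-- **Comparison of two limit laws.** -/
theorem compare {g g' : ℕ → ℝ} (hg : g ∈ LL) (hg' : g' ∈ LL) (a b : ℕ) :
    ENNReal.ofReal (|(a : ℝ) - b| * |g a - g' a|) ≤
      ∑' j : ℕ, if j = a ∨ j = b then 0 else ENNReal.ofReal (|(j : ℝ) - b| * |g j - g' j|) := by
  obtain ⟨C, _, hC⟩ := law_sums
  obtain ⟨p1, p2, -, -⟩ := hC g hg
  obtain ⟨q1, q2, -, -⟩ := hC g' hg'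
  set w : ℕ → ℝ := fun j => ((j : ℝ) - b) * (g j - g' j) with hw
  have h1 : HasSum w 0 := by
    have e1 := (p2.sub q2).sub ((p1.sub q1).mul_left (b:ℝ))
    simp only [sub_self, mul_zero] at e1
    have e2 : w = fun j : ℕ => (j : ℝ) * g j - (j : ℝ) * g' j - (b : ℝ) * (g j - g' j) := by
      funext j
      rw [hw]
      ring
    rw [e2]
    exact e1
  have hs : Summable w := h1.summable
  have h2 : w a = - ∑' j, if j = a then 0 else w j := by
    have := hs.tsum_eq_add_tsum_ite a
    rw [h1.tsum_eq] at this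
    linarith
  have hs2 : Summable (fun j => if j = a then 0 else |w j|) := by
    refine Summable.of_nonneg_of_le (fun j => ?_) (fun j => ?_) hs.abs
    · split_ifs
      · exact le_rfl
      · exact abs_nonneg _
    · split_ifs
      · exact abs_nonneg _
      · exact le_rfl
  have h3 : |w a| ≤ ∑' j, if j = a then 0 else |w j| := by
    rw [h2, abs_neg]
    have hs3 : Summable (fun j => |if j = a then 0 else w j|) := by
      refine hs2.congr (fun j => ?_)
      split_ifs <;> simp
    have e5 := norm_tsum_le_tsum_norm (f := fun j => if j = a then 0 else w j) hs3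
    simp only [Real.norm_eq_abs] at e5
    refine e5.trans (le_of_eq ?_)
    apply tsum_congr
    intro j
    split_ifs <;> simp
  have h4 : |(a : ℝ) - b| * |g a - g' a| = |w a| := by
    rw [hw, abs_mul]
  rw [h4]
  refine (ENNReal.ofReal_le_ofReal h3).trans ?_
  rw [ENNReal.ofReal_tsum_of_nonneg _ hs2]
  · apply ENNReal.tsum_le_tsum
    intro j
    by_cases hja : j = a
    · simp [hja]
    · rw [if_neg hja]
      by_cases hjb : j = b
      · rw [if_pos (Or.inr hjb)]
        have : w j = 0 := by
          rw [hw]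
          simp [hjb]
        simp [this]
      · rw [if_neg (by tauto), hw, abs_mul]
  · intro j
    split_ifs
    · exact le_rfl
    · exact abs_nonneg _

/-- two limit laws which agree outside two values agree -/
theorem eq_of_eq_off_two {g g' : ℕ → ℝ} (hg : g ∈ LL) (hg' : g' ∈ LL) {a b : ℕ} (hab : a ≠ b)
    (h : ∀ j, j ≠ a → j ≠ b → g j = g' j) : g = g' := by
  have key : ∀ a b : ℕ, a ≠ b → (∀ j, j ≠ a → j ≠ b → g j = g' j) → g a = g' a := by
    intro a b hab h
    have h1 := compare hg hg' a b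
    have h2 : (∑' j : ℕ, if j = a ∨ j = b then 0 else
        ENNReal.ofReal (|(j : ℝ) - b| * |g j - g' j|)) = 0 := by
      rw [ENNReal.tsum_eq_zero]
      intro j
      by_cases hj : j = a ∨ j = b
      · rw [if_pos hj]
      · rw [if_neg hj]
        push Not at hj
        rw [h j hj.1 hj.2]
        simp
    rw [h2] at h1
    have h3 : ENNReal.ofReal (|(a : ℝ) - b| * |g a - g' a|) = 0 := le_antisymm h1 zero_le
    rw [ENNReal.ofReal_eq_zero] at h3
    have h4 : 0 < |(a : ℝ) - b| := by
      rw [abs_pos, sub_ne_zero]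
      exact_mod_cast hab
    have h5 : |g a - g' a| ≤ 0 := by
      by_contra h6
      push Not at h6
      have := mul_pos h4 h6
      linarith
    have h6 := abs_nonpos_iff.1 h5
    linarith
  funext j
  by_cases hja : j = a
  · rw [hja]
    exact key a b hab h
  · by_cases hjb : j = b
    · rw [hjb]
      exact key b a (Ne.symm hab) (fun j h1 h2 => h j h2 h1)
    · exact h j hja hjb

/-- a set of natural numbers with fewer than three elements is contained in a pair -/
theorem subset_pair {T : Set ℕ} (hT : T.encard < 3) : ∃ a b : ℕ, a ≠ b ∧ T ⊆ {a, b} := by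
  have hfin : T.Finite := Set.finite_of_encard_le_coe (k := 2) (by
    have : T.encard < (2 : ℕ∞) + 1 := by
      calc T.encard < 3 := hT
        _ = 2 + 1 := by norm_num
    exact Order.le_of_lt_add_one this)
  have h2 : T.encard ≤ 2 := by
    have : T.encard < (2 : ℕ∞) + 1 := by
      calc T.encard < 3 := hT
        _ = 2 + 1 := by norm_num
    exact Order.le_of_lt_add_one this
  obtain ⟨F, rfl⟩ := hfin.exists_finset_coe
  rw [Set.encard_coe_eq_coe_finsetCard] at h2
  have h3 : F.card ≤ 2 := by exact_mod_cast h2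
  obtain ⟨G, hFG, hG⟩ := Infinite.exists_superset_card_eq F 2 h3
  obtain ⟨a, b, hab, rfl⟩ := Finset.card_eq_two.1 hG
  refine ⟨a, b, hab, fun x hx => ?_⟩
  have := hFG hx
  simpa using this

/-- **Two different limit laws differ at three values at least.** -/
theorem three_coords {g g' : ℕ → ℝ} (hg : g ∈ LL) (hg' : g' ∈ LL) (h : g ≠ g') :
    3 ≤ {j | g j ≠ g' j}.encard := by
  by_contra h1
  push Not at h1
  obtain ⟨a, b, hab, hs⟩ := subset_pair h1
  apply h
  apply eq_of_eq_off_two hg hg' hab
  intro j hja hjb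
  by_contra h2
  have := hs (show j ∈ {j | g j ≠ g' j} from h2)
  simp only [Set.mem_insert_iff, Set.mem_singleton_iff] at this
  tauto

/-- convergence -/
def Conv (j : ℕ) : Prop := ∃ L : ℝ, Tendsto (gam j) atTop (𝓝 L)

theorem conv_iff (j : ℕ) : Conv j ↔ osc j = 0 := by
  have b := bdd j
  constructor
  · rintro ⟨L, hL⟩
    unfold osc
    rw [hL.limsup_eq, hL.liminf_eq, sub_self]
  · intro h
    unfold osc at h
    exact ⟨limsup (gam j) atTop, tendsto_of_liminf_eq_limsup (by linarith) rfl b.1 b.2⟩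

/-- **The inequality for the oscillations.** -/
theorem osc_ineq (a b : ℕ) : ENNReal.ofReal (|(a : ℝ) - b| * osc a) ≤
    ∑' j : ℕ, if j = a ∨ j = b then 0 else ENNReal.ofReal (|(j : ℝ) - b| * osc j) := by
  obtain ⟨g, hg, hga⟩ := exists_law_of_cluster (cluster_limsup a)
  obtain ⟨g', hg', hga'⟩ := exists_law_of_cluster (cluster_liminf a)
  have h1 := compare hg hg' a b
  have h2 : |g a - g' a| = osc a := by
    rw [hga, hga']
    exact abs_of_nonneg (osc_nonneg a)
  rw [h2] at h1
  refine h1.trans (ENNReal.tsum_le_tsum (fun j => ?_))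
  split_ifs
  · exact le_rfl
  · exact ENNReal.ofReal_le_ofReal
      (mul_le_mul_of_nonneg_left (law_diff_le hg hg' j) (abs_nonneg _))

/-- convergence off two values implies convergence -/
theorem conv_of_off_two {a b : ℕ} (hab : a ≠ b) (h : ∀ j, j ≠ a → j ≠ b → Conv j) (j : ℕ) :
    Conv j := by
  have hlaw : ∀ g ∈ LL, ∀ g' ∈ LL, g = g' := by
    intro g hg g' hg'
    apply eq_of_eq_off_two hg hg' hab
    intro i hia hib
    have h1 := (conv_iff i).1 (h i hia hib)
    have h2 := law_diff_le hg hg' i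
    rw [h1] at h2
    linarith [abs_nonpos_iff.1 h2]
  obtain ⟨g, hg, hga⟩ := exists_law_of_cluster (cluster_limsup j)
  obtain ⟨g', hg', hga'⟩ := exists_law_of_cluster (cluster_liminf j)
  rw [conv_iff]
  unfold osc
  rw [← hga, ← hga', hlaw g hg g' hg', sub_self]

/-- none or three -/
theorem none_or_three : {j | ¬ Conv j} = ∅ ∨ 3 ≤ {j | ¬ Conv j}.encard := by
  by_cases h : 3 ≤ {j | ¬ Conv j}.encard
  · exact Or.inr h
  · left
    push Not at h
    obtain ⟨a, b, hab, hs⟩ := subset_pair h
    rw [Set.eq_empty_iff_forall_notMem]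
    intro j hj
    apply hj
    apply conv_of_off_two hab
    intro i hia hib
    by_contra h2
    have := hs (show i ∈ {j | ¬ Conv j} from h2)
    simp only [Set.mem_insert_iff, Set.mem_singleton_iff] at this
    tauto

end Pool.Agent.H21.PI
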