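import Pool.Agent.H21.PI.Second

/-!
# Prime counts in intervals of logarithmic length: the second moment is bounded (MP_76b9e7_nt)
-/

set_option autoImplicit false

open Finset Filter Topology

namespace Pool.Agent.H21.PI

theorem second_aux {n z : ℕ} (hz : 1 ≤ z) :
    ((∑ k ∈ Icc 1 n, (X k) ^ 2 : ℕ) : ℝ) ≤ 2 * H n * (Nat.primeCounting n + 2 * H n +
      (H n * ((z:ℝ) ^ 2 + (z:ℝ) ^ 12) +
        9 * (n + H n) / (Real.log (z + 1)) ^ 2 * (Pool.Agent.H75.PS.CC ^ 4 * H n))) := by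
  have h1 : ∑ k ∈ Icc 1 n, (X k) ^ 2 ≤ 2 * H n * ∑ t ∈ range (H n), D (n + H n) t := by
    refine le_trans (sum_le_sum (fun k hk => ?_)) (pairs_le n (H n))
    rw [mem_Icc] at hk
    exact X_sq_le hk.1 hk.2
  have h2 : ((∑ k ∈ Icc 1 n, (X k) ^ 2 : ℕ) : ℝ) ≤
      2 * H n * ((∑ t ∈ range (H n), D (n + H n) t : ℕ) : ℝ) := by exact_mod_cast h1
  refine h2.trans ?_
  have h3 := sum_D_le (n + H n) (H n) z hz
  have h4 : (Nat.primeCounting (n + H n) : ℝ) ≤ Nat.primeCounting n + H n := by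
    exact_mod_cast pi_add_le n (H n)
  push_cast at h3 ⊢
  have h0 : (0:ℝ) ≤ H n := Nat.cast_nonneg _
  gcongr
  linarith

/-- **The second moment is bounded.** -/
theorem second : ∃ C : ℝ, 0 < C ∧ ∀ᶠ n : ℕ in atTop,
    ((∑ k ∈ Icc 1 n, (X k) ^ 2 : ℕ) : ℝ) ≤ C * n := by
  set c := Pool.Agent.H75.PS.CC ^ 4 with hc
  have hc0 : 0 ≤ c := pow_nonneg Pool.Agent.H75.PS.CC_nonneg 4
  refine ⟨2 * (4 + 8 + 8 + 64800 * c), by positivity, ?_⟩
  have e1 : ∀ᶠ n : ℕ in atTop, (Nat.primeCounting n : ℝ) * Real.log n / n < 2 :=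
    pi_tendsto.eventually (gt_mem_nhds (by norm_num))
  have e2 : ∀ᶠ n : ℕ in atTop, 2 ≤ Real.log n := log_tendsto.eventually_ge_atTop 2
  have e3 : ∀ᶠ n : ℕ in atTop, (Real.log n) ^ 2 ≤ (n:ℝ) ^ (1 / 2 : ℝ) := by
    have h1 := (isLittleO_log_rpow_atTop (show (0:ℝ) < 1 / 4 by norm_num)).bound
      (show (0:ℝ) < 1 by norm_num)
    have h2 := (tendsto_natCast_atTop_atTop (R := ℝ)).eventually h1
    filter_upwards [h2, eventually_ge_atTop 1] with n hn hn1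
    have hn0 : (0:ℝ) < n := by exact_mod_cast (by omega : 0 < n)
    have hl : 0 ≤ Real.log n := Real.log_nonneg (by exact_mod_cast hn1)
    rw [Real.norm_eq_abs, Real.norm_eq_abs, abs_of_nonneg hl,
      abs_of_nonneg (by positivity), one_mul] at hn
    calc (Real.log n) ^ 2 ≤ ((n:ℝ) ^ (1 / 4 : ℝ)) ^ 2 := by gcongr
      _ = (n:ℝ) ^ (1 / 2 : ℝ) := by
        rw [← Real.rpow_natCast, ← Real.rpow_mul hn0.le]
        norm_num
  filter_upwards [e1, e2, e3, eventually_ge_atTop 1] with n h1 h2 h3 hn1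
  have hn0 : (0:ℝ) < n := by exact_mod_cast (by omega : 0 < n)
  have hn1' : (1:ℝ) ≤ n := by exact_mod_cast hn1
  set z := ⌊(n:ℝ) ^ (1 / 30 : ℝ)⌋₊ with hz
  have hzr : (1:ℝ) ≤ (n:ℝ) ^ (1 / 30 : ℝ) := Real.one_le_rpow hn1' (by norm_num)
  have hz1 : 1 ≤ z := Nat.le_floor (by exact_mod_cast hzr)
  refine (second_aux hz1).trans ?_
  have hzle : (z:ℝ) ≤ (n:ℝ) ^ (1 / 30 : ℝ) := Nat.floor_le (by positivity)
  have hzlt : (n:ℝ) ^ (1 / 30 : ℝ) < z + 1 := Nat.lt_floor_add_one _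
  have hL : Real.log n / 30 ≤ Real.log (z + 1) := by
    have : Real.log ((n:ℝ) ^ (1 / 30 : ℝ)) = Real.log n / 30 := by
      rw [Real.log_rpow hn0]
      ring
    rw [← this]
    exact Real.log_le_log (by positivity) hzlt.le
  have hHn : (H n : ℝ) ≤ 2 * Real.log n := by
    have := H_le n hn1
    linarith
  have hH0 : (0:ℝ) ≤ H n := Nat.cast_nonneg _
  set L := Real.log n with hLdef
  have hL0 : 0 < L := by linarith
  have a1 : (Nat.primeCounting n : ℝ) * L ≤ 2 * n := by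
    rw [div_lt_iff₀ hn0] at h1
    linarith
  have a2 : L ^ 2 ≤ n := by
    refine h3.trans ?_
    calc (n:ℝ) ^ (1 / 2 : ℝ) ≤ (n:ℝ) ^ (1 : ℝ) := by
          apply Real.rpow_le_rpow_of_exponent_le hn1' (by norm_num)
      _ = n := Real.rpow_one _
  have a3 : L ^ 2 * ((z:ℝ) ^ 2 + (z:ℝ) ^ 12) ≤ 2 * n := by
    have b1 : (z:ℝ) ^ 12 ≤ (n:ℝ) ^ (2 / 5 : ℝ) := by
      calc (z:ℝ) ^ 12 ≤ ((n:ℝ) ^ (1 / 30 : ℝ)) ^ 12 := by gcongr
        _ = (n:ℝ) ^ (2 / 5 : ℝ) := by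
          rw [← Real.rpow_natCast, ← Real.rpow_mul hn0.le]
          norm_num
    have b2 : (z:ℝ) ^ 2 ≤ (z:ℝ) ^ 12 :=
      pow_le_pow_right₀ (by exact_mod_cast hz1) (by norm_num)
    calc L ^ 2 * ((z:ℝ) ^ 2 + (z:ℝ) ^ 12)
        ≤ (n:ℝ) ^ (1 / 2 : ℝ) * ((n:ℝ) ^ (2 / 5 : ℝ) + (n:ℝ) ^ (2 / 5 : ℝ)) := by
          gcongr
          exact b2.trans b1
      _ = 2 * (n:ℝ) ^ (9 / 10 : ℝ) := by
          rw [← two_mul, mul_left_comm, ← Real.rpow_add hn0]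
          norm_num
      _ ≤ 2 * (n:ℝ) ^ (1 : ℝ) := by
          gcongr
          norm_num
      _ = 2 * n := by rw [Real.rpow_one]
  have a4 : (H n : ℝ) ≤ n := by
    have : 2 * L ≤ L ^ 2 := by nlinarith
    linarith
  have a5 : 9 * ((n:ℝ) + H n) / (Real.log (z + 1)) ^ 2 * (c * H n) * (2 * L) ≤
      64800 * c * n := by
    have hlz : 0 < Real.log (z + 1) := lt_of_lt_of_le (by positivity) hL
    have b1 : 9 * ((n:ℝ) + H n) / (Real.log (z + 1)) ^ 2 ≤ 9 * (2 * n) / (L / 30) ^ 2 := by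
      gcongr
      linarith
    calc 9 * ((n:ℝ) + H n) / (Real.log (z + 1)) ^ 2 * (c * H n) * (2 * L)
        ≤ 9 * (2 * n) / (L / 30) ^ 2 * (c * (2 * L)) * (2 * L) := by gcongr
      _ = 64800 * c * n := by
          field_simp
          ring
  have hp0 : (0:ℝ) ≤ Nat.primeCounting n := Nat.cast_nonneg _
  have hq0 : 0 ≤ (z:ℝ) ^ 2 + (z:ℝ) ^ 12 := by positivity
  have hr0 : 0 ≤ 9 * ((n:ℝ) + H n) / (Real.log (z + 1)) ^ 2 * (c * H n) := by positivity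
  calc 2 * (H n : ℝ) * (Nat.primeCounting n + 2 * H n + (H n * ((z:ℝ) ^ 2 + (z:ℝ) ^ 12) +
        9 * (n + H n) / (Real.log (z + 1)) ^ 2 * (c * H n)))
      ≤ 2 * (2 * L) * (Nat.primeCounting n + 2 * (2 * L) + ((2 * L) * ((z:ℝ) ^ 2 + (z:ℝ) ^ 12) +
        9 * (n + H n) / (Real.log (z + 1)) ^ 2 * (c * H n))) := by gcongr
    _ = 2 * (2 * (Nat.primeCounting n * L) + 8 * L ^ 2 +
        (4 * (L ^ 2 * ((z:ℝ) ^ 2 + (z:ℝ) ^ 12)) +
        9 * (n + H n) / (Real.log (z + 1)) ^ 2 * (c * H n) * (2 * L))) := by ring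
    _ ≤ 2 * (2 * (2 * n) + 8 * n + (4 * (2 * n) + 64800 * c * n)) := by gcongr
    _ = 2 * (4 + 8 + 8 + 64800 * c) * n := by ring

end Pool.Agent.H21.PI
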