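import Pool.Agent.H21.PI.KSieve
import Pool.Agent.H88.AD.HQB

/-!
# Prime tuples in short windows: the sieve bounds (MP_76b9e7_nt)
-/

set_option autoImplicit false

namespace Pool.Agent.H21.PI

open Finset
open Pool.Agent.H18.T2

/-- the integers of a short interval without small prime factors -/
theorem surv (b h y z : ℕ) (hz : 1 ≤ z) (hzy : z ≤ y) :
    ((((range h).filter (fun i => (b + i).Coprime (primorial y))).card : ℕ) : ℝ) ≤
      2 * h / Real.log (z + 1) + (z : ℝ) ^ 6 := by
  have h1 := sieve_bound 1 {b} 0 h z (by simp) hz ∅ (by simp) (by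
    intro p hp _ _
    refine ⟨fun h => ?_, by simpa using hp.one_lt, ?_⟩
    · exact hp.one_lt.ne' (Nat.dvd_one.1 h)
    · intro u hu v hv huv
      rw [mem_singleton] at hu hv
      omega)
  simp only [card_singleton, prod_empty, mul_one, pow_one, zero_add] at h1
  refine le_trans ?_ h1
  norm_cast
  apply card_le_card
  intro i hi
  rw [mem_filter, mem_range] at hi
  rw [mem_filter, mem_Ico]
  refine ⟨⟨Nat.zero_le _, hi.1⟩, ?_⟩
  apply Nat.Coprime.prod_left
  intro p hp
  have hp' := mem_SPK.1 hp
  unfold valL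
  rw [prod_singleton, one_mul, add_comm]
  apply Nat.Coprime.coprime_dvd_left _ hi.2.symm
  rw [hp'.1.2.dvd_primorial_iff]
  exact hp'.1.1.trans hzy

/-- at most one large prime divides a small positive integer -/
theorem large_prime_card (m y h : ℕ) (hm : 0 < m) (hmh : m < h) (hy : h ≤ y * y) :
    (m.primeFactors.filter (fun p => y < p)).card ≤ 1 := by
  rw [card_le_one]
  intro p hp q hq
  rw [mem_filter, Nat.mem_primeFactors] at hp hq
  by_contra hne
  have hcop := (Nat.coprime_primes hp.1.1 hq.1.1).2 hne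
  have hd := hcop.mul_dvd_of_dvd_of_dvd hp.1.2.1 hq.1.2.1
  have h1 := Nat.le_of_dvd hm hd
  have h2 : y * y < p * q := Nat.mul_lt_mul'' hp.2 hq.2
  omega

/-- the exceptional primes -/
def BB (y : ℕ) (U : Finset ℕ) : Finset ℕ := Nat.primesLE y ∪
  U.biUnion (fun u => (U.filter (fun v => u < v)).biUnion
    (fun v => (v - u).primeFactors.filter (fun p => y < p)))

theorem BB_prod (y h b : ℕ) (U : Finset ℕ) (hy : h ≤ y * y) (hy1 : 1 ≤ y)
    (hU : ∀ u ∈ U, b ≤ u ∧ u < b + h) :
    ∏ p ∈ BB y U, (1 + 1 / (p : ℝ)) ≤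
      (∏ p ∈ Nat.primesLE y, (1 + 1 / (p : ℝ))) * (1 + 1 / (y : ℝ)) ^ (U.card * U.card) := by
  unfold BB
  refine (prod_union_le _ _).trans ?_
  apply mul_le_mul_of_nonneg_left _ (zero_le_one.trans (prod_one_le _))
  refine (prod_biUnion_le _ _).trans ?_
  have hy0 : (0:ℝ) < y := by exact_mod_cast hy1
  have hy1' : (1:ℝ) ≤ 1 + 1 / (y:ℝ) := by
    have : (0:ℝ) ≤ 1 / (y:ℝ) := by positivity
    linarith
  calc ∏ u ∈ U, ∏ p ∈ (U.filter (fun v => u < v)).biUnion
        (fun v => (v - u).primeFactors.filter (fun p => y < p)), (1 + 1 / (p : ℝ))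
      ≤ ∏ u ∈ U, (1 + 1 / (y : ℝ)) ^ U.card := by
        apply prod_le_prod
        · intro u _
          exact zero_le_one.trans (prod_one_le _)
        · intro u hu
          refine (prod_biUnion_le _ _).trans ?_
          calc ∏ v ∈ U.filter (fun v => u < v), ∏ p ∈ (v - u).primeFactors.filter (fun p => y < p),
                (1 + 1 / (p : ℝ)) ≤ ∏ v ∈ U.filter (fun v => u < v), (1 + 1 / (y : ℝ)) := by
                apply prod_le_prod
                · intro v _
                  exact zero_le_one.trans (prod_one_le _)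
                · intro v hv
                  rw [mem_filter] at hv
                  have h1 := hU u hu
                  have h2 := hU v hv.1
                  have h3 := large_prime_card (v - u) y h (by omega) (by omega) hy
                  calc ∏ p ∈ (v - u).primeFactors.filter (fun p => y < p), (1 + 1 / (p : ℝ))
                      ≤ ∏ p ∈ (v - u).primeFactors.filter (fun p => y < p), (1 + 1 / (y : ℝ)) := by
                        apply prod_le_prod
                        · intro p _
                          positivity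
                        · intro p hp
                          rw [mem_filter] at hp
                          have : (y:ℝ) ≤ p := by exact_mod_cast hp.2.le
                          gcongr
                    _ = (1 + 1 / (y : ℝ)) ^ (((v - u).primeFactors.filter (fun p => y < p)).card) := by
                        rw [prod_const]
                    _ ≤ (1 + 1 / (y : ℝ)) ^ 1 := pow_le_pow_right₀ hy1' h3
                    _ = _ := pow_one _
            _ = (1 + 1 / (y : ℝ)) ^ (U.filter (fun v => u < v)).card := by rw [prod_const]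
            _ ≤ (1 + 1 / (y : ℝ)) ^ U.card := pow_le_pow_right₀ hy1' (card_filter_le _ _)
    _ = (1 + 1 / (y : ℝ)) ^ (U.card * U.card) := by
        rw [prod_const, ← pow_mul]

theorem mertens : ∃ C : ℝ, 0 < C ∧ ∀ y : ℕ, 2 ≤ y →
    ∏ p ∈ Nat.primesLE y, (1 + 1 / (p : ℝ)) ≤ C * Real.log y := by
  obtain ⟨C, hC, h⟩ := Pool.Agent.H88.AD.mertens_prod
  refine ⟨C, hC, fun y hy => le_trans ?_ (h y hy)⟩
  have hset : (primorial y).primeFactors = Nat.primesLE y := by
    ext p
    rw [Nat.mem_primeFactors, Nat.mem_primesLE]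
    constructor
    · rintro ⟨hp, hd, -⟩
      exact ⟨hp.dvd_primorial_iff.1 hd, hp⟩
    · rintro ⟨h1, hp⟩
      exact ⟨hp, hp.dvd_primorial_iff.2 h1, (primorial_pos y).ne'⟩
  rw [hset]
  apply prod_le_prod
  · intro p _
    positivity
  · intro p hp
    have hp2 : (2:ℝ) ≤ p := by exact_mod_cast (Nat.mem_primesLE.1 hp).2.two_le
    have h1 : 0 < 1 - 1 / (p:ℝ) := by
      have : 1 / (p:ℝ) ≤ 1 / 2 := by gcongr
      linarith
    rw [le_inv_comm₀ (by positivity) h1]
    rw [← one_div, le_div_iff₀ (by positivity)]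
    have : (1 - 1 / (p:ℝ)) * (1 + 1 / p) = 1 - 1 / (p:ℝ) ^ 2 := by ring
    rw [this]
    have : 0 ≤ 1 / (p:ℝ) ^ 2 := by positivity
    linarith

/-- the tuples -/
theorem tuple_bound {C : ℝ} (hC0 : 0 < C) (y h b a N z r : ℕ) (U : Finset ℕ) (hy : h ≤ y * y)
    (hy2 : 2 ≤ y) (hr : r * r ≤ y) (hr1 : 1 ≤ r) (hz : 1 ≤ z) (hU : U ⊆ range h)
    (hUr : U.card = r) (hza : z ^ r < primorial y * a)
    (hC : ∏ p ∈ Nat.primesLE y, (1 + 1 / (p : ℝ)) ≤ C * Real.log y) :
    ((((Finset.Ico a (a + N)).filter
      (fun t => ∀ u ∈ U, (primorial y * t + (b + u)).Prime)).card : ℕ) : ℝ) ≤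
      (6 * C * Real.log y) ^ r * N / (Real.log (z + 1)) ^ r + (z : ℝ) ^ (6 * r) := by
  classical
  set V : Finset ℕ := U.image (fun u => b + u) with hV
  have hVcard : V.card = r := by
    rw [hV, card_image_of_injective _ (add_right_injective b), hUr]
  have hVU : ∀ v ∈ V, b ≤ v ∧ v < b + h := by
    intro v hv
    rw [hV, mem_image] at hv
    obtain ⟨u, hu, rfl⟩ := hv
    have := mem_range.1 (hU hu)
    omega
  have h1 := sieve_bound (primorial y) V a N z (by omega) hz (BB y V) (by
    intro p hp
    unfold BB at hp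
    rw [mem_union, mem_biUnion] at hp
    rcases hp with hp | ⟨u, _, hp⟩
    · exact (Nat.mem_primesLE.1 hp).2.pos
    · rw [mem_biUnion] at hp
      obtain ⟨v, _, hp⟩ := hp
      rw [mem_filter] at hp
      exact (Nat.prime_of_mem_primeFactors hp.1).pos) (by
    intro p hp _ hpB
    unfold BB at hpB
    rw [mem_union, mem_biUnion] at hpB
    push Not at hpB
    have hpy : y < p := by
      by_contra h
      exact hpB.1 (Nat.mem_primesLE.2 ⟨by omega, hp⟩)
    refine ⟨fun h => ?_, ?_, fun u hu v hv huv hd => ?_⟩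
    · have := hp.dvd_primorial_iff.1 h
      omega
    · rw [hVcard]
      nlinarith
    · apply hpB.2 u hu
      rw [mem_biUnion]
      refine ⟨v, mem_filter.2 ⟨hv, huv⟩, mem_filter.2 ⟨?_, hpy⟩⟩
      exact Nat.mem_primeFactors.2 ⟨hp, hd, by omega⟩)
  rw [hVcard] at h1
  have h2 : ((((Finset.Ico a (a + N)).filter
      (fun t => ∀ u ∈ U, (primorial y * t + (b + u)).Prime)).card : ℕ) : ℝ) ≤
      (((Finset.Ico a (a + N)).filter
      (fun n => (∏ p ∈ SPK (primorial y) V (z ^ r), p).Coprime (valL (primorial y) V n))).card : ℝ) := by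
    norm_cast
    apply card_le_card
    intro t ht
    rw [mem_filter, mem_Ico] at ht
    rw [mem_filter, mem_Ico]
    refine ⟨ht.1, ?_⟩
    apply Nat.Coprime.prod_left
    intro p hp
    have hp' := mem_SPK.1 hp
    unfold valL
    apply Nat.Coprime.prod_right
    intro v hv
    rw [hV, mem_image] at hv
    obtain ⟨u, hu, rfl⟩ := hv
    rw [Nat.coprime_primes hp'.1.2 (ht.2 u hu)]
    have : primorial y * a ≤ primorial y * t := Nat.mul_le_mul_left _ ht.1.1
    omega
  refine h2.trans (h1.trans ?_)
  apply add_le_add_left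
  have hlz : 0 < Real.log (z + 1) := by
    apply Real.log_pos
    have : (1:ℝ) ≤ z := by exact_mod_cast hz
    linarith
  have hly : 0 < Real.log y := Real.log_pos (by exact_mod_cast hy2)
  have h3 : ∏ p ∈ BB y V, (1 + 1 / (p : ℝ)) ≤ 3 * C * Real.log y := by
    have e1 := BB_prod y h b V hy (by omega) hVU
    rw [hVcard] at e1
    have e2 : (1 + 1 / (y : ℝ)) ^ (r * r) ≤ 3 := by
      have hy0 : (0:ℝ) < y := by exact_mod_cast (by omega : 0 < y)
      calc (1 + 1 / (y : ℝ)) ^ (r * r) ≤ (Real.exp (1 / y)) ^ (r * r) := by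
            gcongr
            have := Real.add_one_le_exp (1 / (y:ℝ))
            linarith
        _ = Real.exp ((r * r : ℕ) * (1 / y)) := by rw [← Real.exp_nat_mul]
        _ ≤ Real.exp 1 := by
            apply Real.exp_le_exp.2
            rw [mul_one_div, div_le_one hy0]
            exact_mod_cast hr
        _ ≤ 3 := by
            have := Real.exp_one_lt_d9
            linarith
    calc ∏ p ∈ BB y V, (1 + 1 / (p : ℝ)) ≤ _ := e1
      _ ≤ (C * Real.log y) * 3 := by gcongr
      _ = _ := by ring
  have h4 : 0 ≤ ∏ p ∈ BB y V, (1 + 1 / (p : ℝ)) := zero_le_one.trans (prod_one_le _)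
  have h5 : 2 * ∏ p ∈ BB y V, (1 + 1 / (p : ℝ)) ≤ 6 * C * Real.log y := by linarith
  gcongr

end Pool.Agent.H21.PI
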